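import Pool.Agent.Lib.MP_55bc5f_an.Full.SpecEt

/-!
# Closedness extends from an open set
-/

set_option autoImplicit false

open scoped Manifold ContDiff Topology ComplexConjugate
open Set Filter Metric MeasureTheory

namespace Pool.Agent.Lib.MP_55bc5f_an

theorem s_Closed (hConn : S_Conn) : S_Closed := by
  intro n N M hM θ₁ θ₂ θ₃ hθ U hU hUne hsol x I hx
  obtain ⟨hd, hpc⟩ := hConn n N M hM I
  have hdense : Dense (M.E I) := hd ⟨x, hx⟩
  have hpre : PreconnectedSpace (M.dom I) := Subtype.preconnectedSpace hpc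
  have hp := (M.dom I).hπ
  have hinc : Continuous (M.inc I) := continuous_subtype_val
  obtain ⟨x₁, hx₁E, hx₁U⟩ := (hdense.inter_open_nonempty U hU hUne)
  let y₁ : M.dom I := M.mk' I x₁ hx₁U
  have hy₁ : M.inc I y₁ ∈ U := hx₁E
  have hF₁ : ∀ y : M.dom I, HolAt (M.dom I).π (fun y => M.fr I θ₁ (M.inc I y)) y := fun y =>
    holAt_dom.2 ((hθ (M.inc I y)).1 I y.2)
  have hF₂ : ∀ y : M.dom I, HolAt (M.dom I).π (fun y => M.fr I θ₂ (M.inc I y)) y := fun y =>
    holAt_dom.2 ((hθ (M.inc I y)).2.1 I y.2)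
  have hF₃ : ∀ y : M.dom I, HolAt (M.dom I).π (fun y => M.fr I θ₃ (M.inc I y)) y := fun y =>
    holAt_dom.2 ((hθ (M.inc I y)).2.2 I y.2)
  -- closedness over `U`
  have hcl : ∀ y : M.dom I, M.inc I y ∈ U → ClosedAt (M.fr I θ₁ (M.inc I y))
      (M.fr I θ₂ (M.inc I y)) (M.fr I θ₃ (M.inc I y))
      (rd hp (fun y => M.fr I θ₁ (M.inc I y)) y) (rd hp (fun y => M.fr I θ₂ (M.inc I y)) y)
      (rd hp (fun y => M.fr I θ₃ (M.inc I y)) y) := by
    intro y hy
    obtain ⟨w, hw⟩ := hsol _ hy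
    have h1 : ∀ᶠ y' in 𝓝 y, SolAt (M.dom I).π (fun y => (M.fr I θ₁ (M.inc I y),
        M.fr I θ₂ (M.inc I y), M.fr I θ₃ (M.inc I y))) (fun y => w (M.inc I y)) y' := by
      filter_upwards [hinc.continuousAt.eventually hw] with y' hy'
      obtain ⟨h1, h2, h3⟩ := hy' I y'.2
      exact ⟨hasRD_dom.2 h1, hasRD_dom.2 h2, hasRD_dom.2 h3⟩
    exact closedAt_of_solAt hp (Θ := fun y => (M.fr I θ₁ (M.inc I y),
        M.fr I θ₂ (M.inc I y), M.fr I θ₃ (M.inc I y))) (hF₁ y) (hF₂ y) (hF₃ y) h1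
  have hnear : ∀ᶠ y in 𝓝 y₁, M.inc I y ∈ U := hinc.continuousAt.eventually (hU.mem_nhds hy₁)
  have happly : ∀ {F : M.dom I → Cn n →L[ℂ] ℂ} (v : Cn n) {y : M.dom I},
      HolAt (M.dom I).π F y → HolAt (M.dom I).π (fun y => F y v) y :=
    fun v _ hF => hF.comp_clm (ContinuousLinearMap.apply ℂ ℂ v)
  have happly2 : ∀ {F : M.dom I → Cn n →L[ℂ] ℂ} (u v : Cn n) {y : M.dom I},
      HolAt (M.dom I).π F y → HolAt (M.dom I).π (fun y => rd hp F y u v) y := fun u v _ hF =>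
    ((hF.rd hp).comp_clm (ContinuousLinearMap.apply ℂ (Cn n →L[ℂ] ℂ) u)).comp_clm
      (ContinuousLinearMap.apply ℂ ℂ v)
  have hmul : ∀ {f F : M.dom I → ℂ} {y : M.dom I}, HolAt (M.dom I).π f y →
      HolAt (M.dom I).π F y → HolAt (M.dom I).π (fun y => f y * F y) y :=
    fun hf hF => hf.smul hF
  intro u v
  refine ⟨?_, ?_, ?_⟩
  · have := identity hp (F := fun y => rd hp (fun y => M.fr I θ₁ (M.inc I y)) y u v)
      (G := fun y => rd hp (fun y => M.fr I θ₁ (M.inc I y)) y v u) (y₀ := y₁)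
      (fun y => happly2 u v (hF₁ y)) (fun y => happly2 v u (hF₁ y)) (by
        filter_upwards [hnear] with y hy
        exact (hcl y hy u v).1)
    exact congrFun this (M.mk' I x hx)
  · have := identity hp (F := fun y => rd hp (fun y => M.fr I θ₂ (M.inc I y)) y u v -
        M.fr I θ₁ (M.inc I y) u * M.fr I θ₂ (M.inc I y) v)
      (G := fun y => rd hp (fun y => M.fr I θ₂ (M.inc I y)) y v u -
        M.fr I θ₁ (M.inc I y) v * M.fr I θ₂ (M.inc I y) u) (y₀ := y₁)
      (fun y => (happly2 u v (hF₂ y)).sub (hmul (happly u (hF₁ y)) (happly v (hF₂ y))))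
      (fun y => (happly2 v u (hF₂ y)).sub (hmul (happly v (hF₁ y)) (happly u (hF₂ y)))) (by
        filter_upwards [hnear] with y hy
        exact (hcl y hy u v).2.1)
    exact congrFun this (M.mk' I x hx)
  · have := identity hp (F := fun y => rd hp (fun y => M.fr I θ₃ (M.inc I y)) y u v +
        M.fr I θ₁ (M.inc I y) u * M.fr I θ₃ (M.inc I y) v)
      (G := fun y => rd hp (fun y => M.fr I θ₃ (M.inc I y)) y v u +
        M.fr I θ₁ (M.inc I y) v * M.fr I θ₃ (M.inc I y) u) (y₀ := y₁)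
      (fun y => (happly2 u v (hF₃ y)).add (hmul (happly u (hF₁ y)) (happly v (hF₃ y))))
      (fun y => (happly2 v u (hF₃ y)).add (hmul (happly v (hF₁ y)) (happly u (hF₃ y)))) (by
        filter_upwards [hnear] with y hy
        exact (hcl y hy u v).2.2)
    exact congrFun this (M.mk' I x hx)

end Pool.Agent.Lib.MP_55bc5f_an
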