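import Pool.Agent.Lib.MP_55bc5f_an.Full.SpecEt

set_option autoImplicit false

open scoped Manifold ContDiff Topology ComplexConjugate
open Set Filter Metric MeasureTheory

namespace Pool.Agent.Lib.MP_55bc5f_an

lemma Comp_nsq_cont {n : ℕ} : Continuous (nsq : Cn n → ℝ) := by
  unfold nsq
  fun_prop

lemma Comp_gs_cont {n N : ℕ} {E : LM n N} {I : Fin n → Fin N} {x : E} (h : Et E.z I x) :
    ContinuousAt (E.gs I) x := by
  unfold LM.gs
  apply tendsto_finsetSum
  intro K _
  exact (((h.holAt_GJ K).continuousAt E.cont.continuousAt).norm).pow 2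

lemma Comp_nsq_nonneg {n : ℕ} (w : Cn n) : 0 ≤ nsq w := by
  unfold nsq
  positivity

lemma Comp_norm_le {n : ℕ} {w : Cn n} {c : ℝ} (h : nsq w ≤ c) : ‖w‖ ≤ Real.sqrt c := by
  rw [pi_norm_le_iff_of_nonneg (Real.sqrt_nonneg c)]
  intro i
  apply Real.le_sqrt_of_sq_le
  refine le_trans ?_ h
  unfold nsq
  exact Finset.single_le_sum (f := fun j => ‖w j‖ ^ 2) (fun j _ => by positivity) (Finset.mem_univ i)

theorem s_Comp : S_Comp := by
  intro n N E hE I c
  set T : Set E := {x | x ∈ E.E I ∧ (1 + nsq (E.z x)) * E.gs I x ≤ c} with hT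
  -- `T` is closed
  have hbound : ∀ x ∈ T, nsq (E.z x) ≤ c ∧ E.gs I x ≤ c := by
    rintro x ⟨hx, hs⟩
    have h1 := Et.one_le_gs (show Et E.z I x from hx)
    have h2 := Comp_nsq_nonneg (E.z x)
    constructor <;> nlinarith
  have hclosed : IsClosed T := by
    rw [← closure_subset_iff_isClosed]
    intro x hx
    obtain ⟨I', hI'⟩ := E.et x
    have hev : ∀ᶠ y in 𝓝 x, Et E.z I' y := hI'.eventually
    have hfr : ∃ᶠ y in 𝓝 x, y ∈ T := mem_closure_iff_frequently.1 hx
    -- `1 ≤ c |GJ I' I|²`
    have hcont : ContinuousAt (fun y => c * ‖E.GJ I' I y‖ ^ 2) x :=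
      continuousAt_const.mul ((((hI'.holAt_GJ I).continuousAt E.cont.continuousAt).norm).pow 2)
    have h1 : 1 ≤ c * ‖E.GJ I' I x‖ ^ 2 := by
      by_contra hlt
      push Not at hlt
      have h2 := hcont.eventually_lt_const hlt
      obtain ⟨y, hyT, hy1, hy2⟩ := (hfr.and_eventually (hev.and h2)).exists
      have h3 := gs_change (show Et E.z I y from hyT.1) hy1
      have h4 := hy1.one_le_gs
      have h5 := (hbound y hyT).2
      have h6 : (0:ℝ) ≤ ‖E.GJ I' I y‖ ^ 2 := by positivity
      nlinarith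
    have h2 : E.GJ I' I x ≠ 0 := by
      intro h0
      rw [h0] at h1
      norm_num at h1
    have hxI : Et E.z I x := (et_iff hI').2 h2
    refine ⟨hxI, ?_⟩
    by_contra hlt
    push Not at hlt
    have hcont2 : ContinuousAt (fun y => (1 + nsq (E.z y)) * E.gs I y) x :=
      (continuousAt_const.add ((Comp_nsq_cont.comp E.cont).continuousAt)).mul (Comp_gs_cont hxI)
    have h3 := hcont2.eventually_const_lt hlt
    obtain ⟨y, hyT, hy⟩ := (hfr.and_eventually h3).exists
    exact absurd hyT.2 (not_le.2 hy)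
  have hcpt : IsCompact T := by
    rcases lt_or_ge c 0 with hc | hc
    · have : T = ∅ := by
        apply Set.eq_empty_of_subset_empty
        intro x hx
        have h1 := (hbound x hx).1
        have h2 := Comp_nsq_nonneg (E.z x)
        linarith
      rw [this]; exact isCompact_empty
    have h1 : IsCompact (E.z ⁻¹' closedBall 0 (Real.sqrt c)) :=
      hE.isCompact_preimage (isCompact_closedBall _ _)
    apply h1.of_isClosed_subset hclosed
    intro x hx
    rw [mem_preimage, mem_closedBall_zero_iff]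
    exact Comp_norm_le (hbound x hx).1
  have himg : E.inc I '' {y : E.dom I | (1 + nsq (E.z (E.inc I y))) * E.gs I (E.inc I y) ≤ c} = T := by
    ext x
    constructor
    · rintro ⟨y, hy, rfl⟩
      exact ⟨y.2, hy⟩
    · rintro ⟨hx, hs⟩
      exact ⟨E.mk' I x hx, hs, rfl⟩
  have hind : Topology.IsInducing (E.inc I) :=
    (E.isOpen_E I).isOpenEmbedding_subtypeVal.isInducing
  rw [hind.isCompact_iff, himg]
  exact hcpt

end Pool.Agent.Lib.MP_55bc5f_an
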