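import Pool.Agent.Lib.MP_55bc5f_an.Full.SpecEt

/-!
# Components of coverings are coverings
-/

set_option autoImplicit false

open scoped Manifold ContDiff Topology ComplexConjugate
open Set Filter Metric MeasureTheory

namespace Pool.Agent.Lib.MP_55bc5f_an

theorem compCov_mem {Z : Type} [TopologicalSpace Z] {z₀ x y : Z} {S : Set Z} (hS : IsPreconnected S)
    (hx : x ∈ S) (hy : y ∈ S) (h : x ∈ connectedComponent z₀) : y ∈ connectedComponent z₀ := by
  rw [connectedComponent_eq h]
  exact hS.subset_connectedComponent hx hy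

theorem compCov_open {B Z : Type} [TopologicalSpace B] [TopologicalSpace Z]
    [LocallyConnectedSpace B] {p : Z → B} (hp : IsLocalHomeomorph p) (z₀ : Z) :
    IsOpen (connectedComponent z₀) := by
  rw [isOpen_iff_mem_nhds]
  intro y hy
  obtain ⟨e, hye, rfl⟩ := hp y
  obtain ⟨V, ⟨hVo, hyV, hVc⟩, hV⟩ := (LocallyConnectedSpace.open_connected_basis (e y)).mem_iff.1
    (e.open_target.mem_nhds (e.map_source hye))
  have h1 : IsPreconnected (e.symm '' V) :=
    hVc.isPreconnected.image _ (e.continuousOn_symm.mono hV)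
  have h2 : e.symm '' V ∈ 𝓝 y := by
    have h3 : IsOpen (e.symm '' V) := e.symm.isOpen_image_of_subset_source hVo hV
    exact h3.mem_nhds ⟨e y, hyV, e.left_inv hye⟩
  refine Filter.mem_of_superset h2 fun x hx => ?_
  exact compCov_mem h1 ⟨e y, hyV, e.left_inv hye⟩ hx hy

theorem s_CompCov : S_CompCov := by
  intro B Z _ _ hB p hp z₀
  refine ⟨compCov_open hp.isLocalHomeomorph z₀, fun b => ?_⟩
  obtain ⟨hdisc, U, hbU, hUo, hpU, H, hH⟩ := hp b
  obtain ⟨V, ⟨hVo, hbV, hVc⟩, hVU⟩ := (LocallyConnectedSpace.open_connected_basis b).mem_iff.1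
    (hUo.mem_nhds hbU)
  have hVU' : V ⊆ U := hVU
  let sh : V → (p ⁻¹' {b}) → Z := fun v k => (H.symm (⟨v, hVU' v.2⟩, k)).1
  have hsh : ∀ v k, p (sh v k) = v := by
    intro v k
    have := hH (H.symm (⟨v, hVU' v.2⟩, k))
    rw [H.apply_symm_apply] at this
    exact this.symm
  have hshc : ∀ k, Continuous (fun v => sh v k) := by
    intro k
    refine continuous_subtype_val.comp (H.symm.continuous.comp ?_)
    exact (Continuous.subtype_mk continuous_subtype_val _).prodMk continuous_const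
  have _i : PreconnectedSpace V := Subtype.preconnectedSpace hVc.isPreconnected
  have hshp : ∀ k, IsPreconnected (range (fun v => sh v k)) := fun k =>
    isPreconnected_range (hshc k)
  let I' : Type := {k : p ⁻¹' {b} // sh ⟨b, hbV⟩ k ∈ connectedComponent z₀}
  have hmem : ∀ v k, sh v k ∈ connectedComponent z₀ ↔ sh ⟨b, hbV⟩ k ∈ connectedComponent z₀ := by
    intro v k
    constructor
    · intro h
      exact compCov_mem (hshp k) ⟨v, rfl⟩ ⟨⟨b, hbV⟩, rfl⟩ h
    · intro h
      exact compCov_mem (hshp k) ⟨⟨b, hbV⟩, rfl⟩ ⟨v, rfl⟩ h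
  have hy : ∀ y : Z, ∀ h : p y ∈ V, sh ⟨p y, h⟩ (H ⟨y, hVU' h⟩).2 = y := by
    intro y h
    have h1 : ((⟨p y, hVU' h⟩ : U), (H ⟨y, hVU' h⟩).2) = H ⟨y, hVU' h⟩ :=
      Prod.ext (Subtype.ext (hH ⟨y, hVU' h⟩).symm) rfl
    show (H.symm ((⟨p y, hVU' h⟩ : U), (H ⟨y, hVU' h⟩).2)).1 = y
    rw [h1, H.symm_apply_apply]
  have hcov : IsEvenlyCovered (fun y : connectedComponent z₀ => p y.1) b I' := by
    refine ⟨inferInstance, V, hbV, hVo, hVo.preimage (hp.continuous.comp continuous_subtype_val),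
      ⟨⟨fun y => (⟨p y.1.1, y.2⟩, ⟨(H ⟨y.1.1, hVU' y.2⟩).2, ?_⟩),
        fun q => ⟨⟨sh q.1 q.2.1, (hmem _ _).2 q.2.2⟩, ?_⟩, ?_, ?_⟩, ?_, ?_⟩, fun y => rfl⟩
    · rw [← hmem ⟨p y.1.1, y.2⟩, hy]
      exact y.1.2
    · show p (sh q.1 q.2.1) ∈ V
      rw [hsh]
      exact q.1.2
    · intro y
      apply Subtype.ext
      apply Subtype.ext
      exact hy y.1.1 y.2
    · rintro ⟨v, k, hk⟩
      have h1 : H ⟨sh v k, hVU' (by rw [hsh]; exact v.2)⟩ = ((⟨v, hVU' v.2⟩ : U), k) := by
        exact H.apply_symm_apply _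
      refine Prod.ext (Subtype.ext (hsh v k)) (Subtype.ext ?_)
      exact congrArg Prod.snd h1
    · refine Continuous.prodMk ?_ ?_
      · exact Continuous.subtype_mk (hp.continuous.comp
          (continuous_subtype_val.comp continuous_subtype_val)) _
      · refine Continuous.subtype_mk (continuous_snd.comp (H.continuous.comp ?_)) _
        exact Continuous.subtype_mk (continuous_subtype_val.comp continuous_subtype_val) _
    · refine Continuous.subtype_mk (Continuous.subtype_mk (continuous_subtype_val.comp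
        (H.symm.continuous.comp ?_)) _) _
      exact (Continuous.subtype_mk (continuous_subtype_val.comp continuous_fst) _).prodMk
        (continuous_subtype_val.comp continuous_snd)
  exact hcov.to_isEvenlyCovered_preimage

end Pool.Agent.Lib.MP_55bc5f_an
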