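import Pool.Agent.Lib.MP_55bc5f_an.Full.Et.Ident

set_option autoImplicit false

open scoped Manifold ContDiff Topology ComplexConjugate
open Set Filter Metric MeasureTheory

namespace Pool.Agent.Lib.MP_55bc5f_an

lemma Conn_mem {n N : ℕ} {M : LM n N} {I I' : Fin n → Fin N} {x₀ : M.dom I'} (w : Cn n) :
    M.cht I' x₀ w ∈ M.E I ↔ M.GJ I' I (M.cht I' x₀ w) ≠ 0 :=
  et_iff (show Et M.z I' (M.cht I' x₀ w) from (ch (M.dom I').hπ x₀ w).2)

theorem s_Conn : S_Conn := by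
  intro n N M hM I
  -- local description
  have hloc : ∀ (x : M) {P : M → Prop}, (∀ᶠ y in 𝓝 x, P y) → ∃ N' : Set M, IsOpen N' ∧ x ∈ N' ∧
      (∀ y ∈ N', P y) ∧ IsPreconnected (N' ∩ M.E I) ∧
      ((∃ O ⊆ N', IsOpen O ∧ O.Nonempty ∧ Disjoint O (M.E I)) → Disjoint N' (M.E I)) := by
    intro x P hP
    obtain ⟨I', hI'⟩ := M.et x
    let x₀ : M.dom I' := M.mk' I' x hI'
    obtain ⟨ρ, hρ, hsrc, hPb⟩ := Ident_nhd M I' x₀ (P := P) hP
    set B := ball ((M.dom I').π x₀) ρ with hB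
    have hgd : DifferentiableOn ℂ (fun w => M.GJ I' I (M.cht I' x₀ w)) B := by
      intro w hw
      apply DifferentiableAt.differentiableWithinAt
      apply Ident_diff (hsrc hw)
      exact Et.holAt_GJ (show Et M.z I' (M.cht I' x₀ w) from (ch (M.dom I').hπ x₀ w).2) I
    have heq : M.cht I' x₀ '' B ∩ M.E I =
        M.cht I' x₀ '' {w ∈ B | ¬ ∀ _i : Fin 1, M.GJ I' I (M.cht I' x₀ w) = 0} := by
      ext y
      constructor
      · rintro ⟨⟨w, hw, rfl⟩, hy⟩
        exact ⟨w, ⟨hw, fun h => (Conn_mem w).1 hy (h 0)⟩, rfl⟩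
      · rintro ⟨w, ⟨hw, h⟩, rfl⟩
        refine ⟨⟨w, hw, rfl⟩, (Conn_mem w).2 fun h0 => h fun _ => h0⟩
    refine ⟨M.cht I' x₀ '' B, Ident_open M I' x₀ isOpen_ball hsrc,
      ⟨_, mem_ball_self hρ, Ident_self M I' x₀⟩, ?_, ?_, ?_⟩
    · rintro _ ⟨w, hw, rfl⟩
      exact hPb w hw
    · rw [heq]
      have h1 := isPreconnected_diff_zeros isOpen_ball (convex_ball ((M.dom I').π x₀) ρ)
        (k := 1) (h := fun _ w => M.GJ I' I (M.cht I' x₀ w)) (fun _ => hgd)
      apply h1.image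
      intro w hw
      exact (Ident_cont (hsrc hw.1)).continuousWithinAt
    · rintro ⟨O, hON, hOo, ⟨y, hy⟩, hdis⟩
      obtain ⟨w₁, hw₁, rfl⟩ := hON hy
      have ha := Osgood.analyticOnNhd isOpen_ball hgd
      have hev : (fun w => M.GJ I' I (M.cht I' x₀ w)) =ᶠ[𝓝 w₁] 0 := by
        have h2 := (Ident_cont (hsrc hw₁)).eventually (hOo.mem_nhds hy)
        filter_upwards [h2] with w hw
        by_contra h0
        exact Set.disjoint_left.1 hdis hw ((Conn_mem w).2 h0)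
      have h3 := ha.eqOn_zero_of_preconnected_of_eventuallyEq_zero
        (convex_ball ((M.dom I').π x₀) ρ).isPreconnected hw₁ hev
      rw [Set.disjoint_left]
      rintro _ ⟨w, hw, rfl⟩ hy
      exact (Conn_mem w).1 hy (h3 hw)
  have hdense : (∃ x, x ∈ M.E I) → Dense (M.E I) := by
    rintro ⟨x₁, hx₁⟩
    let T : Set M := {x | ∃ O : Set M, IsOpen O ∧ x ∈ O ∧ Disjoint O (M.E I)}
    have hTo : IsOpen T := by
      rw [isOpen_iff_mem_nhds]
      rintro x ⟨O, hO, hxO, hd⟩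
      filter_upwards [hO.mem_nhds hxO] with y hy
      exact ⟨O, hO, hy, hd⟩
    have hTc : IsClosed T := by
      rw [← closure_subset_iff_isClosed]
      intro x hx
      obtain ⟨N', hN'o, hxN', -, -, hN'⟩ := hloc x (P := fun _ => True)
        (Eventually.of_forall fun _ => trivial)
      obtain ⟨y, hyN', O, hO, hyO, hd⟩ := mem_closure_iff_nhds.1 hx _ (hN'o.mem_nhds hxN')
      exact ⟨N', hN'o, hxN', hN' ⟨O ∩ N', inter_subset_right, hO.inter hN'o, ⟨y, hyO, hyN'⟩,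
        hd.mono_left inter_subset_left⟩⟩
    intro x
    by_contra hcon
    have hxT : x ∈ T := by
      refine ⟨(closure (M.E I))ᶜ, isClosed_closure.isOpen_compl, hcon, ?_⟩
      rw [Set.disjoint_left]
      intro y hy hy2
      exact hy (subset_closure hy2)
    have huniv : T = univ := IsClopen.eq_univ ⟨hTc, hTo⟩ ⟨x, hxT⟩
    have hx₁T : x₁ ∈ T := by rw [huniv]; trivial
    obtain ⟨O, hO, hxO, hd⟩ := hx₁T
    exact Set.disjoint_left.1 hd hxO hx₁
  refine ⟨hdense, ?_⟩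
  rcases (M.E I).eq_empty_or_nonempty with he | hne
  · rw [he]; exact isPreconnected_empty
  have hd : Dense (M.E I) := hdense hne
  rw [isPreconnected_iff_subset_of_disjoint]
  intro A B hA hB hcov hdis
  -- points near which `M.E I` is contained in `A` (`B`)
  let TA : Set M := {x | ∃ O : Set M, IsOpen O ∧ x ∈ O ∧ O ∩ M.E I ⊆ A}
  let TB : Set M := {x | ∃ O : Set M, IsOpen O ∧ x ∈ O ∧ O ∩ M.E I ⊆ B}
  have hTAo : IsOpen TA := by
    rw [isOpen_iff_mem_nhds]
    rintro x ⟨O, hO, hxO, hd⟩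
    filter_upwards [hO.mem_nhds hxO] with y hy
    exact ⟨O, hO, hy, hd⟩
  have hTBo : IsOpen TB := by
    rw [isOpen_iff_mem_nhds]
    rintro x ⟨O, hO, hxO, hd⟩
    filter_upwards [hO.mem_nhds hxO] with y hy
    exact ⟨O, hO, hy, hd⟩
  have hTc : ∀ x, x ∈ TA ∪ TB := by
    intro x
    obtain ⟨N', hN'o, hxN', -, hpre, -⟩ := hloc x (P := fun _ => True)
      (Eventually.of_forall fun _ => trivial)
    rw [isPreconnected_iff_subset_of_disjoint] at hpre
    rcases hpre A B hA hB (inter_subset_right.trans hcov) (by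
      apply Set.eq_empty_of_subset_empty
      rw [← hdis]
      exact inter_subset_inter_left _ inter_subset_right) with h | h
    · exact Or.inl ⟨N', hN'o, hxN', h⟩
    · exact Or.inr ⟨N', hN'o, hxN', h⟩
  have hTd : TA ∩ TB = ∅ := by
    apply Set.eq_empty_of_subset_empty
    rintro x ⟨⟨O, hO, hxO, h1⟩, ⟨O', hO', hxO', h2⟩⟩
    obtain ⟨y, hy, hyE⟩ := hd.inter_open_nonempty (O ∩ O') (hO.inter hO') ⟨x, hxO, hxO'⟩
    have : y ∈ M.E I ∩ (A ∩ B) := ⟨hyE, h1 ⟨hy.1, hyE⟩, h2 ⟨hy.2, hyE⟩⟩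
    rw [hdis] at this
    exact this
  have hpc : IsPreconnected (univ : Set M) := isPreconnected_univ
  rw [isPreconnected_iff_subset_of_disjoint] at hpc
  rcases hpc TA TB hTAo hTBo (fun x _ => hTc x) (by rw [hTd, inter_empty]) with h | h
  · left
    intro x hx
    obtain ⟨O, -, hxO, h1⟩ := h (mem_univ x)
    exact h1 ⟨hxO, hx⟩
  · right
    intro x hx
    obtain ⟨O, -, hxO, h1⟩ := h (mem_univ x)
    exact h1 ⟨hxO, hx⟩

end Pool.Agent.Lib.MP_55bc5f_an
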