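import Pool.Agent.Lib.MP_55bc5f_an.Full.SpecEt

/-!
# Cut-off functions on coverings
-/

set_option autoImplicit false

open scoped Manifold ContDiff Topology ComplexConjugate
open Set Filter Metric MeasureTheory

namespace Pool.Agent.Lib.MP_55bc5f_an

/-- Smoothness of the composition with a local isomorphism. -/
lemma cutCov_smAt {n : ℕ} {X Y : Dom n} {p : Y → X} (hpc : Continuous p)
    (hp : ∀ y, Y.π y = X.π (p y)) {W : Type} [NormedAddCommGroup W] [NormedSpace ℝ W]
    {θ : X → W} {y : Y} (h : SmAt X θ (p y)) : SmAt Y (fun y => θ (p y)) y := by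
  obtain ⟨g, h1, h2⟩ := h
  refine ⟨g, by rw [hp]; exact h1, ?_⟩
  filter_upwards [hpc.continuousAt.eventually h2] with z hz
  simp only [Function.comp_apply] at hz ⊢
  rw [hz, hp]

lemma cutCov_dR {n : ℕ} {X Y : Dom n} {p : Y → X} (hpc : Continuous p)
    (hp : ∀ y, Y.π y = X.π (p y)) {W : Type} [NormedAddCommGroup W] [NormedSpace ℝ W]
    {θ : X → W} {y : Y} (h : SmAt X θ (p y)) : dR Y (fun y => θ (p y)) y = dR X θ (p y) := by
  obtain ⟨g, h1, h2⟩ := h
  have h3 : (fun y => θ (p y)) =ᶠ[𝓝 y] g ∘ Y.π := by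
    filter_upwards [hpc.continuousAt.eventually h2] with z hz
    simp only [Function.comp_apply] at hz ⊢
    rw [hz, hp]
  rw [dR_eq h3, dR_eq h2, hp]

/-- The data of an evenly covered neighbourhood: a locally constant label. -/
lemma cutCov_lab {X Y : Type} [TopologicalSpace X] [TopologicalSpace Y] [T2Space Y]
    [SecondCountableTopology Y] {p : Y → X} (hp : IsCoveringMap p) (x : X) :
    ∃ (U : Set X) (lab : Y → ℕ), IsOpen U ∧ x ∈ U ∧
      (∀ y, p y ∈ U → ∀ᶠ y' in 𝓝 y, lab y' = lab y) ∧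
      ∀ (T : Set X), T ⊆ U → IsCompact T → ∀ ν : ℕ, ∃ K : Set Y, IsCompact K ∧
        ∀ y, p y ∈ T → lab y < ν → y ∈ K := by
  classical
  obtain ⟨hd, U, hxU, hU, hpU, H, hH⟩ := hp x
  have : Countable (p ⁻¹' {x}) := TopologicalSpace.separableSpace_iff_countable.1 inferInstance
  obtain ⟨ι, hι⟩ := this.exists_injective_nat
  let lab : Y → ℕ := fun y => if h : p y ∈ U then ι (H ⟨y, h⟩).2 else 0
  have hlab : ∀ (y : Y) (h : p y ∈ U), lab y = ι (H ⟨y, h⟩).2 := fun y h => by simp [lab, h]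
  refine ⟨U, lab, hU, hxU, ?_, ?_⟩
  · intro y hy
    have hc : Continuous fun z : p ⁻¹' U => (H z).2 := (continuous_snd).comp H.continuous
    have h1 : ∀ᶠ z in 𝓝 (⟨y, hy⟩ : p ⁻¹' U), (H z).2 = (H ⟨y, hy⟩).2 :=
      hc.continuousAt.eventually ((isOpen_discrete {(H ⟨y, hy⟩).2}).mem_nhds rfl)
    have h2 : ∀ᶠ z in 𝓝 y, ∀ h : p z ∈ U, (H ⟨z, h⟩).2 = (H ⟨y, hy⟩).2 := by
      rw [nhds_subtype_eq_comap, eventually_comap] at h1
      filter_upwards [h1] with z hz h
      exact hz ⟨z, h⟩ rfl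
    filter_upwards [h2, hpU.mem_nhds hy] with z hz hzU
    rw [hlab z hzU, hlab y hy, hz hzU]
  · intro T hTU hT ν
    have hfin : {k : p ⁻¹' {x} | ι k < ν}.Finite := by
      have : {k : p ⁻¹' {x} | ι k < ν} = ι ⁻¹' (Set.Iio ν) := rfl
      rw [this]
      exact (Set.finite_Iio ν).preimage hι.injOn
    let s : (p ⁻¹' {x}) → U → Y := fun k u => (H.symm (u, k)).1
    have hs : ∀ k, Continuous (s k) := fun k =>
      continuous_subtype_val.comp (H.symm.continuous.comp (by fun_prop))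
    have hT' : IsCompact ((Subtype.val : U → X) ⁻¹' T) := by
      rw [Topology.IsInducing.subtypeVal.isCompact_iff]
      rw [Subtype.image_preimage_coe, Set.inter_eq_right.2 hTU]
      exact hT
    refine ⟨⋃ k ∈ {k : p ⁻¹' {x} | ι k < ν}, s k '' ((Subtype.val : U → X) ⁻¹' T),
      hfin.isCompact_biUnion fun k _ => hT'.image (hs k), ?_⟩
    intro y hy hν
    have hyU : p y ∈ U := hTU hy
    rw [hlab y hyU] at hν
    refine mem_biUnion (x := (H ⟨y, hyU⟩).2) hν ⟨⟨p y, hyU⟩, hy, ?_⟩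
    have h1 : ((⟨p y, hyU⟩ : U), (H ⟨y, hyU⟩).2) = H ⟨y, hyU⟩ := by
      apply Prod.ext
      · apply Subtype.ext
        exact (hH ⟨y, hyU⟩).symm
      · rfl
    change (H.symm ((⟨p y, hyU⟩ : U), (H ⟨y, hyU⟩).2)).1 = y
    rw [h1, H.symm_apply_apply]

theorem s_CutCov (hPU : S_PU) : S_CutCov := by
  classical
  intro n X Y p hcov hp K hK
  have hpc : Continuous p := hcov.continuous
  choose U lab hUo hxU hlab hcpt using fun x : X => cutCov_lab hcov x
  obtain ⟨m, c, θ, hθ, hsum, U₀, hU₀o, hKU₀, hU₀⟩ :=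
    hPU n X K hK U (fun x => (hUo x).mem_nhds (hxU x))
  let τ : ℕ → Fin m → Y → ℝ := fun ν i y => if lab (c i) y < ν then θ i (p y) else 0
  have hτ0 : ∀ ν i y, 0 ≤ τ ν i y ∧ τ ν i y ≤ θ i (p y) := by
    intro ν i y
    by_cases h : lab (c i) y < ν
    · simp only [τ, h, if_true]
      exact ⟨((hθ i).2.2 _).1, le_refl _⟩
    · simp only [τ, h, if_false]
      exact ⟨le_refl _, ((hθ i).2.2 _).1⟩
  have hoff : ∀ i y, p y ∉ U (c i) → ∀ᶠ z in 𝓝 y, θ i (p z) = 0 := by
    intro i y hy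
    have h1 : p y ∉ tsupport (θ i) := fun h => hy ((hθ i).2.1 h).2
    filter_upwards [hpc.continuousAt.eventually ((isClosed_tsupport (θ i)).isOpen_compl.mem_nhds h1)]
      with z hz
    exact image_eq_zero_of_notMem_tsupport hz
  -- locally each `τ` is `θ ∘ p` or zero
  have hloc : ∀ ν i y, τ ν i =ᶠ[𝓝 y] (fun y => θ i (p y)) ∨ τ ν i =ᶠ[𝓝 y] fun _ => 0 := by
    intro ν i y
    by_cases hy : p y ∈ U (c i)
    · by_cases h : lab (c i) y < ν
      · left
        filter_upwards [hlab (c i) y hy] with z hz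
        simp only [τ, hz, h, if_true]
      · right
        filter_upwards [hlab (c i) y hy] with z hz
        simp only [τ, hz, h, if_false]
    · right
      filter_upwards [hoff i y hy] with z hz
      simp only [τ, hz, ite_self]
  have hτs : ∀ ν i, Sm Y (τ ν i) := by
    intro ν i y
    rcases hloc ν i y with h | h
    · exact (cutCov_smAt hpc hp ((hθ i).1.1 (p y))).congr h.symm
    · exact (SmAt.const (0 : ℝ) y).congr h.symm
  have hτd : ∀ ν i y, ‖dR Y (τ ν i) y‖ ≤ ‖dR X (θ i) (p y)‖ := by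
    intro ν i y
    rcases hloc ν i y with h | h
    · rw [dR_congr h, cutCov_dR hpc hp ((hθ i).1.1 (p y))]
    · rw [dR_congr h, dR_const, norm_zero]
      exact norm_nonneg _
  have hbd : ∀ i, ∃ C : ℝ, ∀ x, ‖dR X (θ i) x‖ ≤ C := by
    intro i
    have h1 : Continuous (dR X (θ i)) := (hθ i).1.1.dR.continuous
    have h2 : HasCompactSupport (dR X (θ i)) :=
      HasCompactSupport.intro (hθ i).1.2 fun x hx => dR_of_notMem_tsupport hx
    exact h1.bounded_above_of_compact_support h2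
  choose C hC using hbd
  have hcs : ∀ ν i, HasCompactSupport (τ ν i) := by
    intro ν i
    obtain ⟨L, hL, hL2⟩ := hcpt (c i) (tsupport (θ i)) (fun x hx => ((hθ i).2.1 hx).2)
      (hθ i).1.2 ν
    refine HasCompactSupport.intro hL fun y hy => ?_
    by_contra h0
    apply hy
    have h1 : lab (c i) y < ν := by
      by_contra h
      exact h0 (by simp [τ, h])
    have h2 : θ i (p y) ≠ 0 := by
      intro h
      exact h0 (by simp [τ, h])
    exact hL2 y (subset_tsupport _ h2) h1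
  refine ⟨∑ i, C i, fun ν y => ∑ i, τ ν i y, ?_, ?_, ?_⟩
  · intro ν
    refine ⟨⟨Sm.sum fun i _ => hτs ν i, ?_⟩, fun y => ⟨?_, ?_⟩⟩
    · have hcpt2 : IsCompact (⋃ i, tsupport (τ ν i)) :=
        isCompact_iUnion fun i => hcs ν i
      refine HasCompactSupport.intro hcpt2 fun y hy => ?_
      apply Finset.sum_eq_zero
      intro i _
      by_contra h0
      exact hy (mem_iUnion.2 ⟨i, subset_tsupport _ h0⟩)
    · exact Finset.sum_nonneg fun i _ => (hτ0 ν i y).1
    · exact (Finset.sum_le_sum fun i _ => (hτ0 ν i y).2).trans (hsum _)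
  · intro ν y
    change ‖dR Y (fun y => ∑ i, τ ν i y) y‖ ≤ _
    rw [dR_sum fun i _ => hτs ν i y]
    refine (norm_sum_le _ _).trans (Finset.sum_le_sum fun i _ => ?_)
    exact (hτd ν i y).trans (hC i _)
  · intro x hx
    have h1 : ∀ i, ∀ᶠ ν in atTop, ∀ᶠ y in 𝓝 x, τ ν i y = θ i (p y) := by
      intro i
      filter_upwards [eventually_gt_atTop (lab (c i) x)] with ν hν
      by_cases hxi : p x ∈ U (c i)
      · filter_upwards [hlab (c i) x hxi] with z hz
        simp only [τ, hz, hν, if_true]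
      · filter_upwards [hoff i x hxi] with z hz
        simp only [τ, hz, ite_self]
    filter_upwards [eventually_all.2 h1] with ν hν
    filter_upwards [eventually_all.2 hν,
      hpc.continuousAt.eventually (hU₀o.mem_nhds (hKU₀ hx))] with y hy hyU
    rw [Finset.sum_congr rfl fun i _ => hy i]
    exact hU₀ _ hyU

end Pool.Agent.Lib.MP_55bc5f_an
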