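import Pool.Agent.Lib.MP_55bc5f_an.Full.SpecEt

set_option autoImplicit false

open scoped Manifold ContDiff Topology ComplexConjugate
open Set Filter Metric MeasureTheory

namespace Pool.Agent.Lib.MP_55bc5f_an

lemma Exh_dR {n : ℕ} {X Y : Dom n} {p : Y → X} (hp : Continuous p)
    (hπ : ∀ y, Y.π y = X.π (p y)) {W : Type} [NormedAddCommGroup W] [NormedSpace ℝ W] {u : X → W}
    {y : Y} (hu : SmAt X u (p y)) : dR Y (fun y => u (p y)) y = dR X u (p y) := by
  obtain ⟨g, -, hg2⟩ := hu
  rw [dR_eq hg2, ← hπ]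
  apply dR_eq
  filter_upwards [hp.continuousAt.eventually hg2] with y' hy'
  simp only [Function.comp_apply] at hy' ⊢
  rw [hy', hπ]

theorem s_Exh (hLevZ : S_LevZ) (hComp : S_Comp) (hCutCov : S_CutCov) : S_Exh := by
  intro n N E M hE p hp hz I
  have hloc : IsLocalHomeomorph p := hp.isLocalHomeomorph
  have hMI : M.E I = p ⁻¹' (E.E I) := by
    ext x
    exact et_transport hloc hz I x
  -- the covering `M.dom I → E.dom I`
  let e : {x : M // x ∈ M.E I} ≃ₜ (p ⁻¹' (E.E I) : Set M) := Homeomorph.setCongr hMI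
  let q : M.dom I → E.dom I := fun y => (E.E I).restrictPreimage p (e y)
  have hq : IsCoveringMap q := (hp.restrictPreimage (E.E I)).comp_homeomorph e
  have hqi : ∀ y, E.inc I (q y) = p (M.inc I y) := fun y => rfl
  have hqπ : ∀ y, (M.dom I).π y = (E.dom I).π (q y) := by
    intro y
    funext a
    change M.z (M.inc I y) (I a) = E.z (p (M.inc I y)) (I a)
    rw [hz]
  let s : E.dom I → ℝ := fun y => (1 + nsq (E.z (E.inc I y))) * E.gs I (E.inc I y)
  have hs : (fun y => (1 + nsq (M.z (M.inc I y))) * M.gs I (M.inc I y)) = fun y => s (q y) := by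
    funext y
    have hy : Et M.z I (M.inc I y) := y.2
    simp only [s, hqi]
    rw [hz, gs_transport hloc hz hy]
  obtain ⟨-, -, -, -, hsm, hlev⟩ := hLevZ n N M I
  obtain ⟨-, -, -, -, hsmE, -⟩ := hLevZ n N E I
  refine ⟨hsm, ?_, ?_, ?_, ?_⟩
  · intro y
    have hy : Et M.z I (M.inc I y) := y.2
    have h1 := hy.one_le_gs
    have h2 : 0 ≤ nsq (M.z (M.inc I y)) := by unfold nsq; positivity
    positivity
  · intro a
    refine ⟨1, one_pos, fun y _ w => ?_⟩
    rw [one_mul]
    exact hlev y w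
  · intro a
    have hcomp := hComp n N E hE I a
    have hcont : ContinuousOn (fun y => ‖dR (E.dom I) s y‖) {y | s y ≤ a} := by
      apply Continuous.continuousOn
      exact (hsmE.dR.continuous).norm
    obtain ⟨B, hB⟩ := hcomp.bddAbove_image hcont
    refine ⟨B, fun y hy => ?_⟩
    have hy : s (q y) ≤ a := by
      have h5 := congrFun hs y
      rw [← h5]; exact hy
    rw [hs]
    rw [Exh_dR hq.continuous hqπ (hsmE (q y))]
    exact hB ⟨q y, hy, rfl⟩
  · intro c
    obtain ⟨C, κ, h1, h2, h3⟩ := hCutCov n (E.dom I) (M.dom I) q hq hqπ _ (hComp n N E hE I c)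
    refine ⟨C, κ, h1, fun ν x _ => h2 ν x, fun x hx => h3 x ?_⟩
    have h5 := congrFun hs x
    have h6 : s (q x) < c := by rw [← h5]; exact hx
    exact h6.le

end Pool.Agent.Lib.MP_55bc5f_an
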