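import Pool.Agent.Lib.MP_55bc5f_an.Full.SpecEt

/-!
# The `L²` extension theorem on `M`
-/

set_option autoImplicit false

open scoped Manifold ContDiff Topology ComplexConjugate
open Set Filter Metric MeasureTheory

namespace Pool.Agent.Lib.MP_55bc5f_an

/-- The image of a ball in a chart is a neighbourhood of the centre. -/
private lemma Ext_cht_mem_nhds {n N : ℕ} (M : LM n N) (I' : Fin n → Fin N) (x₀ : M.dom I') (ρ : ℝ)
    (hρ : 0 < ρ) (hsub : ball ((M.dom I').π x₀) ρ ⊆ (ch (M.dom I').hπ x₀).source) :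
    M.cht I' x₀ '' ball ((M.dom I').π x₀) ρ ∈ 𝓝 (M.inc I' x₀) := by
  have h1 : IsOpen (ch (M.dom I').hπ x₀ '' ball ((M.dom I').π x₀) ρ) :=
    (ch (M.dom I').hπ x₀).isOpen_image_of_subset_source isOpen_ball hsub
  have h2 : IsOpen (M.inc I' '' (ch (M.dom I').hπ x₀ '' ball ((M.dom I').π x₀) ρ)) :=
    (M.isOpen_E I').isOpenEmbedding_subtypeVal.isOpenMap _ h1
  have h3 : M.cht I' x₀ '' ball ((M.dom I').π x₀) ρ =
      M.inc I' '' (ch (M.dom I').hπ x₀ '' ball ((M.dom I').π x₀) ρ) := by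
    rw [image_image]; rfl
  rw [h3]
  exact h2.mem_nhds ⟨x₀, ⟨(M.dom I').π x₀, mem_ball_self hρ, ch_self _ _⟩, rfl⟩

private lemma Ext_diff {n N : ℕ} (M : LM n N) (I' : Fin n → Fin N) (x₀ : M.dom I') {F : M → ℂ}
    {w : Cn n} (hw : w ∈ (ch (M.dom I').hπ x₀).source) (hF : HolAt M.z F (M.cht I' x₀ w)) :
    DifferentiableAt ℂ (fun w => F (M.cht I' x₀ w)) w := by
  have h1 : HolAt (M.dom I').π (fun y => F (M.inc I' y)) (ch (M.dom I').hπ x₀ w) := holAt_dom.2 hF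
  exact (HolAt.ch (M.dom I').hπ hw h1).self_of_nhds

private lemma Ext_local (hJac : S_Jac) (hExtCn : S_ExtCn) {n N : ℕ} (M : LM n N)
    (I : Fin n → Fin N) (hd : Dense (M.E I)) (μ : Measure (M.dom I)) (hμ : Pull (M.dom I) μ)
    (h : M → ℂ) (m : ℕ) (hh : ∀ x ∈ M.E I, HolAt M.z h x)
    (hint : ∀ K : Set M, IsCompact K → IntegrableOn
      (fun y => ‖h (M.inc I y)‖ ^ 2 * M.gs I (M.inc I y) ^ m) {y : M.dom I | M.inc I y ∈ K} μ)
    (I' : Fin n → Fin N) (x : M) (hx : x ∈ M.E I') :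
    ∃ Hx : M → ℂ, HolAt M.z Hx x ∧
      ∀ᶠ y in 𝓝 x, y ∈ M.E I → Hx y = h y * M.GJ I' I y / M.GJ I' I y ^ m := by
  set x₀ : M.dom I' := M.mk' I' x hx with hx₀
  set c : Cn n := (M.dom I').π x₀ with hc
  have hcx : M.inc I' x₀ = x := rfl
  have hsrc : (ch (M.dom I').hπ x₀).source ∈ 𝓝 c :=
    (ch (M.dom I').hπ x₀).open_source.mem_nhds (ch_mem _ _)
  obtain ⟨ρ, hρ, hcb⟩ := Metric.nhds_basis_closedBall.mem_iff.1 hsrc
  have hbs : ball c ρ ⊆ (ch (M.dom I').hπ x₀).source := ball_subset_closedBall.trans hcb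
  have hE' : ∀ w, M.cht I' x₀ w ∈ M.E I' := fun w => (ch (M.dom I').hπ x₀ w).2
  -- the function `g`
  have hgd : ∀ w ∈ ball c ρ, DifferentiableAt ℂ (fun w => M.GJ I' I (M.cht I' x₀ w)) w :=
    fun w hw => Ext_diff M I' x₀ (hbs hw) (Et.holAt_GJ (hE' w) I)
  have hgD : DifferentiableOn ℂ (fun w => M.GJ I' I (M.cht I' x₀ w)) (ball c ρ) :=
    fun w hw => (hgd w hw).differentiableWithinAt
  have hex : ∃ w ∈ ball c ρ, M.GJ I' I (M.cht I' x₀ w) ≠ 0 := by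
    obtain ⟨y, hy1, hy2⟩ := hd.inter_nhds_nonempty (Ext_cht_mem_nhds M I' x₀ ρ hρ hbs)
    obtain ⟨w, hw, rfl⟩ := hy2
    exact ⟨w, hw, GJ_ne hy1 (hE' w)⟩
  set T : Set (Cn n) := {w ∈ ball c ρ | M.GJ I' I (M.cht I' x₀ w) ≠ 0} with hT
  have hTo : IsOpen T := by
    have := hgD.continuousOn.isOpen_inter_preimage isOpen_ball (isOpen_compl_singleton (x := (0 : ℂ)))
    exact this
  have hTE : ∀ w ∈ T, M.cht I' x₀ w ∈ M.E I := fun w hw => (et_iff (hE' w)).2 hw.2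
  have hud : ∀ w ∈ T, DifferentiableAt ℂ (fun w => h (M.cht I' x₀ w) *
      M.GJ I' I (M.cht I' x₀ w) / M.GJ I' I (M.cht I' x₀ w) ^ m) w := by
    intro w hw
    have h1 := Ext_diff M I' x₀ (hbs hw.1) (hh _ (hTE w hw))
    have h2 := hgd w hw.1
    have h3 : DifferentiableAt ℂ (fun w => M.GJ I' I (M.cht I' x₀ w) ^ m) w := h2.pow m
    have h4 : DifferentiableAt ℂ (fun w => h (M.cht I' x₀ w) * M.GJ I' I (M.cht I' x₀ w)) w :=
      h1.mul h2
    have h5 : M.GJ I' I (M.cht I' x₀ w) ^ m ≠ 0 := pow_ne_zero _ hw.2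
    simp only [div_eq_mul_inv]
    exact h4.mul (h3.inv h5)
  have huD : DifferentiableOn ℂ (fun w => h (M.cht I' x₀ w) *
      M.GJ I' I (M.cht I' x₀ w) / M.GJ I' I (M.cht I' x₀ w) ^ m) T :=
    fun w hw => (hud w hw).differentiableWithinAt
  -- the compact set
  have hK : IsCompact (M.cht I' x₀ '' closedBall c ρ) := by
    apply (isCompact_closedBall c ρ).image_of_continuousOn
    have h1 : ContinuousOn (ch (M.dom I').hπ x₀) (closedBall c ρ) :=
      (ch (M.dom I').hπ x₀).continuousOn.mono hcb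
    exact continuous_subtype_val.comp_continuousOn h1
  have hint' := hint _ hK
  -- the function `f`
  set f : M → ℝ := fun y => ‖h y‖ ^ 2 * M.gs I y ^ m with hf
  have hgs0 : ∀ y, 0 ≤ M.gs I y := fun y => Finset.sum_nonneg fun K _ => by positivity
  have hf0 : ∀ y, 0 ≤ f y := fun y => mul_nonneg (by positivity) (pow_nonneg (hgs0 y) m)
  have hfc : ContinuousOn f (M.E I) := by
    intro y hy
    apply ContinuousAt.continuousWithinAt
    have h1 : ContinuousAt h y := (hh y hy).continuousAt M.cont.continuousAt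
    have h2 : ContinuousAt (M.gs I) y := by
      have h3 : ∀ K : Fin n → Fin N, ContinuousAt (M.GJ I K) y := fun K =>
        (Et.holAt_GJ hy K).continuousAt M.cont.continuousAt
      have h4 : M.gs I = fun y => ∑ K, ‖M.GJ I K y‖ ^ 2 := rfl
      rw [h4]
      exact tendsto_finsetSum _ fun K _ => ((h3 K).norm.pow 2)
    exact (h1.norm.pow 2).mul (h2.pow m)
  have hJ := hJac n N M I I' μ hμ x₀ (ball c ρ) isOpen_ball hbs f hfc hf0
  have hfin : ∫⁻ w in T, ENNReal.ofReal (f (M.cht I' x₀ w) * ‖M.GJ I' I (M.cht I' x₀ w)‖ ^ 2) < ⊤ := by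
    rw [← hJ]
    have h1 : ∫⁻ y in {y : M.dom I | M.inc I y ∈ M.cht I' x₀ '' ball c ρ},
        ENNReal.ofReal (f (M.inc I y)) ∂μ ≤
        ∫⁻ y in {y : M.dom I | M.inc I y ∈ M.cht I' x₀ '' closedBall c ρ},
        ENNReal.ofReal (f (M.inc I y)) ∂μ := by
      apply lintegral_mono_set
      intro y hy
      exact image_mono ball_subset_closedBall hy
    refine lt_of_le_of_lt h1 ?_
    have h2 := hint'.2
    rw [hasFiniteIntegral_iff_ofReal (Eventually.of_forall fun y => hf0 _)] at h2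
    exact h2
  have hbd : ∀ w ∈ T, ‖h (M.cht I' x₀ w) *
      M.GJ I' I (M.cht I' x₀ w) / M.GJ I' I (M.cht I' x₀ w) ^ m‖ ^ 2 ≤
      f (M.cht I' x₀ w) * ‖M.GJ I' I (M.cht I' x₀ w)‖ ^ 2 := by
    intro w hw
    have h1 := gs_change (hTE w hw) (hE' w)
    have h2 := Et.one_le_gs (M := M) (hE' w)
    have h3 : 0 < ‖M.GJ I' I (M.cht I' x₀ w)‖ := norm_pos_iff.2 hw.2
    set G : ℝ := ‖M.GJ I' I (M.cht I' x₀ w)‖ with hG
    rw [norm_div, norm_mul, norm_pow, ← hG]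
    have h4 : 1 ≤ (M.gs I (M.cht I' x₀ w)) ^ m * (G ^ m) ^ 2 := by
      have h5 : (M.gs I (M.cht I' x₀ w)) ^ m * (G ^ m) ^ 2 =
          (M.gs I (M.cht I' x₀ w) * G ^ 2) ^ m := by
        rw [mul_pow, ← pow_mul, ← pow_mul, mul_comm m 2]
      rw [h5, h1]
      exact one_le_pow₀ h2
    rw [div_pow, div_le_iff₀ (by positivity)]
    have h6 : f (M.cht I' x₀ w) = ‖h (M.cht I' x₀ w)‖ ^ 2 * M.gs I (M.cht I' x₀ w) ^ m := rfl
    rw [h6]
    have h7 : 0 ≤ (‖h (M.cht I' x₀ w)‖ * G) ^ 2 := by positivity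
    calc (‖h (M.cht I' x₀ w)‖ * G) ^ 2 = (‖h (M.cht I' x₀ w)‖ * G) ^ 2 * 1 := by ring
      _ ≤ (‖h (M.cht I' x₀ w)‖ * G) ^ 2 * ((M.gs I (M.cht I' x₀ w)) ^ m * (G ^ m) ^ 2) :=
          mul_le_mul_of_nonneg_left h4 h7
      _ = _ := by ring
  have hI : IntegrableOn (fun w => ‖h (M.cht I' x₀ w) *
      M.GJ I' I (M.cht I' x₀ w) / M.GJ I' I (M.cht I' x₀ w) ^ m‖ ^ 2) T := by
    refine ⟨?_, ?_⟩
    · exact (huD.continuousOn.norm.pow 2).aestronglyMeasurable hTo.measurableSet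
    · rw [hasFiniteIntegral_iff_ofReal (Eventually.of_forall fun y => by positivity)]
      refine lt_of_le_of_lt (setLIntegral_mono' hTo.measurableSet fun w hw => ?_) hfin
      exact ENNReal.ofReal_le_ofReal (hbd w hw)
  obtain ⟨ρ', hρ', hρρ, H, hHd, hHe⟩ := hExtCn n c ρ hρ (fun w => M.GJ I' I (M.cht I' x₀ w))
    (fun w => h (M.cht I' x₀ w) *
      M.GJ I' I (M.cht I' x₀ w) / M.GJ I' I (M.cht I' x₀ w) ^ m) hgD hex huD hI
  refine ⟨fun y => H (M.zI I' y), ?_, ?_⟩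
  · apply HolAt.ofI (I := I')
    refine ⟨H, ?_, EventuallyEq.refl _ _⟩
    have h1 : zc M.z I' x = c := rfl
    rw [h1]
    filter_upwards [ball_mem_nhds c hρ'] with w hw
    exact (hHd w hw).differentiableAt (isOpen_ball.mem_nhds hw)
  · have h1 := Ext_cht_mem_nhds M I' x₀ ρ' hρ' ((ball_subset_ball hρρ).trans hbs)
    rw [hcx] at h1
    filter_upwards [h1] with y hy hyE
    obtain ⟨w, hw, rfl⟩ := hy
    have h2 : M.zI I' (M.cht I' x₀ w) = w := p_ch (M.dom I').hπ (hbs (ball_subset_ball hρρ hw))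
    simp only [h2]
    exact hHe w hw (GJ_ne hyE (hE' w))

/-- **Ext.** The `L²` extension theorem on `M`. -/
theorem s_Ext (_hPullFacts : S_PullFacts) (hJac : S_Jac) (hExtCn : S_ExtCn) : S_Ext := by
  intro n N M I hd μ hμ h m hh hint I'
  have hloc := Ext_local hJac hExtCn M I hd μ hμ h m hh hint I'
  set u : M → ℂ := fun y => h y * M.GJ I' I y / M.GJ I' I y ^ m with hu
  set D : Set M := M.E I ∩ M.E I' with hD
  have key : ∀ x ∈ M.E I', ∃ Hx : M → ℂ, HolAt M.z Hx x ∧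
      (∀ᶠ y in 𝓝 x, y ∈ M.E I → Hx y = u y) ∧ extendFrom D u =ᶠ[𝓝 x] Hx := by
    intro x hx
    obtain ⟨Hx, h1, h2⟩ := hloc x hx
    refine ⟨Hx, h1, h2, ?_⟩
    have h3 := h1.eventually M.cont
    filter_upwards [h3, h2.eventually_nhds, (M.isOpen_E I').mem_nhds hx] with y h4 h5 h6
    have h7 : y ∈ closure D := by
      rw [mem_closure_iff_nhds]
      intro t ht
      have h8 : t ∩ M.E I' ∈ 𝓝 y := inter_mem ht ((M.isOpen_E I').mem_nhds h6)
      obtain ⟨z, hz1, hz2⟩ := hd.inter_nhds_nonempty h8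
      exact ⟨z, hz2.1, hz1, hz2.2⟩
    apply extendFrom_eq h7
    have h9 : ContinuousAt Hx y := h4.continuousAt M.cont.continuousAt
    have h10 : Tendsto Hx (𝓝[D] y) (𝓝 (Hx y)) := h9.tendsto.mono_left nhdsWithin_le_nhds
    apply h10.congr'
    have h11 : ∀ᶠ z in 𝓝[D] y, z ∈ M.E I → Hx z = u z := nhdsWithin_le_nhds h5
    filter_upwards [h11, self_mem_nhdsWithin] with z hz1 hz2
    exact hz1 hz2.1
  refine ⟨extendFrom D u, ?_, ?_⟩
  · intro x hx
    obtain ⟨Hx, h1, h2, h3⟩ := key x hx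
    exact h1.congr h3.symm
  · intro x hx
    obtain ⟨Hx, h1, h2, h3⟩ := key x hx.2
    have h4 : extendFrom D u x = u x := by
      rw [h3.self_of_nhds, h2.self_of_nhds hx.1]
    rw [h4]
    have h5 : M.GJ I' I x ≠ 0 := GJ_ne hx.1 hx.2
    simp only [hu]
    exact div_mul_cancel₀ _ (pow_ne_zero _ h5)

end Pool.Agent.Lib.MP_55bc5f_an
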