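import Pool.Agent.Lib.MP_55bc5f_an.Full.SpecEt

/-!
# Square integrable holomorphic functions extend across hypersurfaces
-/

set_option autoImplicit false

open scoped Manifold ContDiff Topology ComplexConjugate
open Set Filter Metric MeasureTheory

namespace Pool.Agent.Lib.MP_55bc5f_an

/-- Almost every slice of a square integrable function is square integrable. -/
private theorem extCn_slice {n : ℕ} {c v : Cn n} {ρ ρ' R : ℝ} {g h : Cn n → ℂ}
    (hUo : IsOpen {w ∈ ball c ρ | g w ≠ 0})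
    (hh : ContinuousOn h {w ∈ ball c ρ | g w ≠ 0})
    (hint : IntegrableOn (fun w => ‖h w‖ ^ 2) {w ∈ ball c ρ | g w ≠ 0})
    (hsub : ∀ z ∈ ball c ρ', ∀ t : ℂ, ‖t‖ ≤ R → z + t • v ∈ ball c ρ) :
    ∀ᵐ z ∂(volume : Measure (Cn n)), z ∈ ball c ρ' →
      IntegrableOn (fun t : ℂ => ‖h (z + t • v)‖ ^ 2) {t ∈ ball (0 : ℂ) R | g (z + t • v) ≠ 0} := by
  set U : Set (Cn n) := {w ∈ ball c ρ | g w ≠ 0} with hU
  set Φ : Cn n → ENNReal := U.indicator fun w => ENNReal.ofReal (‖h w‖ ^ 2) with hΦ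
  have hnc : ContinuousOn (fun w => ‖h w‖ ^ 2) U := hh.norm.pow 2
  have hΦm : Measurable Φ := by
    classical
    have h1 : ContinuousOn (fun w => ENNReal.ofReal (‖h w‖ ^ 2)) U :=
      ENNReal.continuous_ofReal.comp_continuousOn hnc
    have h2 : Measurable (U.piecewise (fun w => ENNReal.ofReal (‖h w‖ ^ 2)) 0) :=
      h1.measurable_piecewise continuousOn_const hUo.measurableSet
    rwa [Set.piecewise_eq_indicator] at h2
  have hΦf : ∫⁻ w, Φ w < ⊤ := by
    rw [hΦ, lintegral_indicator hUo.measurableSet]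
    have h1 := hint.2
    rw [hasFiniteIntegral_iff_ofReal (Filter.Eventually.of_forall fun w => by positivity)] at h1
    exact h1
  have hmeas : Measurable (Function.uncurry fun (z : Cn n) (t : ℂ) => Φ (z + t • v)) := by
    have h1 : Continuous fun p : Cn n × ℂ => p.1 + p.2 • v := by fun_prop
    exact hΦm.comp h1.measurable
  have hfin : ∫⁻ z in ball c ρ', ∫⁻ t in ball (0 : ℂ) R, Φ (z + t • v) < ⊤ := by
    rw [lintegral_lintegral_swap hmeas.aemeasurable]
    have h1 : ∀ t : ℂ, ∫⁻ z in ball c ρ', Φ (z + t • v) ≤ ∫⁻ w, Φ w := by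
      intro t
      calc ∫⁻ z in ball c ρ', Φ (z + t • v) ≤ ∫⁻ z, Φ (z + t • v) :=
            setLIntegral_le_lintegral _ _
        _ = ∫⁻ w, Φ w := lintegral_add_right_eq_self Φ (t • v)
    calc ∫⁻ t in ball (0 : ℂ) R, ∫⁻ z in ball c ρ', Φ (z + t • v)
        ≤ ∫⁻ _t in ball (0 : ℂ) R, ∫⁻ w, Φ w := lintegral_mono fun t => h1 t
      _ = (∫⁻ w, Φ w) * volume (ball (0 : ℂ) R) := by
          rw [setLIntegral_const]
      _ < ⊤ := ENNReal.mul_lt_top hΦf measure_ball_lt_top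
  have hae := ae_lt_top (Measurable.lintegral_prod_right' (f := Function.uncurry
    fun (z : Cn n) (t : ℂ) => Φ (z + t • v)) (ν := volume.restrict (ball (0 : ℂ) R)) hmeas)
    (μ := volume.restrict (ball c ρ')) hfin.ne
  rw [ae_restrict_iff' measurableSet_ball] at hae
  filter_upwards [hae] with z hz hzb
  have hz' : ∫⁻ t in ball (0 : ℂ) R, Φ (z + t • v) < ⊤ := hz hzb
  have hl : Continuous fun t : ℂ => z + t • v := by fun_prop
  have hTo : IsOpen {t ∈ ball (0 : ℂ) R | g (z + t • v) ≠ 0} := by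
    have h1 : {t ∈ ball (0 : ℂ) R | g (z + t • v) ≠ 0} =
        ball (0 : ℂ) R ∩ (fun t : ℂ => z + t • v) ⁻¹' U := by
      ext t
      constructor
      · rintro ⟨h1, h2⟩
        refine ⟨h1, hsub z hzb t ?_, h2⟩
        rw [mem_ball_zero_iff] at h1
        exact h1.le
      · rintro ⟨h1, h2⟩
        exact ⟨h1, h2.2⟩
    rw [h1]
    exact isOpen_ball.inter (hUo.preimage hl)
  have hmaps : MapsTo (fun t : ℂ => z + t • v) {t ∈ ball (0 : ℂ) R | g (z + t • v) ≠ 0} U := by
    rintro t ⟨h1, h2⟩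
    refine ⟨hsub z hzb t ?_, h2⟩
    rw [mem_ball_zero_iff] at h1
    exact h1.le
  have hcont : ContinuousOn (fun t : ℂ => ‖h (z + t • v)‖ ^ 2)
      {t ∈ ball (0 : ℂ) R | g (z + t • v) ≠ 0} := hnc.comp hl.continuousOn hmaps
  refine ⟨hcont.aestronglyMeasurable hTo.measurableSet, ?_⟩
  rw [hasFiniteIntegral_iff_ofReal (Filter.Eventually.of_forall fun w => by positivity)]
  refine lt_of_le_of_lt ?_ hz'
  calc ∫⁻ t in {t ∈ ball (0 : ℂ) R | g (z + t • v) ≠ 0}, ENNReal.ofReal (‖h (z + t • v)‖ ^ 2)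
      = ∫⁻ t in {t ∈ ball (0 : ℂ) R | g (z + t • v) ≠ 0}, Φ (z + t • v) := by
        refine setLIntegral_congr_fun hTo.measurableSet fun t ht => ?_
        simp only [hΦ]
        rw [indicator_of_mem (hmaps ht)]
    _ ≤ ∫⁻ t in ball (0 : ℂ) R, Φ (z + t • v) := by
        refine lintegral_mono_set ?_
        rintro t ⟨h1, _⟩
        exact h1

theorem s_ExtCn (hRem1 : S_Rem1) : S_ExtCn := by
  intro n c ρ hρ g h hg hex hh hint
  obtain ⟨w₁, hw₁, hgw₁⟩ := hex
  have hUo : IsOpen {w ∈ ball c ρ | g w ≠ 0} :=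
    hg.continuousOn.isOpen_inter_preimage isOpen_ball isOpen_ne
  by_cases hgc : g c = 0
  swap
  · have hcU : c ∈ {w ∈ ball c ρ | g w ≠ 0} := ⟨mem_ball_self hρ, hgc⟩
    obtain ⟨δ, hδ, hb⟩ := Metric.isOpen_iff.mp hUo c hcU
    refine ⟨min δ ρ, lt_min hδ hρ, min_le_right _ _, h, ?_, fun _ _ _ => rfl⟩
    exact hh.mono ((ball_subset_ball (min_le_left _ _)).trans hb)
  set v : Cn n := w₁ - c with hv
  -- the line
  set C : Set ℂ := {t : ℂ | c + t • v ∈ ball c ρ} with hC
  have hl : Continuous fun t : ℂ => c + t • v := by fun_prop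
  have hCo : IsOpen C := isOpen_ball.preimage hl
  have hCc : Convex ℝ C := by
    intro s hs r hr a b ha hb hab
    have h1 : c + (a • s + b • r) • v = a • (c + s • v) + b • (c + r • v) := by
      rw [add_smul, smul_assoc, smul_assoc, smul_add, smul_add]
      have : c = a • c + b • c := by rw [← add_smul, hab, one_smul]
      nth_rewrite 1 [this]
      abel
    change c + (a • s + b • r) • v ∈ ball c ρ
    rw [h1]
    exact (convex_ball c ρ) hs hr ha hb hab
  have h0C : (0 : ℂ) ∈ C := by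
    change c + (0 : ℂ) • v ∈ ball c ρ
    rw [zero_smul, add_zero]
    exact mem_ball_self hρ
  have h1C : (1 : ℂ) ∈ C := by
    change c + (1 : ℂ) • v ∈ ball c ρ
    rw [one_smul, hv, add_sub_cancel]
    exact hw₁
  have hγ : DifferentiableOn ℂ (fun t : ℂ => g (c + t • v)) C :=
    Osgood.line_differentiableOn hg isOpen_ball c v fun s hs => hs
  have hγa := hγ.analyticOnNhd hCo
  have hne : ∀ᶠ t in 𝓝[≠] (0 : ℂ), g (c + t • v) ≠ 0 := by
    rcases (hγa 0 h0C).eventually_eq_zero_or_eventually_ne_zero with h1 | h1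
    · exfalso
      have h2 := hγa.eqOn_zero_of_preconnected_of_eventuallyEq_zero hCc.isPreconnected h0C h1 h1C
      simp only [Pi.zero_apply, one_smul, hv, add_sub_cancel] at h2
      exact hgw₁ h2
    · exact h1
  -- the radii
  obtain ⟨δ, hδ, hδC, hδg⟩ : ∃ δ > 0, (∀ t ∈ ball (0 : ℂ) δ, t ∈ C) ∧
      ∀ t ∈ ball (0 : ℂ) δ, t ≠ 0 → g (c + t • v) ≠ 0 := by
    rw [eventually_nhdsWithin_iff] at hne
    have hCe : ∀ᶠ t in 𝓝 (0 : ℂ), t ∈ C := hCo.mem_nhds h0C
    obtain ⟨δ, hδ, hb⟩ := Metric.eventually_nhds_iff_ball.1 (hCe.and hne)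
    exact ⟨δ, hδ, fun t ht => (hb t ht).1, fun t ht h0 => (hb t ht).2 h0⟩
  set r := δ / 4 with hr
  set R := δ / 2 with hR
  have hr0 : 0 < r := by positivity
  have hrR : r < R := by rw [hr, hR]; linarith
  have hRδ : R < δ := by rw [hR]; linarith
  have hev1 : ∀ᶠ z in 𝓝 c, ∀ t ∈ closedBall (0 : ℂ) R, z + t • v ∈ ball c ρ := by
    apply (isCompact_closedBall (0 : ℂ) R).eventually_forall_of_forall_eventually
    intro t ht
    have h2 : ContinuousAt (fun z : Cn n × ℂ => z.1 + z.2 • v) (c, t) := by fun_prop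
    apply h2.eventually
    apply isOpen_ball.mem_nhds
    refine hδC t ?_
    rw [mem_closedBall_zero_iff] at ht
    rw [mem_ball_zero_iff]
    linarith
  have hev2 : ∀ᶠ z in 𝓝 c, ∀ t ∈ sphere (0 : ℂ) r, z + t • v ∈ {w ∈ ball c ρ | g w ≠ 0} := by
    apply (isCompact_sphere (0 : ℂ) r).eventually_forall_of_forall_eventually
    intro t ht
    have h2 : ContinuousAt (fun z : Cn n × ℂ => z.1 + z.2 • v) (c, t) := by fun_prop
    apply h2.eventually
    apply hUo.mem_nhds
    rw [mem_sphere_zero_iff_norm] at ht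
    have h3 : t ∈ ball (0 : ℂ) δ := by
      rw [mem_ball_zero_iff]
      linarith
    refine ⟨hδC t h3, hδg t h3 ?_⟩
    rintro rfl
    rw [norm_zero] at ht
    linarith
  obtain ⟨ρ₁, hρ₁, hb₁⟩ := Metric.eventually_nhds_iff_ball.1 (hev1.and hev2)
  set ρ' := min ρ₁ ρ with hρ'
  have hρ'0 : 0 < ρ' := lt_min hρ₁ hρ
  have hsub : ∀ z ∈ ball c ρ', ∀ t : ℂ, ‖t‖ ≤ R → z + t • v ∈ ball c ρ := fun z hz t ht =>
    (hb₁ z (ball_subset_ball (min_le_left _ _) hz)).1 t (mem_closedBall_zero_iff.mpr ht)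
  have hcirc : ∀ z ∈ ball c ρ', ∀ t ∈ sphere (0 : ℂ) r, z + t • v ∈ {w ∈ ball c ρ | g w ≠ 0} :=
    fun z hz => (hb₁ z (ball_subset_ball (min_le_left _ _) hz)).2
  let H : Cn n → ℂ := fun z => (2 * Real.pi * Complex.I : ℂ)⁻¹ •
    ∮ t in C(0, r), t⁻¹ • h (z + t • v)
  have hH : DifferentiableOn ℂ H (ball c ρ') := by
    intro z hz
    apply DifferentiableAt.differentiableWithinAt
    refine DifferentiableAt.const_smul (f := fun z => ∮ t in C(0, r), t⁻¹ • h (z + t • v)) ?_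
      (2 * Real.pi * Complex.I : ℂ)⁻¹
    apply Osgood.differentiableAt_circleIntegral hUo hh hr0.le (k := fun t => t⁻¹)
      (c := fun t => t • v)
    · apply ContinuousOn.inv₀ continuousOn_id
      intro s hs h0
      rw [mem_sphere_zero_iff_norm] at hs
      simp only [id] at h0
      rw [h0, norm_zero] at hs
      linarith
    · fun_prop
    · exact hcirc z hz
  refine ⟨ρ', hρ'0, min_le_right _ _, H, hH, ?_⟩
  -- almost everywhere
  have hslice := extCn_slice (v := v) hUo hh.continuousOn hint hsub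
  have hae : ∀ᵐ z ∂(volume : Measure (Cn n)), z ∈ ball c ρ' → g z ≠ 0 → H z = h z := by
    filter_upwards [hslice] with z hz hzb hgz
    have h1 := hRem1 r R hr0 hrR (fun t => g (z + t • v)) (fun t => h (z + t • v))
      (Osgood.line_differentiableOn hg isOpen_ball z v fun t ht => hsub z hzb t (by
        rw [mem_ball_zero_iff] at ht
        exact ht.le))
      (fun t ht => (hcirc z hzb t (mem_sphere_zero_iff_norm.mpr ht)).2)
      (by simpa using hgz)
      (Osgood.line_differentiableOn hh hUo z v fun t ht => ⟨hsub z hzb t (by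
        have h2 := ht.1
        rw [mem_ball_zero_iff] at h2
        exact h2.le), ht.2⟩)
      (hz hzb)
    simp only [H]
    rw [h1, smul_smul, inv_mul_cancel₀, one_smul, zero_smul, add_zero]
    simp [Real.pi_ne_zero]
  -- everywhere
  intro w hw hgw
  by_contra hne'
  have hWo : IsOpen {z ∈ ball c ρ' | g z ≠ 0} :=
    (hg.mono (ball_subset_ball (min_le_right _ _))).continuousOn.isOpen_inter_preimage
      isOpen_ball isOpen_ne
  have hWU : {z ∈ ball c ρ' | g z ≠ 0} ⊆ {w ∈ ball c ρ | g w ≠ 0} := fun z hz =>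
    ⟨ball_subset_ball (min_le_right _ _) hz.1, hz.2⟩
  have hcont : ContinuousOn (fun z => H z - h z) {z ∈ ball c ρ' | g z ≠ 0} :=
    (hH.continuousOn.mono fun z hz => hz.1).sub (hh.continuousOn.mono hWU)
  have hSo : IsOpen ({z ∈ ball c ρ' | g z ≠ 0} ∩ (fun z => H z - h z) ⁻¹' {x | x ≠ 0}) :=
    hcont.isOpen_inter_preimage hWo isOpen_ne
  have hnull : volume ({z ∈ ball c ρ' | g z ≠ 0} ∩ (fun z => H z - h z) ⁻¹' {x | x ≠ 0}) = 0 := by
    rw [measure_eq_zero_iff_ae_notMem]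
    filter_upwards [hae] with z hz hzm
    exact hzm.2 (sub_eq_zero.mpr (hz hzm.1.1 hzm.1.2))
  have hempty := hSo.measure_eq_zero_iff volume |>.mp hnull
  have : w ∈ ({z ∈ ball c ρ' | g z ≠ 0} ∩ (fun z => H z - h z) ⁻¹' {x | x ≠ 0}) :=
    ⟨⟨hw, hgw⟩, fun h0 => hne' (sub_eq_zero.mp h0)⟩
  rw [hempty] at this
  exact this

end Pool.Agent.Lib.MP_55bc5f_an
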