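import Pool.Agent.Lib.MP_55bc5f_an.Full.SpecEt

/-!
# Extension of holomorphic differential forms
-/

set_option autoImplicit false
open scoped Manifold ContDiff Topology ComplexConjugate
open Set Filter Metric MeasureTheory

namespace Pool.Agent.Lib.MP_55bc5f_an

private lemma FormE_sum {n : ℕ} (v : Cn n) : v = ∑ b, v b • (Pi.single b 1 : Cn n) := by
  funext d
  simp [Finset.sum_apply, Pi.single_apply]

private lemma FormE_ext {n : ℕ} {L L' : Cn n →L[ℂ] ℂ}
    (h : ∀ b : Fin n, L (Pi.single b 1) = L' (Pi.single b 1)) : L = L' := by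
  ext v
  rw [FormE_sum v]
  simp only [map_sum, map_smul, h]

private lemma FormE_change {n N : ℕ} {M : LM n N} {I I' : Fin n → Fin N} {x : M}
    (h : Et M.z I x) (h' : Et M.z I' x) (θ : M → (Cn N →L[ℂ] ℂ)) :
    M.fr I θ x = (M.fr I' θ x).comp ((prI I').comp (M.A I x)) := by
  ext v
  simp only [LM.fr, ContinuousLinearMap.comp_apply]
  rw [← A_change h h']

theorem s_FormE (hConn : S_Conn) (hIdent : S_Ident) (hFun : S_Fun) (hVF : S_VF) : S_FormE := by
  intro n N hn E hcl hconn U hU hne hext θ hθ
  choose I hI using E.et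
  have hdense : ∀ e : E, Dense (E.E (I e)) := fun e =>
    (hConn n N E hconn (I e)).1 ⟨e, hI e⟩
  choose F hF1 hF2 hF3 hF4 using fun e => hFun n N hn E hcl hconn (I e) e (hI e)
  choose V hV1 hV2 hV3 using fun e b => hVF n N E (I e) (hdense e) (F e) (hF1 e) (hF4 e) b
  have hol : ∀ e b, ∀ x ∈ U, HolAt E.z (fun y => θ y (V e b y)) x := by
    intro e b x hx
    obtain ⟨I', h'⟩ := E.et x
    have h1 : HolAt E.z (E.fr I' θ) x := hθ x hx I' h'
    have h2 : HolAt E.z (fun y => prI I' (V e b y)) x := (hV1 e b x).comp_clm (prI I')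
    have h3 := h1.clm_apply h2
    refine h3.congr ?_
    filter_upwards [h'.eventually] with y hy
    show θ y (E.A I' y (prI I' (V e b y))) = θ y (V e b y)
    rw [hV3 e b I' y hy]
  choose B hB1 hB2 using fun e b => hext (fun y => θ y (V e b y)) (hol e b)
  have star : ∀ (e e' : E) (b : Fin n) (x : E),
      F e' x * B e b x = ∑ c, B e' c x * V e b x (I e' c) := by
    intro e e' b x
    have h1 : ∀ x, HolAt E.z (fun x => F e' x * B e b x) x := fun x =>
      (hF1 e' x).mul' (hB1 e b x)
    have h2 : ∀ x, HolAt E.z (fun x => ∑ c, B e' c x * V e b x (I e' c)) x := fun x =>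
      HolAt.sum' (W := ℂ) (p := E.z) _ fun c _ =>
        (hB1 e' c x).mul' ((hV1 e b x).apply (I e' c))
    obtain ⟨x₀, hx₀U, hx₀⟩ := (hdense e').inter_open_nonempty U hU hne
    have h3 : (fun x => F e' x * B e b x) =ᶠ[𝓝 x₀]
        (fun x => ∑ c, B e' c x * V e b x (I e' c)) := by
      filter_upwards [hU.mem_nhds hx₀U, (E.isOpen_E (I e')).mem_nhds hx₀] with y hyU hy
      rw [hB2 e b y hyU]
      have h4 : ∀ c, B e' c y * V e b y (I e' c) =
          F e' y * (V e b y (I e' c) * θ y (E.A (I e') y (Pi.single c 1))) := by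
        intro c
        rw [hB2 e' c y hyU, hV2 e' c y hy, map_smul, smul_eq_mul]
        ring
      simp only [h4]
      rw [← Finset.mul_sum]
      congr 1
      have h5 := hV3 e b (I e') y hy
      have h6 : θ y (E.A (I e') y (prI (I e') (V e b y))) =
          ∑ c, V e b y (I e' c) * θ y (E.A (I e') y (Pi.single c 1)) := by
        conv_lhs => rw [FormE_sum (prI (I e') (V e b y))]
        simp only [map_sum, map_smul, prI_apply, smul_eq_mul]
      rw [← h6, h5]
    exact congrFun (hIdent n N E hconn ℂ _ _ h1 h2 x₀ h3) x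
  let θ' : E → (Cn N →L[ℂ] ℂ) := fun y =>
    ∑ c, (B y c y / F y y) • ContinuousLinearMap.proj (R := ℂ) (φ := fun _ : Fin N => ℂ) (I y c)
  have hθ' : ∀ (y : E) (v : Cn N), θ' y v = ∑ c, (B y c y / F y y) * v (I y c) := by
    intro y v
    simp only [θ', ContinuousLinearMap.sum_apply, ContinuousLinearMap.smul_apply,
      ContinuousLinearMap.proj_apply, smul_eq_mul]
  have hmem : ∀ e y, F e y ≠ 0 → y ∈ E.E (I e) := by
    intro e y h
    by_contra hcon
    exact h (hF3 e y hcon)
  have key : ∀ e y, F e y ≠ 0 → ∀ b, E.fr (I e) θ' y (Pi.single b 1) = B e b y / F e y := by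
    intro e y h b
    have hy := hmem e y h
    show θ' y (E.A (I e) y (Pi.single b 1)) = B e b y / F e y
    have h1 : θ' y (V e b y) = B e b y := by
      rw [hθ']
      have h2 := star e y b y
      have h3 : ∑ c, (B y c y / F y y) * V e b y (I y c) =
          (F y y)⁻¹ * ∑ c, B y c y * V e b y (I y c) := by
        rw [Finset.mul_sum]
        exact Finset.sum_congr rfl fun c _ => by ring
      rw [h3, ← h2, ← mul_assoc, inv_mul_cancel₀ (hF2 y), one_mul]
    rw [hV2 e b y hy, map_smul, smul_eq_mul] at h1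
    rw [eq_div_iff h, mul_comm]
    exact h1
  have hol1 : ∀ e, HolAt E.z (E.fr (I e) θ') e := by
    intro e
    have h1 : HolAt E.z (fun y => ∑ b : Fin n, (B e b y * (F e y)⁻¹) •
        (ContinuousLinearMap.proj (R := ℂ) (φ := fun _ : Fin n => ℂ) b)) e := by
      refine HolAt.sum' (p := E.z) _ fun b _ => ?_
      exact ((hB1 e b e).mul' ((hF1 e e).inv (hF2 e))).smul (HolAt.const E.z _ e)
    refine h1.congr ?_
    have h2 : ContinuousAt (F e) e := (hF1 e e).continuousAt E.cont.continuousAt
    filter_upwards [h2.eventually_ne (hF2 e)] with y hy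
    apply FormE_ext
    intro b
    rw [key e y hy b]
    simp only [ContinuousLinearMap.sum_apply, ContinuousLinearMap.smul_apply,
      ContinuousLinearMap.proj_apply, smul_eq_mul, Pi.single_apply]
    simp [div_eq_mul_inv]
  refine ⟨θ', ?_, ?_⟩
  · intro e J hJ
    have h1 : HolAt E.z (fun y => (prI (I e)).comp (E.A J y)) e :=
      (HolAt.const E.z (prI (I e)) e).clm_comp hJ.holAt_A
    refine ((hol1 e).clm_comp h1).congr ?_
    filter_upwards [hJ.eventually, (hI e).eventually] with y hy hy'
    exact (FormE_change hy hy' θ').symm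
  · intro x hx J hJ
    have h1 : E.fr (I x) θ' x = E.fr (I x) θ x := by
      apply FormE_ext
      intro b
      rw [key x x (hF2 x) b, hB2 x b x hx, hV2 x b x (hI x), map_smul, smul_eq_mul,
        mul_div_cancel_left₀ _ (hF2 x)]
      rfl
    rw [FormE_change hJ (hI x) θ', FormE_change hJ (hI x) θ, h1]

end Pool.Agent.Lib.MP_55bc5f_an
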