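import Pool.Agent.Lib.MP_55bc5f_an.Full.SpecEt

/-!
# The forms of a holomorphic map to `X_0` in a manifold
-/

set_option autoImplicit false

open scoped Manifold ContDiff Topology ComplexConjugate
open Set Filter Metric MeasureTheory

namespace Pool.Agent.Lib.MP_55bc5f_an

/-- The Maurer–Cartan form in the coordinates `z_I`. -/
noncomputable def FormU_mc {n N : ℕ} (M : LM n N) (I : Fin n → Fin N) (w : M → CAff) (y : M) :
    (Cn n →L[ℂ] ℂ) × (Cn n →L[ℂ] ℂ) × (Cn n →L[ℂ] ℂ) :=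
  open Classical in
  if h : y ∈ M.E I then MC (M.dom I).hπ (fun z => w (M.inc I z)) (M.mk' I y h) else 0

private lemma FormU_mc_of {n N : ℕ} (M : LM n N) (I : Fin n → Fin N) (w : M → CAff) {y : M}
    (h : y ∈ M.E I) :
    FormU_mc M I w y = MC (M.dom I).hπ (fun z => w (M.inc I z)) (M.mk' I y h) := dif_pos h

private lemma FormU_map {n N : ℕ} (M : LM n N) (I : Fin n → Fin N) (x : M.dom I) :
    map (M.inc I) (𝓝 x) = 𝓝 (M.inc I x) :=
  (M.isOpen_E I).isOpenEmbedding_subtypeVal.map_nhds_eq x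

private lemma FormU_congr {n N : ℕ} (M : LM n N) (I : Fin n → Fin N) {w w' : M → CAff} {y : M}
    (h : y ∈ M.E I) (hw : w =ᶠ[𝓝 y] w') : FormU_mc M I w y = FormU_mc M I w' y := by
  rw [FormU_mc_of M I w h, FormU_mc_of M I w' h]
  apply MC_congr
  have h1 : ∀ᶠ z in map (M.inc I) (𝓝 (M.mk' I y h)), w z = w' z := by
    rw [FormU_map]
    exact hw
  exact h1

private lemma FormU_chol {n N : ℕ} (M : LM n N) (I : Fin n → Fin N) {w : M → CAff} {y : M}
    (h : y ∈ M.E I) (hw : CHolAt M.z w y) :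
    CHolAt (M.dom I).π (fun z => w (M.inc I z)) (M.mk' I y h) :=
  ⟨(holAt_dom (F := fun z => (w z).c) (x := M.mk' I y h)).2 hw.1,
    (holAt_dom (F := fun z => (w z).β) (x := M.mk' I y h)).2 hw.2.1,
    (holAt_dom (F := fun z => (w z).δ) (x := M.mk' I y h)).2 hw.2.2⟩

private lemma FormU_mul {n N : ℕ} (M : LM n N) (I : Fin n → Fin N) {w : M → CAff} {y : M}
    (h : y ∈ M.E I) (hw : CHolAt M.z w y) (b : CAff) :
    FormU_mc M I (fun z => b * w z) y = FormU_mc M I w y := by
  rw [FormU_mc_of M I _ h, FormU_mc_of M I w h]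
  exact MC_mul_left _ (FormU_chol M I h hw) b

private lemma FormU_rd {n N : ℕ} (M : LM n N) (I I' : Fin n → Fin N) {F : M → ℂ} {y : M}
    (h : y ∈ M.E I) (h' : y ∈ M.E I') (hF : HolAt M.z F y) :
    rd (M.dom I).hπ (fun z => F (M.inc I z)) (M.mk' I y h) =
      (rd (M.dom I').hπ (fun z => F (M.inc I' z)) (M.mk' I' y h')).comp
        ((prI I').comp (M.A I y)) := by
  apply HasRD.rd_eq
  apply hasRD_dom.2
  apply HasRD.change (show Et M.z I y from h)
  apply (hasRD_dom (I := I') (x := M.mk' I' y h')).1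
  apply HolAt.hasRD
  exact (holAt_dom (I := I') (x := M.mk' I' y h')).2 hF

private lemma FormU_change {n N : ℕ} (M : LM n N) (I I' : Fin n → Fin N) {w : M → CAff} {y : M}
    (h : y ∈ M.E I) (h' : y ∈ M.E I') (hw : CHolAt M.z w y) :
    ((FormU_mc M I' w y).1).comp ((prI I').comp (M.A I y)) = (FormU_mc M I w y).1 ∧
    ((FormU_mc M I' w y).2.1).comp ((prI I').comp (M.A I y)) = (FormU_mc M I w y).2.1 ∧
    ((FormU_mc M I' w y).2.2).comp ((prI I').comp (M.A I y)) = (FormU_mc M I w y).2.2 := by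
  rw [FormU_mc_of M I w h, FormU_mc_of M I' w h']
  have h1 := FormU_rd M I I' h h' hw.1
  have h2 := FormU_rd M I I' h h' hw.2.1
  have h3 := FormU_rd M I I' h h' hw.2.2
  unfold MC
  refine ⟨?_, ?_, ?_⟩
  · change _ = (w y).c⁻¹ • rd (M.dom I).hπ (fun z => (w (M.inc I z)).c) (M.mk' I y h)
    rw [h1]
    rfl
  · change _ = (w y).c • rd (M.dom I).hπ (fun z => (w (M.inc I z)).β) (M.mk' I y h)
    rw [h2]
    rfl
  · change _ = (w y).c⁻¹ • rd (M.dom I).hπ (fun z => (w (M.inc I z)).δ) (M.mk' I y h)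
    rw [h3]
    rfl

private lemma FormU_hol {n N : ℕ} (M : LM n N) (I : Fin n → Fin N) {w : M → CAff} {y : M}
    (h : y ∈ M.E I) (hw : CHolAt M.z w y) :
    HolAt M.z (fun z => (FormU_mc M I w z).1) y ∧ HolAt M.z (fun z => (FormU_mc M I w z).2.1) y ∧
      HolAt M.z (fun z => (FormU_mc M I w z).2.2) y := by
  obtain ⟨h1, h2, h3⟩ := MC_holAt (M.dom I).hπ (FormU_chol M I h hw)
  have key : ∀ z : M.dom I, FormU_mc M I w (M.inc I z) =
      MC (M.dom I).hπ (fun z => w (M.inc I z)) z := fun z => FormU_mc_of M I w z.2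
  refine ⟨?_, ?_, ?_⟩
  · apply (holAt_dom (I := I) (x := M.mk' I y h)).1
    apply h1.congr
    exact Eventually.of_forall fun z => by simp only [key z]
  · apply (holAt_dom (I := I) (x := M.mk' I y h)).1
    apply h2.congr
    exact Eventually.of_forall fun z => by simp only [key z]
  · apply (holAt_dom (I := I) (x := M.mk' I y h)).1
    apply h3.congr
    exact Eventually.of_forall fun z => by simp only [key z]

private lemma FormU_sol {n N : ℕ} (M : LM n N) (I : Fin n → Fin N) {w : M → CAff} {y : M}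
    (h : y ∈ M.E I) (hw : CHolAt M.z w y) :
    SolAt (M.zI I) (fun z => FormU_mc M I w z) w y := by
  obtain ⟨h1, h2, h3⟩ := MC_solAt (M.dom I).hπ (FormU_chol M I h hw)
  have key : FormU_mc M I w y =
      MC (M.dom I).hπ (fun z => w (M.inc I z)) (M.mk' I y h) := FormU_mc_of M I w h
  refine ⟨?_, ?_, ?_⟩
  · simp only [key]
    exact (hasRD_dom (I := I) (x := M.mk' I y h)).1 h1
  · simp only [key]
    exact (hasRD_dom (I := I) (x := M.mk' I y h)).1 h2
  · simp only [key]
    exact (hasRD_dom (I := I) (x := M.mk' I y h)).1 h3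

theorem s_FormU : S_FormU := by
  classical
  intro n N M U hU f hf
  have hlift : ∀ x ∈ U, ∃ w : M → CAff, CHolAt M.z w x ∧ ∀ᶠ x' in 𝓝 x, f x' = PP (w x') :=
    fun x hx => exists_lift M.cont (hf x hx)
  choose w hw1 hw2 using hlift
  choose J hJ using M.et
  let θ : M → (Cn N →L[ℂ] ℂ) × (Cn N →L[ℂ] ℂ) × (Cn N →L[ℂ] ℂ) := fun y =>
    if hy : y ∈ U then
      (((FormU_mc M (J y) (w y hy) y).1).comp (prI (J y)),
        ((FormU_mc M (J y) (w y hy) y).2.1).comp (prI (J y)),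
        ((FormU_mc M (J y) (w y hy) y).2.2).comp (prI (J y)))
    else 0
  -- near `x` the form is the Maurer-Cartan form of `w x`
  have key : ∀ x (hx : x ∈ U), ∀ᶠ y in 𝓝 x, CHolAt M.z (w x hx) y ∧ ∀ I, Et M.z I y →
      M.fr I (fun y => (θ y).1) y = (FormU_mc M I (w x hx) y).1 ∧
      M.fr I (fun y => (θ y).2.1) y = (FormU_mc M I (w x hx) y).2.1 ∧
      M.fr I (fun y => (θ y).2.2) y = (FormU_mc M I (w x hx) y).2.2 := by
    intro x hx
    have e1 : ∀ᶠ x' in 𝓝 x, CHolAt M.z (w x hx) x' :=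
      ((hw1 x hx).1.eventually M.cont).and (((hw1 x hx).2.1.eventually M.cont).and
        ((hw1 x hx).2.2.eventually M.cont))
    filter_upwards [e1, (hw2 x hx).eventually_nhds, hU.mem_nhds hx] with y h1 h2 h3
    refine ⟨h1, fun I hI => ?_⟩
    have h4 : θ y = (((FormU_mc M (J y) (w y h3) y).1).comp (prI (J y)),
        ((FormU_mc M (J y) (w y h3) y).2.1).comp (prI (J y)),
        ((FormU_mc M (J y) (w y h3) y).2.2).comp (prI (J y))) := dif_pos h3
    have h5 : ∀ᶠ z in 𝓝 y, PP (w y h3 z) = PP (w x hx z) := by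
      filter_upwards [hw2 y h3, h2] with z k1 k2
      rw [← k1, k2]
    obtain ⟨γ, hγ⟩ := lifts_eq ((hw1 y h3).continuousAt M.cont) (h1.continuousAt M.cont) h5
    have h6 : FormU_mc M I (w y h3) y = FormU_mc M I (w x hx) y := by
      rw [FormU_congr M I hI hγ, FormU_mul M I hI h1]
    obtain ⟨c1, c2, c3⟩ := FormU_change M I (J y) (show y ∈ M.E I from hI)
      (show y ∈ M.E (J y) from hJ y) (hw1 y h3)
    rw [h6] at c1 c2 c3
    unfold LM.fr
    dsimp only
    rw [h4]
    exact ⟨c1, c2, c3⟩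
  refine ⟨fun y => (θ y).1, fun y => (θ y).2.1, fun y => (θ y).2.2, fun x hx => ?_⟩
  have hk := key x hx
  refine ⟨?_, ?_, ?_, w x hx, hw1 x hx, hw2 x hx, ?_⟩
  · intro I hI
    apply (FormU_hol M I (show x ∈ M.E I from hI) (hw1 x hx)).1.congr
    filter_upwards [hk, hI.eventually] with y hy hIy
    exact (hy.2 I hIy).1.symm
  · intro I hI
    apply (FormU_hol M I (show x ∈ M.E I from hI) (hw1 x hx)).2.1.congr
    filter_upwards [hk, hI.eventually] with y hy hIy
    exact (hy.2 I hIy).2.1.symm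
  · intro I hI
    apply (FormU_hol M I (show x ∈ M.E I from hI) (hw1 x hx)).2.2.congr
    filter_upwards [hk, hI.eventually] with y hy hIy
    exact (hy.2 I hIy).2.2.symm
  · filter_upwards [hk] with y hy I hI
    have h1 := FormU_sol M I (show y ∈ M.E I from hI) hy.1
    obtain ⟨k1, k2, k3⟩ := hy.2 I hI
    refine h1.congr (EventuallyEq.refl _ _) ?_
    rw [k1, k2, k3]

end Pool.Agent.Lib.MP_55bc5f_an
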