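import Pool.Agent.Lib.MP_55bc5f_an.Full.SpecEt

/-!
# Functions `F` with `F ∂/∂z_{I b}` holomorphic
-/

set_option autoImplicit false

open scoped Manifold ContDiff Topology ComplexConjugate
open Set Filter Metric MeasureTheory

namespace Pool.Agent.Lib.MP_55bc5f_an

lemma fun_covering_id (X : Type) [TopologicalSpace X] : IsCoveringMap (id : X → X) := by
  intro x
  have h : IsEvenlyCovered (id : X → X) x Unit :=
    ⟨inferInstance, univ, mem_univ x, isOpen_univ, by simp,
      ((Homeomorph.setCongr (by simp)).trans (Homeomorph.prodPUnit (univ : Set X)).symm),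
      fun _ => rfl⟩
  exact h.to_isEvenlyCovered_preimage

lemma fun_nsq_nonneg {n : ℕ} (w : Cn n) : 0 ≤ nsq w :=
  Finset.sum_nonneg fun _ _ => by positivity

lemma fun_nsq_continuous (n : ℕ) : Continuous (nsq : Cn n → ℝ) := by
  unfold nsq
  fun_prop

lemma fun_nsq_prI {n N : ℕ} (I : Fin n → Fin N) (w : Cn N) : nsq (prI I w) ≤ n * nsq w := by
  have h1 : ∀ a : Fin n, ‖prI I w a‖ ^ 2 ≤ nsq w := fun a => by
    rw [prI_apply]
    exact Finset.single_le_sum (f := fun k => ‖w k‖ ^ 2) (fun k _ => by positivity)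
      (Finset.mem_univ (I a))
  calc nsq (prI I w) = ∑ a : Fin n, ‖prI I w a‖ ^ 2 := rfl
    _ ≤ ∑ _a : Fin n, nsq w := Finset.sum_le_sum fun a _ => h1 a
    _ = n * nsq w := by simp

/-- The estimate of the weight on compact sets. -/
lemma fun_integrable {n N : ℕ} (E : LM n N) (I : Fin n → Fin N) (μ : Measure (E.dom I))
    (χ : ℝ → ℝ) (hχ : Continuous χ) (hgs : Continuous fun y : E.dom I => E.gs I (E.inc I y))
    (h : E.dom I → ℂ) (hh : Continuous h)
    (hint : ∀ r : ℝ, IntegrableOn (fun y => ‖h y‖ ^ 2 *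
      Real.exp (-(χ (nsq (E.z (E.inc I y))) - 2 * Real.log (E.gs I (E.inc I y)))))
      {y | nsq ((E.dom I).π y) ≤ r} μ)
    (K : Set E) (hK : IsCompact K) :
    IntegrableOn (fun y => ‖h y‖ ^ 2 * E.gs I (E.inc I y) ^ 2) {y : E.dom I | E.inc I y ∈ K} μ := by
  have hinc : Continuous (E.inc I) := continuous_subtype_val
  have hz : Continuous fun x : E => nsq (E.z x) := (fun_nsq_continuous N).comp E.cont
  obtain ⟨r, hr⟩ : ∃ r : ℝ, ∀ x ∈ K, nsq (E.z x) ≤ r := by
    obtain ⟨r, hr⟩ := (hK.bddAbove_image hz.continuousOn)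
    exact ⟨r, fun x hx => hr (mem_image_of_mem _ hx)⟩
  obtain ⟨m, hm⟩ : ∃ m : ℝ, ∀ t ∈ Set.Icc (0 : ℝ) r, χ t ≤ m := by
    obtain ⟨m, hm⟩ := (isCompact_Icc (a := (0 : ℝ)) (b := r)).bddAbove_image hχ.continuousOn
    exact ⟨m, fun t ht => hm (mem_image_of_mem _ ht)⟩
  have hmeas : MeasurableSet {y : E.dom I | E.inc I y ∈ K} :=
    (hK.isClosed.preimage hinc).measurableSet
  have hsub : {y : E.dom I | E.inc I y ∈ K} ⊆ {y | nsq ((E.dom I).π y) ≤ n * r} := by
    intro y hy
    have h1 : (E.dom I).π y = prI I (E.z (E.inc I y)) := rfl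
    change nsq ((E.dom I).π y) ≤ n * r
    rw [h1]
    exact (fun_nsq_prI I _).trans (mul_le_mul_of_nonneg_left (hr _ hy) (Nat.cast_nonneg n))
  have hI1 := (((hint (n * r)).mono_set hsub).const_mul (Real.exp m))
  refine Integrable.mono' hI1 ?_ ?_
  · exact ((hh.norm.pow 2).mul (hgs.pow 2)).aestronglyMeasurable
  · refine (ae_restrict_iff' hmeas).2 (Eventually.of_forall fun y hy => ?_)
    have hgp : 0 < E.gs I (E.inc I y) := lt_of_lt_of_le one_pos
      (Et.one_le_gs (show Et E.z I (E.inc I y) from y.2))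
    have h2 : Real.exp (-(χ (nsq (E.z (E.inc I y))) - 2 * Real.log (E.gs I (E.inc I y)))) =
        Real.exp (-χ (nsq (E.z (E.inc I y)))) * E.gs I (E.inc I y) ^ 2 := by
      have h3 : E.gs I (E.inc I y) ^ 2 = Real.exp (2 * Real.log (E.gs I (E.inc I y))) := by
        rw [mul_comm, Real.exp_mul, Real.exp_log hgp]
        norm_cast
      rw [h3, ← Real.exp_add]
      congr 1
      ring
    have h4 : 1 ≤ Real.exp m * Real.exp (-χ (nsq (E.z (E.inc I y)))) := by
      rw [← Real.exp_add]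
      apply Real.one_le_exp
      have := hm _ ⟨fun_nsq_nonneg _, hr _ hy⟩
      linarith
    rw [h2, Real.norm_of_nonneg (by positivity)]
    calc ‖h y‖ ^ 2 * E.gs I (E.inc I y) ^ 2
        = 1 * (‖h y‖ ^ 2 * E.gs I (E.inc I y) ^ 2) := by ring
      _ ≤ (Real.exp m * Real.exp (-χ (nsq (E.z (E.inc I y))))) *
          (‖h y‖ ^ 2 * E.gs I (E.inc I y) ^ 2) :=
        mul_le_mul_of_nonneg_right h4 (by positivity)
      _ = Real.exp m * (‖h y‖ ^ 2 * (Real.exp (-χ (nsq (E.z (E.inc I y)))) *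
          E.gs I (E.inc I y) ^ 2)) := by ring

theorem s_Fun (hMeas : S_Meas) (hEval : S_Eval) (hConn : S_Conn) (hExt : S_Ext) (hLevZ : S_LevZ)
    (hWtE : S_WtE) (hExh : S_Exh) : S_Fun := by
  classical
  intro n N hn E hE hcon I e he
  obtain ⟨μ, hμ⟩ := hMeas n (E.dom I)
  obtain ⟨χ, hχ, hφ, hLev⟩ := hWtE n N E hE I
  have hex := hExh n N E E hE id (fun_covering_id E) (fun _ => rfl) I
  have hgs : Continuous fun y : E.dom I => E.gs I (E.inc I y) :=
    ((hLevZ n N E I).2.2.2.1).continuous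
  obtain ⟨h, hh1, hh2, -, hh3⟩ := hEval n hn (E.dom I) μ hμ _ _ hex hφ hLev
    (E.mk' I e he) (E.mk' I e he) rfl
  have hhc : Continuous h := continuous_iff_continuousAt.2 fun y =>
    (hh1 y).continuousAt (E.dom I).hπ.continuous.continuousAt
  let F : E → ℂ := fun x => if hx : x ∈ E.E I then h (E.mk' I x hx) else 0
  have hF : ∀ y : E.dom I, F (E.inc I y) = h y := by
    intro y
    have hy : E.inc I y ∈ E.E I := y.2
    simp only [F, hy, dif_pos]
    rfl
  have hF0 : ∀ x ∉ E.E I, F x = 0 := fun x hx => by simp only [F, hx, dif_neg, not_false_iff]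
  have hFh : ∀ x ∈ E.E I, HolAt E.z F x := by
    intro x hx
    have h1 : HolAt (E.dom I).π (fun y => F (E.inc I y)) (E.mk' I x hx) := by
      have h2 : (fun y => F (E.inc I y)) = h := funext hF
      rw [h2]
      exact hh1 _
    exact holAt_dom.1 h1
  have hdense : Dense (E.E I) := (hConn n N E hcon I).1 ⟨e, he⟩
  have hext := hExt n N E I hdense μ hμ F 2 hFh (by
    intro K hK
    have h1 := fun_integrable E I μ χ hχ.continuous hgs h hhc hh3 K hK
    simpa only [hF] using h1)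
  have hkey : ∀ I' : Fin n → Fin N, ∃ Q : E → ℂ, (∀ x ∈ E.E I', HolAt E.z Q x) ∧
      ∀ x ∈ E.E I ∩ E.E I', F x = Q x * E.GJ I' I x := by
    intro I'
    obtain ⟨H, hH1, hH2⟩ := hext I'
    refine ⟨H, hH1, fun x hx => ?_⟩
    have hG : E.GJ I' I x ≠ 0 := GJ_ne (M := E) hx.1 hx.2
    have h1 := hH2 x hx
    have h2 : (H x * E.GJ I' I x) * E.GJ I' I x = F x * E.GJ I' I x := by
      rw [← h1]; ring
    exact (mul_right_cancel₀ hG h2).symm
  refine ⟨F, ?_, ?_, hF0, hkey⟩
  · intro x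
    obtain ⟨I', hI'⟩ := E.et x
    obtain ⟨H, hH1, hH2⟩ := hkey I'
    have h1 : HolAt E.z (fun y => H y * E.GJ I' I y) x :=
      (hH1 x hI').mul' (hI'.holAt_GJ I)
    apply h1.congr
    filter_upwards [(E.isOpen_E I').mem_nhds hI'] with y hy
    by_cases hyI : y ∈ E.E I
    · exact (hH2 y ⟨hyI, hy⟩).symm
    · have h2 : E.GJ I' I y = 0 := by
        by_contra h3
        exact hyI ((et_iff (M := E) hy).2 h3)
      rw [h2, mul_zero, hF0 y hyI]
  · intro h0
    have h1 : F e = h (E.mk' I e he) := hF (E.mk' I e he)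
    rw [← h1, h0, zero_sub, norm_neg, norm_one] at hh2
    norm_num at hh2

end Pool.Agent.Lib.MP_55bc5f_an
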