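import Pool.Agent.Lib.MP_55bc5f_an.Full.SpecEt

set_option autoImplicit false

open scoped Manifold ContDiff Topology ComplexConjugate
open Set Filter Metric MeasureTheory

namespace Pool.Agent.Lib.MP_55bc5f_an

theorem s_Glue : S_Glue := by
  intro n N M I hd W _ _ u hu
  have key : ∀ (I' : Fin n → Fin N) (H : M → W), (∀ x ∈ M.E I', HolAt M.z H x) →
      (∀ x ∈ M.E I ∩ M.E I', H x = u x) → ∀ x ∈ M.E I', extendFrom (M.E I) u x = H x := by
    intro I' H h1 h2 x hx
    apply extendFrom_eq (hd x)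
    have h3 : Tendsto H (𝓝[M.E I] x) (𝓝 (H x)) :=
      ((h1 x hx).continuousAt M.cont.continuousAt).tendsto.mono_left nhdsWithin_le_nhds
    refine h3.congr' ?_
    filter_upwards [nhdsWithin_le_nhds ((M.isOpen_E I').mem_nhds hx), self_mem_nhdsWithin]
      with y hy1 hy2
    exact h2 y ⟨hy2, hy1⟩
  refine ⟨extendFrom (M.E I) u, ?_, ?_⟩
  · intro x
    obtain ⟨I', hI'⟩ := M.et x
    obtain ⟨H, h1, h2⟩ := hu I'
    apply (h1 x hI').congr
    filter_upwards [(M.isOpen_E I').mem_nhds hI'] with y hy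
    exact (key I' H h1 h2 y hy).symm
  · intro x hx
    obtain ⟨H, h1, h2⟩ := hu I
    rw [key I H h1 h2 x hx, h2 x ⟨hx, hx⟩]

end Pool.Agent.Lib.MP_55bc5f_an
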