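import Pool.Agent.Lib.MP_55bc5f_an.Full.SpecEt

set_option autoImplicit false

open scoped Manifold ContDiff Topology ComplexConjugate
open Set Filter Metric MeasureTheory

namespace Pool.Agent.Lib.MP_55bc5f_an

/-- Small balls in charts. -/
lemma Ident_nhd {n N : ℕ} (M : LM n N) (I : Fin n → Fin N) (x₀ : M.dom I) {P : M → Prop}
    (hP : ∀ᶠ y in 𝓝 (M.inc I x₀), P y) :
    ∃ ρ > 0, ball ((M.dom I).π x₀) ρ ⊆ (ch (M.dom I).hπ x₀).source ∧
      (∀ w ∈ ball ((M.dom I).π x₀) ρ, P (M.cht I x₀ w)) := by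
  have hc : ContinuousAt (M.inc I) x₀ := continuous_subtype_val.continuousAt
  have h1 := eventually_ch (M.dom I).hπ (hc.eventually hP)
  have h2 : ∀ᶠ z in 𝓝 ((M.dom I).π x₀), z ∈ (ch (M.dom I).hπ x₀).source :=
    (ch (M.dom I).hπ x₀).open_source.mem_nhds (ch_mem (M.dom I).hπ x₀)
  obtain ⟨ρ, hρ, hb⟩ := Metric.eventually_nhds_iff_ball.1 (h1.and h2)
  exact ⟨ρ, hρ, fun w hw => (hb w hw).2, fun w hw => (hb w hw).1⟩

/-- The image of an open set in a chart is open. -/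
lemma Ident_open {n N : ℕ} (M : LM n N) (I : Fin n → Fin N) (x₀ : M.dom I) {B : Set (Cn n)}
    (hB : IsOpen B) (hBs : B ⊆ (ch (M.dom I).hπ x₀).source) : IsOpen (M.cht I x₀ '' B) := by
  have h1 : IsOpen (ch (M.dom I).hπ x₀ '' B) :=
    (ch (M.dom I).hπ x₀).isOpen_image_of_subset_source hB hBs
  have h2 : M.cht I x₀ '' B = M.inc I '' (ch (M.dom I).hπ x₀ '' B) := by
    rw [image_image]; rfl
  rw [h2]
  exact (M.isOpen_E I).isOpenEmbedding_subtypeVal.isOpenMap _ h1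

lemma Ident_self {n N : ℕ} (M : LM n N) (I : Fin n → Fin N) (x₀ : M.dom I) :
    M.cht I x₀ ((M.dom I).π x₀) = M.inc I x₀ := by
  unfold LM.cht
  rw [ch_self]

/-- Holomorphic functions in the chart. -/
lemma Ident_diff {n N : ℕ} {M : LM n N} {I : Fin n → Fin N} {x₀ : M.dom I} {W : Type}
    [NormedAddCommGroup W] [NormedSpace ℂ W] {F : M → W} {w : Cn n}
    (hw : w ∈ (ch (M.dom I).hπ x₀).source) (hF : HolAt M.z F (M.cht I x₀ w)) :
    DifferentiableAt ℂ (fun w => F (M.cht I x₀ w)) w := by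
  have h1 : HolAt (M.dom I).π (fun y => F (M.inc I y)) (ch (M.dom I).hπ x₀ w) := holAt_dom.2 hF
  exact (HolAt.ch (M.dom I).hπ hw h1).self_of_nhds

lemma Ident_cont {n N : ℕ} {M : LM n N} {I : Fin n → Fin N} {x₀ : M.dom I} {w : Cn n}
    (hw : w ∈ (ch (M.dom I).hπ x₀).source) : ContinuousAt (M.cht I x₀) w := by
  have hc : ContinuousAt (M.inc I) (ch (M.dom I).hπ x₀ w) := continuous_subtype_val.continuousAt
  exact hc.comp (ch_continuousAt (M.dom I).hπ hw)

theorem s_Ident : S_Ident := by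
  intro n N M hM W _ _ _ F G hF hG x₁ h
  let S : Set M := {y | F =ᶠ[𝓝 y] G}
  have hSo : IsOpen S := isOpen_setOfPred_eventually_nhds
  have hSc : IsClosed S := by
    rw [← closure_subset_iff_isClosed]
    intro y hy
    obtain ⟨I, hI⟩ := M.et y
    let x₀ : M.dom I := M.mk' I y hI
    obtain ⟨ρ, hρ, hsrc, -⟩ := Ident_nhd M I x₀ (P := fun _ => True) (Eventually.of_forall fun _ => trivial)
    have hNo := Ident_open M I x₀ isOpen_ball hsrc
    have hN : M.cht I x₀ '' ball ((M.dom I).π x₀) ρ ∈ 𝓝 y :=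
      hNo.mem_nhds ⟨_, mem_ball_self hρ, Ident_self M I x₀⟩
    obtain ⟨_, ⟨z₁, hz₁, rfl⟩, hy₁S⟩ := mem_closure_iff_nhds.1 hy _ hN
    have ha1 := Osgood.analyticOnNhd (f := fun w => F (M.cht I x₀ w)) isOpen_ball
      (fun z hz => (Ident_diff (hsrc hz) (hF _)).differentiableWithinAt)
    have ha2 := Osgood.analyticOnNhd (f := fun w => G (M.cht I x₀ w)) isOpen_ball
      (fun z hz => (Ident_diff (hsrc hz) (hG _)).differentiableWithinAt)
    have hev : (fun w => F (M.cht I x₀ w)) =ᶠ[𝓝 z₁] (fun w => G (M.cht I x₀ w)) :=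
      (Ident_cont (hsrc hz₁)).eventually hy₁S
    have heq := ha1.eqOn_of_preconnected_of_eventuallyEq ha2
      (convex_ball ((M.dom I).π x₀) ρ).isPreconnected hz₁ hev
    change ∀ᶠ y' in 𝓝 y, F y' = G y'
    filter_upwards [hN]
    rintro _ ⟨z, hz, rfl⟩
    exact heq hz
  have huniv : S = univ := IsClopen.eq_univ ⟨hSc, hSo⟩ ⟨x₁, h⟩
  funext y
  have : y ∈ S := by rw [huniv]; trivial
  exact (show F =ᶠ[𝓝 y] G from this).self_of_nhds

end Pool.Agent.Lib.MP_55bc5f_an
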