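import Pool.Agent.Lib.MP_55bc5f_an.Full.SpecEt

/-!
# Coverings with a section over a domain whose holomorphic functions extend
-/

set_option autoImplicit false

open scoped Manifold ContDiff Topology ComplexConjugate
open Set Filter Metric MeasureTheory

namespace Pool.Agent.Lib.MP_55bc5f_an

theorem s_Inj (hIdent : S_Ident) (hSep : S_Sep) : S_Inj := by
  intro n N hn E hE hEc U hU hUne hExt M _ _ _ hMc p s hp hs hps a b hab
  by_contra hne
  have hloc : IsLocalHomeomorph p := hp.isLocalHomeomorph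
  let M' : LM n N := E.pull hloc
  have hz : ∀ x : M', M'.z x = E.z (p x) := fun x => rfl
  have hMc' : ConnectedSpace M' := hMc
  obtain ⟨g, hg, hgab⟩ := hSep n N hn E M' hE hEc hMc' p hp hz a b hab hne
  have hsc : ∀ x ∈ U, ContinuousAt s x := fun x hx => hs.continuousAt (hU.mem_nhds hx)
  have h1 : ∀ x ∈ U, HolAt E.z (fun y => g (s y)) x := by
    intro x hx
    obtain ⟨g₀, hg1, hg2⟩ := hg (s x)
    have e1 : M'.z (s x) = E.z x := congrArg E.z (hps x hx)
    rw [e1] at hg1
    refine ⟨g₀, hg1, ?_⟩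
    filter_upwards [(hsc x hx).eventually hg2, hU.mem_nhds hx] with y hy hyU
    have e2 : M'.z (s y) = E.z y := congrArg E.z (hps y hyU)
    exact hy.trans (congrArg g₀ e2)
  obtain ⟨G, hG1, hG2⟩ := hExt (fun y => g (s y)) h1
  obtain ⟨x₀, hx₀⟩ := hUne
  have h2 : (fun m : M' => G (p m)) =ᶠ[𝓝 (s x₀)] g := by
    obtain ⟨f, hf, hfp⟩ := hloc (s x₀)
    have hpc : Tendsto p (𝓝 (s x₀)) (𝓝 x₀) := by
      have := hloc.continuous.continuousAt (x := s x₀)
      rwa [ContinuousAt, hps x₀ hx₀] at this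
    have h3 : ∀ᶠ m in 𝓝 (s x₀), s (p m) ∈ f.source :=
      ((hsc x₀ hx₀).tendsto.comp hpc).eventually (f.open_source.mem_nhds hf)
    filter_upwards [h3, hpc.eventually (hU.mem_nhds hx₀), f.open_source.mem_nhds hf] with m m1 m2 m3
    have h4 : f (s (p m)) = f m := by
      rw [← hfp]
      exact hps (p m) m2
    have h5 : s (p m) = m := f.injOn m1 m3 h4
    change G (p m) = g m
    rw [hG2 (p m) m2, h5]
  have h3 := hIdent n N M' hMc' ℂ (fun m => G (p m)) g
    (fun x => holAt_transport (M := M') (E := E) hloc hz (hG1 (p x))) hg (s x₀) h2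
  apply hgab
  rw [← h3]
  simp only [hab]

end Pool.Agent.Lib.MP_55bc5f_an
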