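import Pool.Agent.Lib.MP_55bc5f_an.Full.SpecEt

/-!
# Change of variables between the coordinates `z_I` and `z_{I'}`
-/

set_option autoImplicit false

open scoped Manifold ContDiff Topology ComplexConjugate
open Set Filter Metric MeasureTheory

namespace Pool.Agent.Lib.MP_55bc5f_an

lemma jac_det {n : ℕ} (L : Cn n →L[ℂ] Cn n) :
    (L.restrictScalars ℝ).det = ‖LinearMap.det (L : Cn n →ₗ[ℂ] Cn n)‖ ^ 2 := by
  have h1 : (L.restrictScalars ℝ).det =
      LinearMap.det ((L : Cn n →ₗ[ℂ] Cn n).restrictScalars ℝ) := rfl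
  rw [h1, LinearMap.det_restrictScalars, Algebra.norm_complex_apply, Complex.normSq_eq_norm_sq]

lemma jac_detA {n N : ℕ} {M : LM n N} (I I' : Fin n → Fin N) (x : M) :
    LinearMap.det (((prI I).comp (M.A I' x) : Cn n →L[ℂ] Cn n) : Cn n →ₗ[ℂ] Cn n) =
      M.GJ I' I x := by
  rw [← LinearMap.det_toMatrix']
  unfold LM.GJ
  congr 1

lemma jac_hasFDerivAt {n N : ℕ} {M : LM n N} (I I' : Fin n → Fin N) (x₀ : M.dom I') {w : Cn n}
    (hw : w ∈ (ch (M.dom I').hπ x₀).source) :
    HasFDerivAt (fun w => M.zI I (M.cht I' x₀ w)) ((prI I).comp (M.A I' (M.cht I' x₀ w))) w := by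
  have h1 : HasRD (M.zI I') M.z (M.A I' (M.cht I' x₀ w)) (M.cht I' x₀ w) :=
    Et.hasRD_A (show Et M.z I' (M.cht I' x₀ w) from (ch (M.dom I').hπ x₀ w).2)
  have h2 := (hasRD_dom (x := ch (M.dom I').hπ x₀ w)).2 h1
  have h3 := (h2.clm (prI I)).ch (M.dom I').hπ hw
  exact h3

theorem s_Jac (_hPullFacts : S_PullFacts) : S_Jac := by
  intro n N M I I' μ hμ x₀ S hS hSs f hf hf0
  set cht : Cn n → M := M.cht I' x₀ with hcht
  set G : Cn n → ℂ := fun w => M.GJ I' I (cht w) with hG
  set T : Set (Cn n) := {w | w ∈ S ∧ G w ≠ 0} with hT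
  have hinc : Continuous (M.inc I') := continuous_subtype_val
  have hchtc : ContinuousOn cht S :=
    hinc.comp_continuousOn ((ch (M.dom I').hπ x₀).continuousOn.mono hSs)
  have hEt' : ∀ w, Et M.z I' (cht w) := fun w => (ch (M.dom I').hπ x₀ w).2
  have hGc : ContinuousOn G S := by
    intro w hw
    have h1 : ContinuousAt (M.GJ I' I) (cht w) :=
      HolAt.continuousAt M.cont.continuousAt ((hEt' w).holAt_GJ I)
    exact h1.comp_continuousWithinAt (hchtc w hw)
  have hTo : IsOpen T := by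
    have := hGc.isOpen_inter_preimage hS (isOpen_compl_singleton (x := (0 : ℂ)))
    have h2 : T = S ∩ G ⁻¹' {0}ᶜ := by
      ext w; rfl
    rw [h2]; exact this
  have hTm : MeasurableSet T := hTo.measurableSet
  have hEt : ∀ w ∈ T, Et M.z I (cht w) := fun w hw => (et_iff (hEt' w)).2 hw.2
  -- the map to `M.dom I`
  let τ : T → M.dom I := fun w => M.mk' I (cht w) (hEt w w.2)
  have hτinc : ∀ w, M.inc I (τ w) = cht w := fun w => rfl
  have hτc : Continuous τ := by
    apply Continuous.subtype_mk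
    exact continuousOn_iff_continuous_domRestrict.1 (hchtc.mono fun w hw => hw.1)
  have hτi : Function.Injective τ := by
    intro w w' h
    have h1 : cht w = cht w' := by
      have := congrArg (M.inc I) h
      exact this
    have h2 : ch (M.dom I').hπ x₀ w = ch (M.dom I').hπ x₀ w' := Subtype.ext h1
    exact Subtype.ext ((ch (M.dom I').hπ x₀).injOn (hSs w.2.1) (hSs w'.2.1) h2)
  have hτr : ∀ y : M.dom I, M.inc I y ∈ cht '' S → ∃ w, τ w = y := by
    rintro y ⟨w, hw, hwy⟩
    have h1 : G w ≠ 0 := by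
      apply (et_iff (hEt' w)).1
      rw [hwy]
      exact y.2
    exact ⟨⟨w, hw, h1⟩, Subtype.ext hwy⟩
  set A : Set (M.dom I) := {y : M.dom I | M.inc I y ∈ cht '' S} with hA
  have hτA : ∀ w, τ w ∈ A := fun w => ⟨w, w.2.1, rfl⟩
  set q : Cn n → Cn n := fun w => M.zI I (cht w) with hq
  have hπτ : ∀ w, (M.dom I).π (τ w) = q w := fun w => rfl
  set q' : Cn n → (Cn n →L[ℝ] Cn n) :=
    fun w => ((prI I).comp (M.A I' (cht w))).restrictScalars ℝ with hq'
  have hqd : ∀ w ∈ T, HasFDerivAt q (q' w) w := fun w hw =>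
    (jac_hasFDerivAt I I' x₀ (hSs hw.1)).restrictScalars ℝ
  have hdet : ∀ w, |(q' w).det| = ‖G w‖ ^ 2 := by
    intro w
    rw [hq', jac_det, jac_detA, abs_of_nonneg (by positivity)]
  let d : T → ENNReal := fun w => ENNReal.ofReal (‖G w‖ ^ 2)
  have hdm : Measurable d := by
    have h1 : Continuous fun w : T => G w :=
      continuousOn_iff_continuous_domRestrict.1 (hGc.mono fun w hw => hw.1)
    exact ENNReal.measurable_ofReal.comp (h1.norm.pow 2).measurable
  set ρ : Measure T := (Measure.comap Subtype.val volume).withDensity d with hρ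
  have hAo : IsOpen A := by
    have h1 : IsOpen (ch (M.dom I').hπ x₀ '' S) :=
      (ch (M.dom I').hπ x₀).isOpen_image_of_subset_source hS hSs
    have h2 : IsOpen (cht '' S) := by
      have h3 : cht '' S = M.inc I' '' (ch (M.dom I').hπ x₀ '' S) := by
        rw [image_image]
        rfl
      rw [h3]
      have h4 : IsOpenMap (M.inc I') := (M.isOpen_E I').isOpenMap_subtype_val
      exact h4 _ h1
    exact h2.preimage continuous_subtype_val
  have hAm : MeasurableSet A := hAo.measurableSet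
  have hinj : ∀ y : M.dom I, InjOn (M.dom I).π (ch (M.dom I).hπ y).target := by
    intro y u hu v hv h
    rw [← ch_p (M.dom I).hπ hu, ← ch_p (M.dom I).hπ hv, h]
  have key : μ.restrict A = Measure.map τ ρ := by
    obtain ⟨s, hs, hcov⟩ := TopologicalSpace.countable_cover_nhds
      (f := fun y : M.dom I => (ch (M.dom I).hπ y).target)
      (fun y => (ch (M.dom I).hπ y).open_target.mem_nhds (ch_mem' (M.dom I).hπ y))
    refine Measure.ext_of_biUnion_eq_univ hs hcov fun y _ => ?_
    set U := (ch (M.dom I).hπ y).target with hU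
    have hUo : IsOpen U := (ch (M.dom I).hπ y).open_target
    have hUm : MeasurableSet U := hUo.measurableSet
    ext B hB
    rw [Measure.restrict_apply hB, Measure.restrict_apply hB,
      Measure.restrict_apply (hB.inter hUm), Measure.map_apply hτc.measurable (hB.inter hUm)]
    set D : Set (Cn n) := Subtype.val '' (τ ⁻¹' (B ∩ U)) with hD
    have hpm : MeasurableSet (τ ⁻¹' (B ∩ U)) := hτc.measurable (hB.inter hUm)
    have hDm : MeasurableSet D := hTm.subtype_image hpm
    have hDT : D ⊆ T := by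
      rintro _ ⟨w, _, rfl⟩
      exact w.2
    have h1 : (M.dom I).π '' (B ∩ U ∩ A) = q '' D := by
      ext v
      constructor
      · rintro ⟨u, ⟨hu1, hu2⟩, rfl⟩
        obtain ⟨w, hw⟩ := hτr u hu2
        refine ⟨w, ⟨w, ?_, rfl⟩, ?_⟩
        · change τ w ∈ B ∩ U
          rw [hw]; exact hu1
        · rw [← hπτ, hw]
      · rintro ⟨_, ⟨w, hw, rfl⟩, rfl⟩
        exact ⟨τ w, ⟨hw, hτA w⟩, hπτ w⟩
    have h2 : InjOn q D := by
      rintro _ ⟨w, hw, rfl⟩ _ ⟨w', hw', rfl⟩ h
      have h3 : τ w = τ w' := by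
        apply hinj y hw.2 hw'.2
        rw [hπτ, hπτ]; exact h
      rw [hτi h3]
    rw [hμ U hUo (hinj y) (B ∩ U ∩ A) (fun u hu => hu.1.2) ((hB.inter hUm).inter hAm), h1,
      ← lintegral_abs_det_fderiv_eq_addHaar_image volume hDm
        (fun w hw => (hqd w (hDT hw)).hasFDerivWithinAt) h2, hρ, withDensity_apply _ hpm,
      setLIntegral_subtype hTm (τ ⁻¹' (B ∩ U)) (fun w => ENNReal.ofReal (‖G w‖ ^ 2))]
    simp only [hdet]
    rfl
  have hFm : Measurable fun y : M.dom I => ENNReal.ofReal (f (M.inc I y)) := by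
    have h1 : Continuous fun y : M.dom I => f (M.inc I y) :=
      hf.comp_continuous continuous_subtype_val fun y => y.2
    exact ENNReal.measurable_ofReal.comp h1.measurable
  have hlhs : ∫⁻ y in A, ENNReal.ofReal (f (M.inc I y)) ∂μ =
      ∫⁻ w, d w * ENNReal.ofReal (f (cht w)) ∂(Measure.comap (Subtype.val : T → Cn n) volume) := by
    rw [key, lintegral_map hFm hτc.measurable, hρ]
    exact lintegral_withDensity_eq_lintegral_mul _ hdm (hFm.comp hτc.measurable)
  have hrhs : ∫⁻ w in T, ENNReal.ofReal (f (cht w) * ‖G w‖ ^ 2) =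
      ∫⁻ w, d w * ENNReal.ofReal (f (cht w)) ∂(Measure.comap (Subtype.val : T → Cn n) volume) := by
    rw [← lintegral_subtype_comap hTm]
    apply lintegral_congr
    intro w
    rw [mul_comm, ENNReal.ofReal_mul (by positivity)]
  rw [hlhs, ← hrhs]

end Pool.Agent.Lib.MP_55bc5f_an
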