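import Pool.Agent.Lib.MP_55bc5f_an.Full.Et.LevLoc

set_option autoImplicit false

open scoped Manifold ContDiff Topology ComplexConjugate
open Set Filter Metric MeasureTheory

namespace Pool.Agent.Lib.MP_55bc5f_an

lemma LevInv_smooth {n : ℕ} {τ : Cn n → Cn n} {z : Cn n}
    (hτ : ∀ᶠ y in 𝓝 z, DifferentiableAt ℂ τ y) : ContDiffAt ℝ ∞ τ z := by
  obtain ⟨ρ, hρ, hb⟩ := Metric.eventually_nhds_iff_ball.1 hτ
  have h3 := Osgood.analyticOnNhd (f := τ) (isOpen_ball (x := z) (ε := ρ))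
    (fun z hz => (hb z hz).differentiableWithinAt)
  exact ((h3 _ (mem_ball_self hρ)).restrictScalars (𝕜 := ℝ)).contDiffAt

/-- The Levi form of the composition with a holomorphic map. -/
lemma LevInv_comp {n : ℕ} {g : Cn n → ℝ} {τ : Cn n → Cn n} {z : Cn n}
    (hτ : ∀ᶠ y in 𝓝 z, DifferentiableAt ℂ τ y) (hg : ContDiffAt ℝ ∞ g (τ z)) (w : Cn n) :
    levC (fun y => g (τ y)) z w = levC g (τ z) (fderiv ℂ τ z w) := by
  have hτs := LevInv_smooth hτ
  have hcomp : ContDiffAt ℝ ∞ (fun y => g (τ y)) z := hg.comp z hτs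
  have hτd : DifferentiableAt ℂ (fderiv ℂ τ) z := by
    obtain ⟨ρ, hρ, hb⟩ := Metric.eventually_nhds_iff_ball.1 hτ
    have h1 := Osgood.differentiableOn_fderiv isOpen_ball
      (fun z hz => (hb z hz).differentiableWithinAt)
    exact (h1 z (mem_ball_self hρ)).differentiableAt (isOpen_ball.mem_nhds (mem_ball_self hρ))
  set T := fderiv ℂ (fderiv ℂ τ) z with hT
  set L := fderiv ℂ τ z with hL
  have hgd := LevLoc_diff hg
  have hg2 := LevLoc_diff2 hg
  have key : ∀ v : Cn n, fderiv ℝ (fderiv ℝ (fun y => g (τ y))) z v v =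
      fderiv ℝ (fderiv ℝ g) (τ z) (L v) (L v) + fderiv ℝ g (τ z) (T v v) := by
    intro v
    rw [LevLoc_two hcomp]
    have hev : (fun y => fderiv ℝ (fun y => g (τ y)) y v) =ᶠ[𝓝 z]
        fun y => fderiv ℝ g (τ y) (fderiv ℂ τ y v) := by
      filter_upwards [hτ, hτs.continuousAt.eventually hgd] with y hy1 hy2
      have h1 : HasFDerivAt τ ((fderiv ℂ τ y).restrictScalars ℝ) y :=
        hy1.hasFDerivAt.restrictScalars ℝ
      have h2 : HasFDerivAt (fun y => g (τ y))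
        ((fderiv ℝ g (τ y)).comp ((fderiv ℂ τ y).restrictScalars ℝ)) y := hy2.hasFDerivAt.comp y h1
      rw [h2.fderiv]
      rfl
    rw [hev.fderiv_eq]
    have hB : HasFDerivAt (fun y => fderiv ℝ g (τ y))
        ((fderiv ℝ (fderiv ℝ g) (τ z)).comp (L.restrictScalars ℝ)) z :=
      hg2.hasFDerivAt.comp z (hτ.self_of_nhds.hasFDerivAt.restrictScalars ℝ)
    have ha : HasFDerivAt (fun y => fderiv ℂ τ y v)
        (((ContinuousLinearMap.apply ℂ (Cn n) v).comp T).restrictScalars ℝ) z :=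
      ((ContinuousLinearMap.apply ℂ (Cn n) v).hasFDerivAt.comp z hτd.hasFDerivAt).restrictScalars ℝ
    rw [(hB.clm_apply ha).fderiv]
    simp only [_root_.add_apply, ContinuousLinearMap.comp_apply, ContinuousLinearMap.flip_apply,
      ContinuousLinearMap.coe_restrictScalars', ContinuousLinearMap.apply_apply]
    ring
  unfold levC
  rw [key, key]
  have h1 : L (Complex.I • w) = Complex.I • L w := map_smul _ _ _
  have h2 : T (Complex.I • w) (Complex.I • w) = - T w w := by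
    rw [map_smul, map_smul, _root_.smul_apply, smul_smul, Complex.I_mul_I, neg_smul, one_smul]
  rw [h1, h2, map_neg]
  ring

theorem s_LevInv : S_LevInv := by
  intro n N M I I' u x h h' hu
  have hI : Et M.z I x := h
  have hI' : Et M.z I' x := h'
  obtain ⟨g, hg1, hg2⟩ := hu
  have hmap : map (M.inc I) (𝓝 (M.mk' I x h)) = 𝓝 x :=
    (M.isOpen_E I).isOpenEmbedding_subtypeVal.map_nhds_eq _
  have hmap' : map (M.inc I') (𝓝 (M.mk' I' x h')) = 𝓝 x :=
    (M.isOpen_E I').isOpenEmbedding_subtypeVal.map_nhds_eq _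
  have hug : ∀ᶠ y in 𝓝 x, u y = g (M.zI I y) := by
    have : ∀ᶠ y in map (M.inc I) (𝓝 (M.mk' I x h)), u y = g (M.zI I y) := eventually_map.2 hg2
    rwa [hmap] at this
  obtain ⟨Z, hZ1, hZ2⟩ := hI'.holAt_z
  let τ : Cn n → Cn n := fun w => prI I (Z w)
  have hτ : ∀ᶠ w in 𝓝 (M.zI I' x), DifferentiableAt ℂ τ w := by
    filter_upwards [hZ1] with w hw
    exact (prI I).differentiableAt.comp w hw
  have hτz : ∀ᶠ y in 𝓝 x, M.zI I y = τ (M.zI I' y) := by
    filter_upwards [hZ2] with y hy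
    change prI I (M.z y) = prI I (Z (zc M.z I' y))
    rw [hy]
    rfl
  have hτx : M.zI I x = τ (M.zI I' x) := hτz.self_of_nhds
  have hg1' : ContDiffAt ℝ ∞ g (τ (M.zI I' x)) := by rw [← hτx]; exact hg1
  have hug' : (fun y => u (M.inc I' y)) =ᶠ[𝓝 (M.mk' I' x h')] (fun w => g (τ w)) ∘ (M.dom I').π := by
    have h1 : ∀ᶠ y in 𝓝 x, u y = g (τ (M.zI I' y)) := by
      filter_upwards [hug, hτz] with y k1 k2
      rw [k1, k2]
    rw [← hmap'] at h1
    exact eventually_map.1 h1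
  refine ⟨⟨fun w => g (τ w), ?_, hug'⟩, ?_⟩
  · exact hg1'.comp _ (LevInv_smooth hτ)
  · intro w
    rw [LevLoc_eq hg2, LevLoc_eq hug']
    have h1 : levC (fun w => g (τ w)) ((M.dom I').π (M.mk' I' x h')) (prI I' (M.A I x w)) =
        levC g (τ (M.zI I' x)) (fderiv ℂ τ (M.zI I' x) (prI I' (M.A I x w))) :=
      LevInv_comp hτ hg1' _
    rw [h1, ← hτx]
    congr 1
    -- the derivative of `τ`
    have h2 : HasRD (M.zI I') M.z (fderiv ℂ Z (M.zI I' x)) x :=
      ⟨Z, hZ1.self_of_nhds.hasFDerivAt, hZ2⟩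
    have h3 : M.A I' x = fderiv ℂ Z (M.zI I' x) := hI'.A_unique h2
    have h4 : HasFDerivAt τ ((prI I).comp (fderiv ℂ Z (M.zI I' x))) (M.zI I' x) :=
      (prI I).hasFDerivAt.comp _ hZ1.self_of_nhds.hasFDerivAt
    rw [h4.fderiv, ContinuousLinearMap.comp_apply, ← h3, ← A_change hI hI', hI.prI_A]

end Pool.Agent.Lib.MP_55bc5f_an
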