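import Pool.Agent.Lib.MP_55bc5f_an.Full.SpecEt
import Pool.Agent.Lib.MP_55bc5f_an.Full.L2.LevComp

set_option autoImplicit false

open scoped Manifold ContDiff Topology ComplexConjugate
open Set Filter Metric MeasureTheory

namespace Pool.Agent.Lib.MP_55bc5f_an

/-- The Levi form of a function on `ℂⁿ`. -/
noncomputable def levC {n : ℕ} (g : Cn n → ℝ) (z w : Cn n) : ℝ :=
  (1 / 4) * (fderiv ℝ (fderiv ℝ g) z w w +
    fderiv ℝ (fderiv ℝ g) z (Complex.I • w) (Complex.I • w))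

lemma LevLoc_eq {n : ℕ} {X : Dom n} {u : X → ℝ} {g : Cn n → ℝ} {x : X} (h : u =ᶠ[𝓝 x] g ∘ X.π)
    (w : Cn n) : Lev X u x w = levC g (X.π x) w := by
  unfold Lev levC
  rw [dR_eq (dR_eventually_eq h)]

lemma LevLoc_diff {n : ℕ} {g : Cn n → ℝ} {z : Cn n} (h : ContDiffAt ℝ ∞ g z) :
    ∀ᶠ y in 𝓝 z, DifferentiableAt ℝ g y := by
  have h1 : ContDiffAt ℝ 1 g z := h.of_le (by exact_mod_cast le_top)
  filter_upwards [h1.eventually (by simp)] with y hy
  exact hy.differentiableAt (by simp)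

lemma LevLoc_diff2 {n : ℕ} {g : Cn n → ℝ} {z : Cn n} (h : ContDiffAt ℝ ∞ g z) :
    DifferentiableAt ℝ (fderiv ℝ g) z :=
  (h.fderiv_right (m := ∞) (by simp)).differentiableAt (by simp)

lemma LevLoc_two {n : ℕ} {g : Cn n → ℝ} {z : Cn n} (h : ContDiffAt ℝ ∞ g z) (v w : Cn n) :
    fderiv ℝ (fderiv ℝ g) z v w = fderiv ℝ (fun y => fderiv ℝ g y w) z v := by
  have h1 := (ContinuousLinearMap.apply ℝ ℝ w).hasFDerivAt.comp z (LevLoc_diff2 h).hasFDerivAt
  have h2 : HasFDerivAt (fun y => fderiv ℝ g y w)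
    ((ContinuousLinearMap.apply ℝ ℝ w).comp (fderiv ℝ (fderiv ℝ g) z)) z := h1
  rw [h2.fderiv]
  rfl

lemma LevLoc_chain {n : ℕ} {g : Cn n → ℝ} {χ : ℝ → ℝ} {z : Cn n} (h : ContDiffAt ℝ ∞ g z)
    (hχ : ContDiffAt ℝ ∞ χ (g z)) (v : Cn n) :
    fderiv ℝ (fderiv ℝ (fun y => χ (g y))) z v v =
      deriv χ (g z) * fderiv ℝ (fderiv ℝ g) z v v + deriv (deriv χ) (g z) * (fderiv ℝ g z v) ^ 2 := by
  have hχ1 : ∀ᶠ t in 𝓝 (g z), DifferentiableAt ℝ χ t := by
    have h1 : ContDiffAt ℝ 1 χ (g z) := hχ.of_le (by exact_mod_cast le_top)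
    filter_upwards [h1.eventually (by simp)] with y hy
    exact hy.differentiableAt (by simp)
  have hχ2 : DifferentiableAt ℝ (deriv χ) (g z) := by
    have h1 : DifferentiableAt ℝ (fderiv ℝ χ) (g z) :=
      (hχ.fderiv_right (m := ∞) (by simp)).differentiableAt (by simp)
    have h2 : deriv χ = fun t => (ContinuousLinearMap.apply ℝ ℝ (1 : ℝ)) (fderiv ℝ χ t) := by
      funext t
      simp
    rw [h2]
    exact (ContinuousLinearMap.apply ℝ ℝ (1 : ℝ)).differentiableAt.comp _ h1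
  have hcomp : ContDiffAt ℝ ∞ (fun y => χ (g y)) z := hχ.comp z h
  rw [LevLoc_two hcomp]
  have hev : (fun y => fderiv ℝ (fun y => χ (g y)) y v) =ᶠ[𝓝 z]
      fun y => deriv χ (g y) * fderiv ℝ g y v := by
    filter_upwards [LevLoc_diff h, h.continuousAt.eventually hχ1] with y hy1 hy2
    have := hy2.hasDerivAt.comp_hasFDerivAt y hy1.hasFDerivAt
    have h3 : HasFDerivAt (fun y => χ (g y)) (deriv χ (g y) • fderiv ℝ g y) y := this
    rw [h3.fderiv]
    simp
  rw [hev.fderiv_eq]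
  have h1 : HasFDerivAt (fun y => deriv χ (g y)) (deriv (deriv χ) (g z) • fderiv ℝ g z) z :=
    hχ2.hasDerivAt.comp_hasFDerivAt z (LevLoc_diff h).self_of_nhds.hasFDerivAt
  have h2 : HasFDerivAt (fun y => fderiv ℝ g y v)
      ((ContinuousLinearMap.apply ℝ ℝ v).comp (fderiv ℝ (fderiv ℝ g) z)) z :=
    (ContinuousLinearMap.apply ℝ ℝ v).hasFDerivAt.comp z (LevLoc_diff2 h).hasFDerivAt
  have h12 : HasFDerivAt (fun y => deriv χ (g y) * fderiv ℝ g y v) _ z := h1.mul h2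
  rw [h12.fderiv]
  simp only [_root_.add_apply, _root_.smul_apply, smul_eq_mul, ContinuousLinearMap.comp_apply,
    ContinuousLinearMap.apply_apply]
  ring

/-- The ball as a domain. -/
noncomputable def LevLoc_ball {n : ℕ} (c : Cn n) (ρ : ℝ) : Dom n where
  carrier := {z : Cn n // z ∈ ball c ρ}
  π := Subtype.val
  hπ := (isOpen_ball.isOpenEmbedding_subtypeVal).isLocalHomeomorph

theorem s_LevLoc : S_LevLoc := by
  intro n X x
  refine ⟨?_, ?_, ?_, ?_, ?_, ?_⟩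
  · intro u v h w
    unfold Lev
    have h1 : dR X u =ᶠ[𝓝 x] dR X v := by
      filter_upwards [h.eventually_nhds] with y hy
      exact dR_congr hy
    rw [dR_congr h1]
  · intro u v hu hv w
    obtain ⟨f, hf1, hf2⟩ := hu
    obtain ⟨g, hg1, hg2⟩ := hv
    have h1 : (fun y => u y + v y) =ᶠ[𝓝 x] (fun z => f z + g z) ∘ X.π := by
      filter_upwards [hf2, hg2] with y h1 h2; simp [h1, h2]
    rw [LevLoc_eq h1, LevLoc_eq hf2, LevLoc_eq hg2]
    have h2 : fderiv ℝ (fun z => f z + g z) =ᶠ[𝓝 (X.π x)] fun z => fderiv ℝ f z + fderiv ℝ g z := by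
      filter_upwards [LevLoc_diff hf1, LevLoc_diff hg1] with z k1 k2
      exact fderiv_fun_add k1 k2
    unfold levC
    rw [h2.fderiv_eq, fderiv_fun_add (LevLoc_diff2 hf1) (LevLoc_diff2 hg1)]
    simp only [_root_.add_apply]
    ring
  · intro u c hu w
    obtain ⟨f, hf1, hf2⟩ := hu
    have h1 : (fun y => c * u y) =ᶠ[𝓝 x] (fun z => c * f z) ∘ X.π := by
      filter_upwards [hf2] with y h1; simp [h1]
    rw [LevLoc_eq h1, LevLoc_eq hf2]
    have h2 : fderiv ℝ (fun z => c * f z) =ᶠ[𝓝 (X.π x)] fun z => c • fderiv ℝ f z := by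
      filter_upwards [LevLoc_diff hf1] with z k1
      exact fderiv_const_mul k1 c
    unfold levC
    rw [h2.fderiv_eq, fderiv_fun_const_smul (LevLoc_diff2 hf1)]
    simp only [_root_.smul_apply, smul_eq_mul]
    ring
  · intro s χ hs hχ w
    obtain ⟨g, hg1, hg2⟩ := hs
    have h0 : s x = g (X.π x) := hg2.self_of_nhds
    rw [h0] at hχ ⊢
    have h1 : (fun y => χ (s y)) =ᶠ[𝓝 x] (fun z => χ (g z)) ∘ X.π := by
      filter_upwards [hg2] with y h1
      simp only [Function.comp_apply] at h1 ⊢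
      rw [h1]
    rw [LevLoc_eq h1, LevLoc_eq hg2, dR_eq hg2]
    unfold levC
    rw [LevLoc_chain hg1 hχ, LevLoc_chain hg1 hχ]
    ring
  · intro h hh
    refine ⟨LevComp_normSq_sm (SmAt.of_hol hh), fun w => ?_⟩
    obtain ⟨g, hg1, hg2⟩ := hh
    obtain ⟨ρ, hρ, hb⟩ := Metric.eventually_nhds_iff_ball.1 hg1
    let B := LevLoc_ball (X.π x) ρ
    have hB : ∀ y : B, HolAt B.π (fun y => g (B.π y)) y := fun y =>
      ⟨g, by
        have : B.π y ∈ ball (X.π x) ρ := y.2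
        filter_upwards [isOpen_ball.mem_nhds this] with z hz
        exact hb z hz, EventuallyEq.refl _ _⟩
    let x₀ : B := (⟨X.π x, mem_ball_self hρ⟩ : {z : Cn n // z ∈ ball (X.π x) ρ})
    have key := (s_LevComp n B).2.2.2.1 (fun y => g (B.π y)) hB x₀ w
    have h1 : Lev B (fun y => ‖g (B.π y)‖ ^ 2) x₀ w = levC (fun z => ‖g z‖ ^ 2) (X.π x) w :=
      LevLoc_eq (g := fun z => ‖g z‖ ^ 2) (EventuallyEq.refl _ _) w
    have h2 : Lev X (fun y => ‖h y‖ ^ 2) x w = levC (fun z => ‖g z‖ ^ 2) (X.π x) w := by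
      apply LevLoc_eq
      filter_upwards [hg2] with y hy
      simp only [Function.comp_apply] at hy ⊢
      rw [hy]
    have h3 : rd B.hπ (fun y => g (B.π y)) x₀ = fderiv ℂ g (X.π x) :=
      HasRD.rd_eq B.hπ ⟨g, hg1.self_of_nhds.hasFDerivAt, EventuallyEq.refl _ _⟩
    have h4 : rd X.hπ h x = fderiv ℂ g (X.π x) :=
      HasRD.rd_eq X.hπ ⟨g, hg1.self_of_nhds.hasFDerivAt, hg2⟩
    rw [h2, ← h1, key, h3, h4]
  · intro h hh hx
    refine ⟨(LevComp_normSq_sm (SmAt.of_hol hh)).comp (F := Real.log)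
      (Real.contDiffAt_log.2 (by positivity)), fun w => ?_⟩
    obtain ⟨g, hg1, hg2⟩ := hh
    obtain ⟨ρ, hρ, hb⟩ := Metric.eventually_nhds_iff_ball.1 hg1
    let B := LevLoc_ball (X.π x) ρ
    have hB : ∀ y : B, HolAt B.π (fun y => g (B.π y)) y := fun y =>
      ⟨g, by
        have : B.π y ∈ ball (X.π x) ρ := y.2
        filter_upwards [isOpen_ball.mem_nhds this] with z hz
        exact hb z hz, EventuallyEq.refl _ _⟩
    let x₀ : B := (⟨X.π x, mem_ball_self hρ⟩ : {z : Cn n // z ∈ ball (X.π x) ρ})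
    have h0 : h x = g (X.π x) := hg2.self_of_nhds
    have key := (s_LevComp n B).2.2.2.2 (fun y => g (B.π y)) hB x₀ (by
      rw [h0] at hx; exact hx) w
    have h1 : Lev B (fun y => Real.log (‖g (B.π y)‖ ^ 2)) x₀ w =
        levC (fun z => Real.log (‖g z‖ ^ 2)) (X.π x) w :=
      LevLoc_eq (g := fun z => Real.log (‖g z‖ ^ 2)) (EventuallyEq.refl _ _) w
    have h2 : Lev X (fun y => Real.log (‖h y‖ ^ 2)) x w =
        levC (fun z => Real.log (‖g z‖ ^ 2)) (X.π x) w := by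
      apply LevLoc_eq
      filter_upwards [hg2] with y hy
      simp only [Function.comp_apply] at hy ⊢
      rw [hy]
    rw [h2, ← h1, key]

end Pool.Agent.Lib.MP_55bc5f_an
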