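import Pool.Agent.Lib.MP_55bc5f_an.Full.SpecEt

set_option autoImplicit false

open scoped Manifold ContDiff Topology ComplexConjugate
open Set Filter Metric MeasureTheory

namespace Pool.Agent.Lib.MP_55bc5f_an

lemma levZ_sum (hL : S_LevLoc) {n : ℕ} (X : Dom n) (x : X) {ι : Type} (s : Finset ι)
    (H : ι → X → ℂ) (hH : ∀ i ∈ s, HolAt X.π (H i) x) :
    SmAt X (fun y => ∑ i ∈ s, ‖H i y‖ ^ 2) x ∧ ∀ w, Lev X (fun y => ∑ i ∈ s, ‖H i y‖ ^ 2) x w =
      ∑ i ∈ s, ‖rd X.hπ (H i) x w‖ ^ 2 := by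
  classical
  obtain ⟨_, hadd, hsmul, hcomp, hsq, hlog⟩ := hL n X x
  induction s using Finset.induction_on with
  | empty =>
    refine ⟨by simpa using SmAt.const (0 : ℝ) x, fun w => ?_⟩
    have h1 := hsmul (fun _ => (0 : ℝ)) 0 (SmAt.const 0 x) w
    simpa using h1
  | insert a s ha ih =>
    obtain ⟨h1, h2⟩ := ih fun i hi => hH i (Finset.mem_insert_of_mem hi)
    obtain ⟨h3, h4⟩ := hsq (H a) (hH a (Finset.mem_insert_self a s))
    simp only [Finset.sum_insert ha]
    refine ⟨h3.add h1, fun w => ?_⟩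
    rw [hadd _ _ h3 h1 w, h4 w, h2 w]

lemma levZ_rd {n N : ℕ} (M : LM n N) (I : Fin n → Fin N) (x : M.dom I) (k : Fin N) (w : Cn n) :
    rd (M.dom I).hπ (fun y => M.z (M.inc I y) k) x w = M.A I (M.inc I x) w k := by
  have h1 : HasRD (M.dom I).π (fun y => M.z (M.inc I y)) (M.A I (M.inc I x)) x :=
    hasRD_dom.2 (Et.hasRD_A (show Et M.z I (M.inc I x) from x.2))
  have h2 := h1.clm (ContinuousLinearMap.proj (R := ℂ) (φ := fun _ : Fin N => ℂ) k)
  have h3 := HasRD.rd_eq (M.dom I).hπ h2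
  have h4 := congrArg (fun L : Cn n →L[ℂ] ℂ => L w) h3
  simpa using h4

lemma levZ_inj {n N : ℕ} (M : LM n N) (I : Fin n → Fin N) {x : M} (h : Et M.z I x) :
    Function.Injective I := by
  intro a b hab
  by_contra hne
  have h1 := h.A_apply (Pi.single a 1) a
  have h2 := h.A_apply (Pi.single a 1) b
  rw [hab, h2, Pi.single_eq_same, Pi.single_eq_of_ne (Ne.symm hne)] at h1
  exact zero_ne_one h1

lemma levZ_nsq {n N : ℕ} (M : LM n N) (I : Fin n → Fin N) {x : M} (h : Et M.z I x) (w : Cn n) :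
    nsq w ≤ nsq (M.A I x w) := by
  classical
  have hinj := levZ_inj M I h
  unfold nsq
  calc ∑ j, ‖w j‖ ^ 2 = ∑ j, ‖M.A I x w (I j)‖ ^ 2 := by
        refine Finset.sum_congr rfl fun j _ => ?_
        rw [h.A_apply]
    _ = ∑ k ∈ Finset.univ.image I, ‖M.A I x w k‖ ^ 2 := by
        rw [Finset.sum_image fun a _ b _ hab => hinj hab]
    _ ≤ ∑ k, ‖M.A I x w k‖ ^ 2 :=
        Finset.sum_le_univ_sum_of_nonneg fun k => by positivity

theorem s_LevZ (hLevComp : S_LevComp) (hLevLoc : S_LevLoc) : S_LevZ := by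
  intro n N M I
  have hz : ∀ (x : M.dom I) (k : Fin N), HolAt (M.dom I).π (fun y => M.z (M.inc I y) k) x :=
    fun x k => holAt_dom.2 (holAt_coord M.z k (M.inc I x))
  have hG : ∀ (x : M.dom I) (K : Fin n → Fin N),
      HolAt (M.dom I).π (fun y => M.GJ I K (M.inc I y)) x :=
    fun x K => holAt_dom.2 (Et.holAt_GJ (show Et M.z I (M.inc I x) from x.2) K)
  have h1 : ∀ x : M.dom I, SmAt (M.dom I) (fun y => nsq (M.z (M.inc I y))) x ∧
      ∀ w, Lev (M.dom I) (fun y => nsq (M.z (M.inc I y))) x w = nsq (M.A I (M.inc I x) w) := by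
    intro x
    obtain ⟨e1, e2⟩ := levZ_sum hLevLoc (M.dom I) x Finset.univ
      (fun k y => M.z (M.inc I y) k) (fun k _ => hz x k)
    refine ⟨e1, fun w => ?_⟩
    have e3 := e2 w
    simp only [levZ_rd] at e3
    exact e3
  have h2 : ∀ x : M.dom I, SmAt (M.dom I) (fun y => M.gs I (M.inc I y)) x := fun x =>
    (levZ_sum hLevLoc (M.dom I) x Finset.univ (fun K y => M.GJ I K (M.inc I y))
      (fun K _ => hG x K)).1
  refine ⟨fun x => (h1 x).1, fun y w => (h1 y).2 w, fun y w => ?_, h2, fun x => ?_, fun y w => ?_⟩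
  · exact levZ_nsq M I (show Et M.z I (M.inc I y) from y.2) w
  · exact ((SmAt.const (1 : ℝ) x).add (h1 x).1).mul (h2 x)
  · let H : (Fin n → Fin N) × Option (Fin N) → M.dom I → ℂ := fun p y =>
      match p.2 with
      | none => M.GJ I p.1 (M.inc I y)
      | some k => M.z (M.inc I y) k * M.GJ I p.1 (M.inc I y)
    have hH : ∀ p ∈ (Finset.univ : Finset ((Fin n → Fin N) × Option (Fin N))),
        HolAt (M.dom I).π (H p) y := by
      rintro ⟨K, o⟩ _
      cases o with
      | none => exact hG y K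
      | some k => exact (hz y k).mul' (hG y K)
    have hfun : (fun y : M.dom I => (1 + nsq (M.z (M.inc I y))) * M.gs I (M.inc I y)) =
        fun y => ∑ p, ‖H p y‖ ^ 2 := by
      funext y
      rw [Fintype.sum_prod_type]
      unfold LM.gs
      rw [Finset.mul_sum]
      refine Finset.sum_congr rfl fun K _ => ?_
      rw [Fintype.sum_option]
      simp only [H, norm_mul, mul_pow]
      rw [← Finset.sum_mul]
      unfold nsq
      ring
    obtain ⟨_, e2⟩ := levZ_sum hLevLoc (M.dom I) y Finset.univ H hH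
    rw [hfun, e2 w, Fintype.sum_prod_type]
    have h3 : nsq (M.A I (M.inc I y) w) ≤ ∑ o, ‖rd (M.dom I).hπ (H (I, o)) y w‖ ^ 2 := by
      rw [Fintype.sum_option]
      have h4 : ∀ k, rd (M.dom I).hπ (H (I, some k)) y w = M.A I (M.inc I y) w k := by
        intro k
        have h5 : H (I, some k) = fun y => M.z (M.inc I y) k := by
          funext y'
          simp only [H]
          rw [Et.GJ_self (show Et M.z I (M.inc I y') from y'.2), mul_one]
        rw [h5, levZ_rd]
      simp only [h4]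
      have h6 : 0 ≤ ‖rd (M.dom I).hπ (H (I, none)) y w‖ ^ 2 := by positivity
      have h7 : nsq (M.A I (M.inc I y) w) = ∑ k, ‖M.A I (M.inc I y) w k‖ ^ 2 := rfl
      rw [h7]
      linarith
    have h8 : ∑ o, ‖rd (M.dom I).hπ (H (I, o)) y w‖ ^ 2 ≤
        ∑ K, ∑ o, ‖rd (M.dom I).hπ (H (K, o)) y w‖ ^ 2 :=
      Finset.single_le_sum (f := fun K => ∑ o, ‖rd (M.dom I).hπ (H (K, o)) y w‖ ^ 2)
        (fun K _ => Finset.sum_nonneg fun o _ => by positivity) (Finset.mem_univ I)
    exact (levZ_nsq M I (show Et M.z I (M.inc I y) from y.2) w).trans (h3.trans h8)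

end Pool.Agent.Lib.MP_55bc5f_an
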