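import Pool.Agent.Lib.MP_55bc5f_an.Full.Et.SolInv

set_option autoImplicit false

open scoped Manifold ContDiff Topology ComplexConjugate
open Set Filter Metric MeasureTheory

namespace Pool.Agent.Lib.MP_55bc5f_an

theorem s_LocSol (hSolInv : S_SolInv) : S_LocSol := by
  classical
  intro n N M θ₁ θ₂ θ₃ hhol hcl x
  obtain ⟨hinv, -, -⟩ := hSolInv n N M θ₁ θ₂ θ₃
  obtain ⟨I, hI⟩ := M.et x
  let x₀ : M.dom I := M.mk' I x hI
  have hmap := SolInv_map (M := M) (I := I) x₀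
  let Θ : M.dom I → (Cn n →L[ℂ] ℂ) × (Cn n →L[ℂ] ℂ) × (Cn n →L[ℂ] ℂ) := fun y =>
    (M.fr I θ₁ (M.inc I y), M.fr I θ₂ (M.inc I y), M.fr I θ₃ (M.inc I y))
  obtain ⟨w₀, hw₀⟩ := exists_solution (M.dom I).hπ (Θ := Θ) (y := x₀)
    ((holAt_dom (M := M) (I := I) (F := M.fr I θ₁) (x := x₀)).2 ((hhol x).1 I hI))
    ((holAt_dom (M := M) (I := I) (F := M.fr I θ₂) (x := x₀)).2 ((hhol x).2.1 I hI))
    ((holAt_dom (M := M) (I := I) (F := M.fr I θ₃) (x := x₀)).2 ((hhol x).2.2 I hI)) (Eventually.of_forall fun y => hcl (M.inc I y) I y.2)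
  let w : M → CAff := fun y => if h : y ∈ M.E I then w₀ (M.mk' I y h) else 1
  have hw : ∀ y : M.dom I, w (M.inc I y) = w₀ y := fun y => by
    have : w (M.inc I y) = w₀ (M.mk' I (M.inc I y) y.2) := dif_pos y.2
    rw [this]
    rfl
  have h1 : ∀ᶠ y in 𝓝 x₀, SolE M θ₁ θ₂ θ₃ w (M.inc I y) := by
    filter_upwards [hw₀] with y hy
    have hy' : Et M.z I (M.inc I y) := y.2
    apply hinv w I (M.inc I y) hy'
    apply SolInv_dom.1
    simp only [hw]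
    exact hy
  have h2 : ∀ᶠ y in 𝓝 x, SolE M θ₁ θ₂ θ₃ w y := by
    have h3 : ∀ᶠ y in map (M.inc I) (𝓝 x₀), SolE M θ₁ θ₂ θ₃ w y := eventually_map.2 h1
    rw [hmap] at h3
    exact h3
  obtain ⟨O, hO1, hO2, hO3⟩ := _root_.eventually_nhds_iff.1 h2
  exact ⟨w, O, hO2, hO3, hO1⟩

end Pool.Agent.Lib.MP_55bc5f_an
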