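import Pool.Agent.Lib.MP_55bc5f_an.Full.SpecEt

/-!
# The main theorem on extension of holomorphic maps to `X_0`
-/

set_option autoImplicit false

open scoped Manifold ContDiff Topology ComplexConjugate
open Set Filter Metric MeasureTheory

namespace Pool.Agent.Lib.MP_55bc5f_an

lemma MainPos_solE_congr {n N : ℕ} {M : LM n N} {θ₁ θ₂ θ₃ θ₁' θ₂' θ₃' : M → (Cn N →L[ℂ] ℂ)}
    {w : M → CAff} {x : M} (h : SolE M θ₁ θ₂ θ₃ w x)
    (h1 : ∀ I, Et M.z I x → M.fr I θ₁' x = M.fr I θ₁ x)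
    (h2 : ∀ I, Et M.z I x → M.fr I θ₂' x = M.fr I θ₂ x)
    (h3 : ∀ I, Et M.z I x → M.fr I θ₃' x = M.fr I θ₃ x) : SolE M θ₁' θ₂' θ₃' w x := by
  intro I hI
  apply (h I hI).congr (EventuallyEq.refl _ _)
  simp only [h1 I hI, h2 I hI, h3 I hI]

theorem s_MainPos (hInj : S_Inj) (hFormU : S_FormU) (hFormE : S_FormE) (hClosed : S_Closed)
    (hSolInv : S_SolInv) (hLocSol : S_LocSol) (hSys : S_Sys) : S_MainPos := by
  intro n N hn E hE hEc U hUo hUc hext f hf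
  obtain ⟨θ₁, θ₂, θ₃, hθ⟩ := hFormU n N E U hUo f hf
  obtain ⟨η₁, hη₁, hη₁'⟩ := hFormE n N hn E hE hEc U hUo hUc.nonempty hext θ₁ fun x hx => (hθ x hx).1
  obtain ⟨η₂, hη₂, hη₂'⟩ := hFormE n N hn E hE hEc U hUo hUc.nonempty hext θ₂ fun x hx =>
    (hθ x hx).2.1
  obtain ⟨η₃, hη₃, hη₃'⟩ := hFormE n N hn E hE hEc U hUo hUc.nonempty hext θ₃ fun x hx =>
    (hθ x hx).2.2.1
  -- local lifts are solutions of the extended system
  have hlift : ∀ x ∈ U, ∃ v : E → CAff, (∀ᶠ y in 𝓝 x, f y = PP (v y)) ∧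
      ∀ᶠ y in 𝓝 x, SolE E η₁ η₂ η₃ v y := by
    intro x hx
    obtain ⟨-, -, -, v, -, hv1, hv2⟩ := hθ x hx
    refine ⟨v, hv1, ?_⟩
    filter_upwards [hv2, hUo.mem_nhds hx] with y hy hyU
    exact MainPos_solE_congr hy (hη₁' y hyU) (hη₂' y hyU) (hη₃' y hyU)
  have hhol : ∀ x, HolForm E η₁ x ∧ HolForm E η₂ x ∧ HolForm E η₃ x := fun x =>
    ⟨hη₁ x, hη₂ x, hη₃ x⟩
  have hcl := hClosed n N E hEc η₁ η₂ η₃ hhol U hUo hUc.nonempty fun x hx => by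
    obtain ⟨v, -, hv⟩ := hlift x hx
    exact ⟨v, hv⟩
  choose w O hOo hxO hw using hLocSol n N E η₁ η₂ η₃ hhol hcl
  obtain ⟨-, hcst, hCH⟩ := hSolInv n N E η₁ η₂ η₃
  have htr : ∀ i k, ∀ y ∈ O i ∩ O k, ∀ᶠ y' in 𝓝 y,
      w i y' * (w k y')⁻¹ = w i y * (w k y)⁻¹ := by
    rintro i k y ⟨hyi, hyk⟩
    apply hcst (w k) (w i) y
    filter_upwards [(hOo i).mem_nhds hyi, (hOo k).mem_nhds hyk] with y' h1 h2
    exact ⟨hw k y' h2, hw i y' h1⟩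
  have hloc : ∀ x ∈ U, ∀ᶠ x' in 𝓝 x, act (f x') (w x x')⁻¹ = act (f x) (w x x)⁻¹ := by
    intro x hx
    obtain ⟨v, hv1, hv2⟩ := hlift x hx
    have h1 : ∀ᶠ y in 𝓝 x, SolE E η₁ η₂ η₃ (w x) y ∧ SolE E η₁ η₂ η₃ v y := by
      filter_upwards [(hOo x).mem_nhds (hxO x), hv2] with y h1 h2
      exact ⟨hw x y h1, h2⟩
    filter_upwards [hcst _ _ _ h1, hv1] with y h2 h3
    rw [h3, hv1.self_of_nhds, act_PP, act_PP, h2]
  obtain ⟨f', hf'1, hf'2⟩ := hSys E Y0 CAff inferInstance inferInstance E.locallyConnected hEc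
    act act_act act_one O hOo hxO w htr U hUo hUc f hloc (by
      intro M _ _ _ _ p s hp hs hps
      exact hInj n N hn E hE hEc U hUo hUc.nonempty hext M p s hp hs hps)
  refine ⟨f', ?_, hf'1⟩
  intro y
  set ζ : Y0 := act (f' y) (w y y)⁻¹ with hζ
  have h0 : CHolAt E.z (fun y' => lft ζ * w y y') y := by
    apply hCH (w y) y (lft ζ)
    filter_upwards [(hOo y).mem_nhds (hxO y)] with y' h1
    exact hw y y' h1
  have h1 : HolMapAt E.z (XX 0) (fun y' => PP (lft ζ * w y y')) y := holMapAt_PP h0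
  apply h1.congr
  filter_upwards [hf'2 y] with y' hy'
  change act ζ (w y y') = f' y'
  rw [hζ, ← hy', act_act, inv_mul_cancel, act_one]

end Pool.Agent.Lib.MP_55bc5f_an
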