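import Pool.Agent.Lib.MP_55bc5f_an.Full.SpecEt

/-!
# The theorem of Poincaré and Volterra for coverings
-/

set_option autoImplicit false

open scoped Manifold ContDiff Topology ComplexConjugate
open Set Filter Metric MeasureTheory

namespace Pool.Agent.Lib.MP_55bc5f_an

/-- Abstract version: spaces covered by sheets. -/
theorem pv_abs {M ι : Type} [TopologicalSpace M] [ConnectedSpace M] [Countable ι] (O : ι → Set M)
    (L : ι → Type) (lab : ∀ i, M → L i) (hcov : ∀ x, ∃ i, x ∈ O i)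
    (hopen : ∀ i, ∀ y ∈ O i, IsOpen {y' | y' ∈ O i ∧ lab i y' = lab i y})
    (hsc : ∀ i, ∀ y ∈ O i, SecondCountableTopology
      ({y' | y' ∈ O i ∧ lab i y' = lab i y} : Set M)) : SecondCountableTopology M := by
  classical
  have hD : ∀ (i : ι) (y : M), ∃ D : Set M, D.Countable ∧ (y ∈ O i →
      D ⊆ {y' | y' ∈ O i ∧ lab i y' = lab i y} ∧ ∀ V : Set M, IsOpen V →
        (V ∩ {y' | y' ∈ O i ∧ lab i y' = lab i y}).Nonempty → (V ∩ D).Nonempty) := by
    intro i y
    by_cases hy : y ∈ O i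
    · have _i := hsc i y hy
      obtain ⟨s, hs, hd⟩ := TopologicalSpace.exists_countable_dense
        ({y' | y' ∈ O i ∧ lab i y' = lab i y} : Set M)
      refine ⟨Subtype.val '' s, hs.image _, fun _ => ⟨?_, ?_⟩⟩
      · rintro _ ⟨x, -, rfl⟩
        exact x.2
      · rintro V hV ⟨x, hxV, hx⟩
        obtain ⟨z, hz1, hz2⟩ := hd.exists_mem_open (hV.preimage continuous_subtype_val)
          ⟨⟨x, hx⟩, hxV⟩
        exact ⟨z.1, hz2, mem_image_of_mem _ hz1⟩
    · exact ⟨∅, countable_empty, fun h => absurd h hy⟩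
  choose D hDc hD' using hD
  obtain ⟨y₀⟩ := (inferInstance : Nonempty M)
  let C : ℕ → Set M := fun m => Nat.rec {y₀} (fun _ s => ⋃ y ∈ s, ⋃ i, D i y) m
  have hC : ∀ m, (C m).Countable := by
    intro m
    induction m with
    | zero => exact countable_singleton _
    | succ m ih => exact ih.biUnion fun y _ => countable_iUnion fun i => hDc i y
  let C' : Set M := ⋃ m, C m
  have hC' : C'.Countable := countable_iUnion hC
  have hstep : ∀ y ∈ C', ∀ i, D i y ⊆ C' := by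
    intro y hy i z hz
    obtain ⟨m, hm⟩ := mem_iUnion.1 hy
    refine mem_iUnion.2 ⟨m + 1, ?_⟩
    exact mem_biUnion hm (mem_iUnion.2 ⟨i, hz⟩)
  let W : Set M := {x | ∃ y ∈ C', ∃ i, y ∈ O i ∧ x ∈ {y' | y' ∈ O i ∧ lab i y' = lab i y}}
  have hWo : IsOpen W := by
    rw [isOpen_iff_mem_nhds]
    rintro x ⟨y, hy, i, hyi, hx⟩
    exact Filter.mem_of_superset ((hopen i y hyi).mem_nhds hx) fun x' hx' => ⟨y, hy, i, hyi, hx'⟩
  have hWc : IsClosed W := by
    rw [← isOpen_compl_iff, isOpen_iff_mem_nhds]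
    intro x hx
    obtain ⟨i, hi⟩ := hcov x
    refine Filter.mem_of_superset ((hopen i x hi).mem_nhds ⟨hi, rfl⟩) ?_
    rintro x' ⟨hx'1, hx'2⟩ ⟨y, hy, j, hyj, hx'3⟩
    apply hx
    obtain ⟨z, ⟨hz1, hz2⟩, hz3⟩ := (hD' j y hyj).2 _ (hopen i x hi) ⟨x', ⟨hx'1, hx'2⟩, hx'3⟩
    exact ⟨z, hstep y hy j hz3, i, hz1, hi, hz2.symm⟩
  have hWne : W.Nonempty := by
    obtain ⟨i, hi⟩ := hcov y₀
    exact ⟨y₀, y₀, mem_iUnion.2 ⟨0, rfl⟩, i, hi, hi, rfl⟩
  have hWu : W = univ := IsClopen.eq_univ ⟨hWc, hWo⟩ hWne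
  have _i1 : Countable C' := hC'.to_subtype
  let J := {q : C' × ι // (q.1 : M) ∈ O q.2}
  have _i2 : Countable J := inferInstance
  let U : J → Set M := fun q => {y' | y' ∈ O q.1.2 ∧ lab q.1.2 y' = lab q.1.2 q.1.1}
  have _i3 : ∀ q, SecondCountableTopology (U q) := fun q => hsc q.1.2 q.1.1 q.2
  refine TopologicalSpace.secondCountableTopology_of_countable_cover (U := U)
    (fun q => hopen q.1.2 q.1.1 q.2) ?_
  rw [eq_univ_iff_forall]
  intro x
  have hx : x ∈ W := by rw [hWu]; trivial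
  obtain ⟨y, hy, i, hyi, hx⟩ := hx
  exact mem_iUnion.2 ⟨⟨(⟨y, hy⟩, i), hyi⟩, hx⟩

theorem s_PV : S_PV := by
  classical
  intro B M _ _ hB hM p hp
  choose hdisc U hbU hUo hpU H hH using hp
  obtain ⟨T, hT, hTu⟩ := TopologicalSpace.countable_cover_nhds
    (fun b => (hUo b).mem_nhds (hbU b))
  have _i := hT.to_subtype
  have hpl : IsLocalHomeomorph p := IsCoveringMap.isLocalHomeomorph
    (fun b => ⟨hdisc b, U b, hbU b, hUo b, hpU b, H b, hH b⟩)
  let lab : ∀ i : T, M → Option (p ⁻¹' {(i : B)}) := fun i y =>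
    if h : p y ∈ U i then some (H i ⟨y, h⟩).2 else none
  have hlab : ∀ (i : T) (y : M) (h : p y ∈ U i), lab i y = some (H i ⟨y, h⟩).2 := fun i y h =>
    dif_pos h
  have hset : ∀ (i : T) (y : M) (h : p y ∈ U i), {y' | y' ∈ p ⁻¹' U i ∧ lab i y' = lab i y} =
      Subtype.val '' ((fun z => (H i z).2) ⁻¹' {(H i ⟨y, h⟩).2}) := by
    intro i y h
    ext y'
    constructor
    · rintro ⟨h1, h2⟩
      refine ⟨⟨y', h1⟩, ?_, rfl⟩
      rw [hlab i y' h1, hlab i y h] at h2
      exact Option.some_injective _ h2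
    · rintro ⟨z, hz, rfl⟩
      refine ⟨z.2, ?_⟩
      rw [hlab i z.1 z.2, hlab i y h]
      exact congrArg some hz
  have hopen : ∀ (i : T) (y : M), y ∈ p ⁻¹' U i →
      IsOpen {y' | y' ∈ p ⁻¹' U i ∧ lab i y' = lab i y} := by
    intro i y h
    rw [hset i y h]
    have _i2 := hdisc i
    refine (hpU i).isOpenMap_subtype_val _ ?_
    exact (isOpen_discrete _).preimage (continuous_snd.comp (H i).continuous)
  refine pv_abs (fun i : T => p ⁻¹' U i) _ lab ?_ hopen ?_
  · intro x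
    have hx : p x ∈ ⋃ b ∈ T, U b := by rw [hTu]; trivial
    obtain ⟨b, hb, hx⟩ := mem_iUnion₂.1 hx
    exact ⟨⟨b, hb⟩, hx⟩
  · intro i y h
    set S : Set M := {y' | y' ∈ p ⁻¹' U i ∧ lab i y' = lab i y} with hS
    have h1 : IsLocalHomeomorph (fun z : S => p z) :=
      hpl.comp (hopen i y h).isOpenEmbedding_subtypeVal.isLocalHomeomorph
    have h2 : Function.Injective (fun z : S => p z) := by
      rintro ⟨z, hz1, hz2⟩ ⟨z', hz1', hz2'⟩ he
      apply Subtype.ext
      have he' : p z = p z' := he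
      have h3 : (H i ⟨z, hz1⟩).2 = (H i ⟨z', hz1'⟩).2 := by
        have := hz2.trans hz2'.symm
        rw [hlab i z hz1, hlab i z' hz1'] at this
        exact Option.some_injective _ this
      have h4 : (H i ⟨z, hz1⟩).1 = (H i ⟨z', hz1'⟩).1 := by
        apply Subtype.ext
        rw [hH, hH]
        exact he'
      exact Subtype.mk.inj ((H i).injective (Prod.ext h4 h3))
    have h5 := h1.isOpenEmbedding_of_injective h2
    exact h5.isEmbedding.secondCountableTopology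

end Pool.Agent.Lib.MP_55bc5f_an
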