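import Pool.Agent.Lib.MP_55bc5f_an.Full.SpecEt
import Pool.Agent.Lib.MP_55bc5f_an.Full.L2.MeanRad

/-!
# Rem1: Cauchy's formula for square integrable functions of one variable
-/

set_option autoImplicit false

open scoped Manifold ContDiff Topology ComplexConjugate
open Set Filter Metric MeasureTheory

namespace Pool.Agent.Lib.MP_55bc5f_an

/-- The mean value inequality in one variable. -/
private theorem rem1_mv (h : ℂ → ℂ) (z : ℂ) (ρ : ℝ) (hρ : 0 < ρ)
    (hd : DifferentiableOn ℂ h (ball z ρ)) (hi : IntegrableOn (fun t => ‖h t‖ ^ 2) (ball z ρ)) :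
    ‖h z‖ ^ 2 * (Real.pi * ρ ^ 2) ≤ ∫ t in ball z ρ, ‖h t‖ ^ 2 := by
  let E : Cn 1 ≃ᵐ ℂ := (MeasurableEquiv.funUnique (Fin 1) ℂ).trans
    (Homeomorph.addLeft z).toMeasurableEquiv
  have hE : ∀ w : Cn 1, E w = z + w 0 := fun w => rfl
  have hEp : MeasurePreserving E volume volume :=
    (measurePreserving_add_left volume z).comp (volume_preserving_funUnique (Fin 1) ℂ)
  have hnorm : ∀ w : Cn 1, ‖w‖ = ‖w 0‖ := by
    intro w
    apply le_antisymm
    · rw [pi_norm_le_iff_of_nonneg (norm_nonneg _)]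
      intro i
      rw [Subsingleton.elim i 0]
    · exact norm_le_pi_norm w 0
  have hpre : E ⁻¹' ball z ρ = ball (0 : Cn 1) ρ := by
    ext w
    rw [mem_preimage, hE, mem_ball, dist_eq_norm, add_sub_cancel_left, mem_ball_zero_iff, hnorm]
  have hm := s_MeanRad 1 ρ hρ (fun w => h (z + w 0)) (fun _ => 1) ?_ continuous_const
    (fun _ => zero_le_one) (fun _ _ _ => rfl) ?_
  · have h1 : ∫ w in ball (0 : Cn 1) ρ, ‖h (z + w 0)‖ ^ 2 * 1 = ∫ t in ball z ρ, ‖h t‖ ^ 2 := by
      rw [← hpre]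
      simp only [mul_one]
      exact hEp.setIntegral_preimage_emb E.measurableEmbedding (fun t => ‖h t‖ ^ 2) (ball z ρ)
    have h2 : ∫ _ in ball (0 : Cn 1) ρ, (1 : ℝ) = Real.pi * ρ ^ 2 := by
      rw [← hpre]
      have h3 := hEp.setIntegral_preimage_emb E.measurableEmbedding (fun _ => (1 : ℝ)) (ball z ρ)
      rw [h3, setIntegral_const, Measure.real, Complex.volume_ball, smul_eq_mul, mul_one,
        ENNReal.toReal_mul, ENNReal.toReal_pow, ENNReal.toReal_ofReal hρ.le]
      simp [mul_comm]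
    rw [h1, h2] at hm
    simpa using hm
  · refine hd.comp ?_ ?_
    · exact (by fun_prop : Differentiable ℂ fun w : Cn 1 => z + w 0).differentiableOn
    · intro w hw
      rw [mem_ball, dist_eq_norm, add_sub_cancel_left, ← hnorm]
      rwa [mem_ball_zero_iff] at hw
  · simp only [mul_one]
    have h1 := (hEp.integrableOn_comp_preimage E.measurableEmbedding
      (f := fun t => ‖h t‖ ^ 2) (s := ball z ρ)).mpr hi
    rw [hpre] at h1
    exact h1

/-- The growth at an isolated singularity. -/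
private theorem rem1_littleO (h : ℂ → ℂ) (c : ℂ) (δ : ℝ) (hδ : 0 < δ)
    (hd : DifferentiableOn ℂ h (ball c δ \ {c}))
    (hi : IntegrableOn (fun t => ‖h t‖ ^ 2) (ball c δ)) :
    (fun z => h z - h c) =o[𝓝[≠] c] fun z => (z - c)⁻¹ := by
  have hne : ∀ᶠ z in 𝓝[≠] c, (z - c)⁻¹ ≠ 0 := by
    filter_upwards [self_mem_nhdsWithin] with z hz
    exact inv_ne_zero (sub_ne_zero.mpr hz)
  have hlim0 : Tendsto (fun z : ℂ => ‖z - c‖) (𝓝[≠] c) (𝓝 0) := by
    have h1 : Tendsto (fun z : ℂ => ‖z - c‖) (𝓝 c) (𝓝 ‖c - c‖) :=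
      (continuous_norm.comp (continuous_id.sub continuous_const)).tendsto c
    rw [sub_self, norm_zero] at h1
    exact h1.mono_left nhdsWithin_le_nhds
  -- the integral over small balls
  have hI : Tendsto (fun z : ℂ => ∫ t in ball c (2 * ‖z - c‖), ‖h t‖ ^ 2
      ∂(volume.restrict (ball c δ))) (𝓝[≠] c) (𝓝 0) := by
    refine hi.integrable.tendsto_setIntegral_nhds_zero ?_
    have h2 : Tendsto (fun z : ℂ => ENNReal.ofReal (2 * ‖z - c‖) ^ 2 * NNReal.pi) (𝓝[≠] c)
        (𝓝 0) := by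
      have h3 : Tendsto (fun z : ℂ => ENNReal.ofReal (2 * ‖z - c‖)) (𝓝[≠] c) (𝓝 0) := by
        have h4 := ENNReal.tendsto_ofReal (hlim0.const_mul 2)
        simpa using h4
      have h5 : Tendsto (fun z : ℂ => ENNReal.ofReal (2 * ‖z - c‖) ^ 2) (𝓝[≠] c) (𝓝 0) := by
        have h6 := ENNReal.Tendsto.pow (n := 2) h3
        simpa using h6
      have h7 := ENNReal.Tendsto.mul_const (b := (NNReal.pi : ENNReal)) h5
        (Or.inr ENNReal.coe_ne_top)
      simpa using h7
    refine tendsto_of_tendsto_of_tendsto_of_le_of_le tendsto_const_nhds h2 (fun _ => zero_le) ?_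
    intro z
    show (volume.restrict (ball c δ)) (ball c (2 * ‖z - c‖)) ≤ _
    calc (volume.restrict (ball c δ)) (ball c (2 * ‖z - c‖)) ≤ volume (ball c (2 * ‖z - c‖)) :=
          Measure.restrict_apply_le _ _
      _ = _ := Complex.volume_ball _ _
  have hbd : ∀ᶠ z in 𝓝[≠] c, ‖h z * (z - c)‖ ^ 2 ≤ Real.pi⁻¹ *
      ∫ t in ball c (2 * ‖z - c‖), ‖h t‖ ^ 2 ∂(volume.restrict (ball c δ)) := by
    have h1 : ∀ᶠ z in 𝓝[≠] c, ‖z - c‖ < δ / 2 := hlim0.eventually (gt_mem_nhds (by positivity))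
    filter_upwards [h1, self_mem_nhdsWithin] with z hz hzc
    have hpos : 0 < ‖z - c‖ := norm_pos_iff.mpr (sub_ne_zero.mpr hzc)
    have hsub : ball z ‖z - c‖ ⊆ ball c (2 * ‖z - c‖) := by
      intro w hw
      rw [mem_ball, dist_eq_norm] at hw ⊢
      calc ‖w - c‖ = ‖(w - z) + (z - c)‖ := by congr 1; ring
        _ ≤ ‖w - z‖ + ‖z - c‖ := norm_add_le _ _
        _ < 2 * ‖z - c‖ := by linarith
    have hsub2 : ball c (2 * ‖z - c‖) ⊆ ball c δ := ball_subset_ball (by linarith)
    have hsub3 : ball z ‖z - c‖ ⊆ ball c δ \ {c} := by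
      intro w hw
      refine ⟨hsub2 (hsub hw), ?_⟩
      rintro rfl
      rw [mem_ball, dist_eq_norm, norm_sub_rev] at hw
      exact lt_irrefl _ hw
    have h2 := rem1_mv h z ‖z - c‖ hpos (hd.mono hsub3) (hi.mono_set (hsub.trans hsub2))
    rw [Measure.restrict_restrict measurableSet_ball, inter_eq_left.mpr hsub2]
    have h3 : ∫ t in ball z ‖z - c‖, ‖h t‖ ^ 2 ≤ ∫ t in ball c (2 * ‖z - c‖), ‖h t‖ ^ 2 := by
      refine setIntegral_mono_set (hi.mono_set hsub2) ?_ hsub.eventuallyLE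
      exact Eventually.of_forall fun t => by positivity
    rw [le_inv_mul_iff₀ Real.pi_pos, norm_mul]
    calc Real.pi * (‖h z‖ * ‖z - c‖) ^ 2 = ‖h z‖ ^ 2 * (Real.pi * ‖z - c‖ ^ 2) := by ring
      _ ≤ _ := h2.trans h3
  have hsq : Tendsto (fun z => ‖h z * (z - c)‖ ^ 2) (𝓝[≠] c) (𝓝 0) := by
    have h1 := hI.const_mul Real.pi⁻¹
    rw [mul_zero] at h1
    exact tendsto_of_tendsto_of_tendsto_of_le_of_le' tendsto_const_nhds h1
      (Eventually.of_forall fun z => by positivity) hbd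
  have hn : Tendsto (fun z => h z * (z - c)) (𝓝[≠] c) (𝓝 0) := by
    rw [tendsto_zero_iff_norm_tendsto_zero]
    have h1 := hsq.sqrt
    rw [Real.sqrt_zero] at h1
    refine h1.congr fun z => ?_
    exact Real.sqrt_sq (norm_nonneg _)
  have hn2 : Tendsto (fun z => h c * (z - c)) (𝓝[≠] c) (𝓝 0) := by
    have h1 : Tendsto (fun z => h c * (z - c)) (𝓝 c) (𝓝 (h c * (c - c))) :=
      (continuous_const.mul (continuous_id.sub continuous_const)).tendsto c
    rw [sub_self, mul_zero] at h1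
    exact h1.mono_left nhdsWithin_le_nhds
  have hfin := hn.sub hn2
  rw [sub_zero] at hfin
  rw [Asymptotics.isLittleO_iff_tendsto']
  · refine hfin.congr fun z => ?_
    rw [div_inv_eq_mul]
    ring
  · filter_upwards [hne] with z hz h0
    exact absurd h0 hz

theorem s_Rem1 : S_Rem1 := by
  intro r R hr hrR g h hg hgr hg0 hh hint
  have hRpos : 0 < R := hr.trans hrR
  have h0R : (0 : ℂ) ∈ ball (0 : ℂ) R := mem_ball_self hRpos
  set U : Set ℂ := {t ∈ ball (0 : ℂ) R | g t ≠ 0} with hU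
  have hUo : IsOpen U := by
    have h1 := hg.continuousOn.isOpen_inter_preimage isOpen_ball
      (isOpen_compl_singleton (x := (0 : ℂ)))
    exact h1
  have han : AnalyticOnNhd ℂ g (ball (0 : ℂ) R) := hg.analyticOnNhd isOpen_ball
  have hiso : ∀ t ∈ ball (0 : ℂ) R, ∀ᶠ z in 𝓝[≠] t, g z ≠ 0 := by
    intro t ht
    by_contra hcon
    rw [Filter.not_eventually] at hcon
    have h1 : ∃ᶠ z in 𝓝[≠] t, g z = 0 := hcon.mono fun z hz => not_not.mp hz
    have h2 := han.eqOn_zero_of_preconnected_of_frequently_eq_zero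
      (convex_ball (0 : ℂ) R).isPreconnected ht h1
    exact hg0 (h2 h0R)
  set k : ℂ → ℂ := fun t => limUnder (𝓝[≠] t) h with hk
  have hkU : ∀ t ∈ U, k t = h t := by
    intro t ht
    have h1 : ContinuousAt h t := (hh.differentiableAt (hUo.mem_nhds ht)).continuousAt
    exact (h1.tendsto.mono_left nhdsWithin_le_nhds).limUnder_eq
  have hkd : ∀ t ∈ ball (0 : ℂ) R, DifferentiableAt ℂ k t := by
    intro t ht
    by_cases hgt : g t = 0
    · have h1 : ∀ᶠ z in 𝓝 t, z ∈ ball (0 : ℂ) R := isOpen_ball.mem_nhds ht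
      have h2 : ∀ᶠ z in 𝓝 t, z ≠ t → g z ≠ 0 := eventually_nhdsWithin_iff.mp (hiso t ht)
      obtain ⟨δ, hδ, hδs⟩ := Metric.eventually_nhds_iff_ball.mp (h1.and h2)
      have hsub : ball t δ \ {t} ⊆ U := fun z hz => ⟨(hδs z hz.1).1, (hδs z hz.1).2 hz.2⟩
      have hint2 : IntegrableOn (fun s => ‖h s‖ ^ 2) (ball t δ) := by
        have h3 : IntegrableOn (fun s => ‖h s‖ ^ 2) (ball t δ \ {t}) := hint.mono_set hsub
        refine h3.congr_set_ae ?_
        exact (sdiff_null_ae_eq_self (measure_singleton t)).symm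
      have h4 := rem1_littleO h t δ hδ (hh.mono hsub) hint2
      have h5 := Complex.differentiableOn_update_limUnder_of_isLittleO
        (isOpen_ball.mem_nhds (mem_ball_self hδ)) (hh.mono hsub) h4
      have h6 := h5.differentiableAt (isOpen_ball.mem_nhds (mem_ball_self hδ))
      refine h6.congr_of_eventuallyEq ?_
      filter_upwards [isOpen_ball.mem_nhds (mem_ball_self hδ)] with s hs
      by_cases hst : s = t
      · subst hst
        rw [Function.update_self]
      · rw [Function.update_of_ne hst]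
        exact hkU s (hsub ⟨hs, hst⟩)
    · have htU : t ∈ U := ⟨ht, hgt⟩
      refine (hh.differentiableAt (hUo.mem_nhds htU)).congr_of_eventuallyEq ?_
      filter_upwards [hUo.mem_nhds htU] with s hs
      exact hkU s hs
  have hkc : DiffContOnCl ℂ k (ball (0 : ℂ) r) := by
    refine DifferentiableOn.diffContOnCl fun t ht => (hkd t ?_).differentiableWithinAt
    have h1 := closure_ball_subset_closedBall ht
    exact closedBall_subset_ball hrR h1
  have hC := hkc.circleIntegral_sub_inv_smul (mem_ball_self hr)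
  rw [hkU 0 ⟨h0R, hg0⟩] at hC
  rw [← hC]
  refine circleIntegral.integral_congr hr.le fun t ht => ?_
  have h1 : ‖t‖ = r := by rwa [mem_sphere_zero_iff_norm] at ht
  have h2 : t ∈ U := by
    refine ⟨?_, hgr t h1⟩
    rw [mem_ball_zero_iff, h1]
    exact hrR
  show t⁻¹ • h t = (t - 0)⁻¹ • k t
  rw [sub_zero, hkU t h2]

end Pool.Agent.Lib.MP_55bc5f_an
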