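import Pool.Agent.Lib.MP_55bc5f_an.Full.SpecEt

/-!
# Separation of the points of a fibre of a covering of a Stein manifold
-/

set_option autoImplicit false

open scoped Manifold ContDiff Topology ComplexConjugate
open Set Filter Metric MeasureTheory

namespace Pool.Agent.Lib.MP_55bc5f_an

namespace SepAux

variable {n N : ℕ}

lemma nsq_proj_le (I : Fin n → Fin N) (v : Cn N) :
    nsq (fun a => v (I a) : Cn n) ≤ n * nsq v := by
  unfold nsq
  have h1 : ∀ a ∈ (Finset.univ : Finset (Fin n)), ‖v (I a)‖ ^ 2 ≤ ∑ j, ‖v j‖ ^ 2 := by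
    intro a _
    exact Finset.single_le_sum (f := fun j => ‖v j‖ ^ 2) (fun j _ => by positivity)
      (Finset.mem_univ (I a))
  calc ∑ a, ‖v (I a)‖ ^ 2 ≤ ∑ _a : Fin n, ∑ j, ‖v j‖ ^ 2 := Finset.sum_le_sum h1
    _ = n * ∑ j, ‖v j‖ ^ 2 := by
        rw [Finset.sum_const, Finset.card_univ, Fintype.card_fin, nsmul_eq_mul]

lemma nsq_nonneg (v : Cn N) : 0 ≤ nsq v := Finset.sum_nonneg fun j _ => by positivity

lemma continuous_nsq : Continuous (fun v : Cn N => nsq v) := by
  unfold nsq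
  fun_prop

end SepAux

open SepAux in
theorem s_Sep (hMeas : S_Meas) (hLevComp : S_LevComp) (hEval : S_Eval) (hConn : S_Conn)
    (hGlue : S_Glue) (hExt : S_Ext) (hLevZ : S_LevZ) (hExh : S_Exh) (hFun : S_Fun) : S_Sep := by
  classical
  intro n N hn E M hE hEc hMc p hp hz a b hpab hab
  have hpl : IsLocalHomeomorph p := hp.isLocalHomeomorph
  obtain ⟨I, hI⟩ := E.et (p a)
  obtain ⟨F, hF1, hF2, -, hF4⟩ := hFun n N hn E hE hEc I (p a) hI
  have ha : a ∈ M.E I := (et_transport hpl hz I a).2 hI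
  have hb : b ∈ M.E I := (et_transport hpl hz I b).2 (by rw [← hpab]; exact hI)
  have hdense : Dense (M.E I) := (hConn n N M hMc I).1 ⟨a, ha⟩
  obtain ⟨μ, hμ⟩ := hMeas n (M.dom I)
  obtain ⟨hZ1, hZ2, hZ3, -, -, -⟩ := hLevZ n N M I
  have hSm : Sm (M.dom I) (fun y => 2 * nsq (M.z (M.inc I y))) :=
    hZ1.comp (F := fun t : ℝ => 2 * t) (by fun_prop)
  have hLev : ∀ x w, 2 * nsq w ≤ Lev (M.dom I) (fun y => 2 * nsq (M.z (M.inc I y))) x w := by
    intro x w
    rw [(hLevComp n (M.dom I)).2.2.1 (fun y => nsq (M.z (M.inc I y))) 2 hZ1 x w, hZ2 x w]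
    have := hZ3 x w
    linarith
  have hexh := hExh n N E M hE p hp hz I
  have hzab : M.z b = M.z a := by rw [hz b, hz a, hpab]
  have hπ : (M.dom I).π (M.mk' I b hb) = (M.dom I).π (M.mk' I a ha) := by
    change (fun k => M.z b (I k)) = fun k => M.z a (I k)
    rw [hzab]
  obtain ⟨h, hh1, hh2, hh3, hh4⟩ := hEval n hn (M.dom I) μ hμ _ _ hexh hSm hLev
    (M.mk' I a ha) (M.mk' I b hb) hπ
  have hne : M.mk' I b hb ≠ M.mk' I a ha := by
    intro h0
    exact hab (congrArg Subtype.val h0).symm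
  have hh3' := hh3 hne
  -- extension by zero
  set h₀ : M → ℂ := fun x => if hx : x ∈ M.E I then h (M.mk' I x hx) else 0 with hh₀
  have h₀inc : ∀ y : M.dom I, h₀ (M.inc I y) = h y := by
    intro y
    have hy : M.inc I y ∈ M.E I := y.2
    rw [hh₀]
    simp only
    rw [dif_pos hy]
    rfl
  have h₀hol : ∀ x ∈ M.E I, HolAt M.z h₀ x := by
    intro x hx
    have h1 : HolAt (M.dom I).π (fun y => h₀ (M.inc I y)) (M.mk' I x hx) := by
      have e1 : (fun y => h₀ (M.inc I y)) = h := funext h₀inc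
      rw [e1]
      exact hh1 _
    exact holAt_dom.1 h1
  have hcont : Continuous h := by
    rw [continuous_iff_continuousAt]
    intro x
    exact (hh1 x).continuousAt (M.dom I).hπ.continuous.continuousAt
  have hinc : Continuous (M.inc I) := continuous_subtype_val
  have hint : ∀ K : Set M, IsCompact K → IntegrableOn
      (fun y => ‖h₀ (M.inc I y)‖ ^ 2 * M.gs I (M.inc I y) ^ 0)
      {y : M.dom I | M.inc I y ∈ K} μ := by
    intro K hK
    obtain ⟨r, hr⟩ : ∃ r : ℝ, ∀ x ∈ K, nsq (M.z x) ≤ r := by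
      have h1 : ContinuousOn (fun x => nsq (M.z x)) K :=
        (continuous_nsq.comp M.cont).continuousOn
      obtain ⟨r, hr⟩ := (hK.image_of_continuousOn h1).bddAbove
      exact ⟨r, fun x hx => hr ⟨x, hx, rfl⟩⟩
    have hSmeas : MeasurableSet {y : M.dom I | M.inc I y ∈ K} :=
      (hK.isClosed.preimage hinc).measurableSet
    have hsub : {y : M.dom I | M.inc I y ∈ K} ⊆ {y | nsq ((M.dom I).π y) ≤ n * r} := by
      intro y hy
      have h1 : nsq ((M.dom I).π y) ≤ n * nsq (M.z (M.inc I y)) :=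
        nsq_proj_le I (M.z (M.inc I y))
      exact h1.trans (mul_le_mul_of_nonneg_left (hr _ hy) (Nat.cast_nonneg n))
    have h2 := ((hh4 (n * r)).mono_set hsub).const_mul (Real.exp (2 * r))
    refine Integrable.mono' h2 ?_ ?_
    · simp only [pow_zero, mul_one, h₀inc]
      exact ((hcont.norm.pow 2).aestronglyMeasurable)
    · refine ae_restrict_of_forall_mem hSmeas ?_
      intro y hy
      simp only [pow_zero, mul_one, h₀inc]
      rw [Real.norm_of_nonneg (by positivity)]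
      have h3 : nsq (M.z (M.inc I y)) ≤ r := hr _ hy
      have h4 : 1 ≤ Real.exp (2 * r) * Real.exp (-(2 * nsq (M.z (M.inc I y)))) := by
        rw [← Real.exp_add]
        apply Real.one_le_exp
        linarith
      calc ‖h y‖ ^ 2 = ‖h y‖ ^ 2 * 1 := (mul_one _).symm
        _ ≤ ‖h y‖ ^ 2 * (Real.exp (2 * r) * Real.exp (-(2 * nsq (M.z (M.inc I y))))) :=
            mul_le_mul_of_nonneg_left h4 (by positivity)
        _ = Real.exp (2 * r) * (‖h y‖ ^ 2 * Real.exp (-(2 * nsq (M.z (M.inc I y))))) := by ring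
  have hext := hExt n N M I hdense μ hμ h₀ 0 h₀hol hint
  obtain ⟨g, hg1, hg2⟩ := hGlue n N M I hdense ℂ (fun x => h₀ x * F (p x)) (by
    intro I'
    obtain ⟨H, hH1, hH2⟩ := hext I'
    obtain ⟨Q, hQ1, hQ2⟩ := hF4 I'
    refine ⟨fun x => H x * Q (p x), ?_, ?_⟩
    · intro x hx
      exact (hH1 x hx).mul' (holAt_transport hpl hz (hQ1 (p x) ((et_transport hpl hz I' x).1 hx)))
    · intro x hx
      have e1 := hH2 x hx
      rw [pow_zero, mul_one] at e1
      have e2 := hQ2 (p x) ⟨(et_transport hpl hz I x).1 hx.1, (et_transport hpl hz I' x).1 hx.2⟩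
      rw [← GJ_transport hpl hz (show Et M.z I' x from hx.2) I] at e2
      simp only
      rw [e1, e2]
      ring)
  refine ⟨g, hg1, ?_⟩
  intro hgab
  have e1 : g a = h (M.mk' I a ha) * F (p a) := by
    rw [hg2 a ha]
    rw [hh₀]
    simp only
    rw [dif_pos ha]
  have e2 : g b = h (M.mk' I b hb) * F (p a) := by
    rw [hg2 b hb]
    rw [hh₀]
    simp only
    rw [dif_pos hb, ← hpab]
  rw [e1, e2] at hgab
  have e3 : h (M.mk' I a ha) = h (M.mk' I b hb) := mul_right_cancel₀ hF2 hgab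
  rw [e3] at hh2
  have e4 : (1 : ℝ) ≤ ‖h (M.mk' I b hb) - 1‖ + ‖h (M.mk' I b hb)‖ := by
    have := norm_sub_le (h (M.mk' I b hb)) (h (M.mk' I b hb) - 1)
    have e5 : h (M.mk' I b hb) - (h (M.mk' I b hb) - 1) = 1 := by ring
    rw [e5, norm_one] at this
    linarith
  linarith

end Pool.Agent.Lib.MP_55bc5f_an
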