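import Pool.Agent.Lib.MP_55bc5f_an.Full.SpecEt

set_option autoImplicit false

open scoped Manifold ContDiff Topology ComplexConjugate
open Set Filter Metric MeasureTheory

namespace Pool.Agent.Lib.MP_55bc5f_an

/-- Solutions on `M.dom I`. -/
lemma SolInv_dom {n N : ℕ} {M : LM n N} {I : Fin n → Fin N}
    {Θ : M → (Cn n →L[ℂ] ℂ) × (Cn n →L[ℂ] ℂ) × (Cn n →L[ℂ] ℂ)} {w : M → CAff} {x : M.dom I} :
    SolAt (M.dom I).π (fun y => Θ (M.inc I y)) (fun y => w (M.inc I y)) x ↔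
      SolAt (M.zI I) Θ w (M.inc I x) := by
  unfold SolAt
  have h1 := hasRD_dom (M := M) (I := I) (F := fun y => (w y).c) (x := x)
    (L := (w (M.inc I x)).c • (Θ (M.inc I x)).1)
  have h2 := hasRD_dom (M := M) (I := I) (F := fun y => (w y).β) (x := x)
    (L := (w (M.inc I x)).c⁻¹ • (Θ (M.inc I x)).2.1)
  have h3 := hasRD_dom (M := M) (I := I) (F := fun y => (w y).δ) (x := x)
    (L := (w (M.inc I x)).c • (Θ (M.inc I x)).2.2)
  rw [← h1, ← h2, ← h3]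

lemma SolInv_map {n N : ℕ} {M : LM n N} {I : Fin n → Fin N} (x : M.dom I) :
    map (M.inc I) (𝓝 x) = 𝓝 (M.inc I x) :=
  (M.isOpen_E I).isOpenEmbedding_subtypeVal.map_nhds_eq x

theorem s_SolInv : S_SolInv := by
  intro n N M θ₁ θ₂ θ₃
  refine ⟨?_, ?_, ?_⟩
  · rintro w I x hI ⟨h1, h2, h3⟩ I' hI'
    refine ⟨?_, ?_, ?_⟩
    · exact HasRD.change_A (L := (w x).c • θ₁ x) hI' hI h1
    · exact HasRD.change_A (L := (w x).c⁻¹ • θ₂ x) hI' hI h2
    · exact HasRD.change_A (L := (w x).c • θ₃ x) hI' hI h3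
  · intro w w' x h
    obtain ⟨I, hI⟩ := M.et x
    let x₀ : M.dom I := M.mk' I x hI
    have hmap := SolInv_map (M := M) (I := I) x₀
    have h1 : ∀ᶠ y in 𝓝 x₀, SolAt (M.dom I).π
        (fun y => (M.fr I θ₁ (M.inc I y), M.fr I θ₂ (M.inc I y), M.fr I θ₃ (M.inc I y)))
          (fun y => w (M.inc I y)) y ∧ SolAt (M.dom I).π
        (fun y => (M.fr I θ₁ (M.inc I y), M.fr I θ₂ (M.inc I y), M.fr I θ₃ (M.inc I y)))
          (fun y => w' (M.inc I y)) y := by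
      have h2 : ∀ᶠ y in map (M.inc I) (𝓝 x₀), SolE M θ₁ θ₂ θ₃ w y ∧ SolE M θ₁ θ₂ θ₃ w' y := by
        rw [hmap]; exact h
      filter_upwards [eventually_map.1 h2] with y hy
      have hy' : Et M.z I (M.inc I y) := y.2
      exact ⟨SolInv_dom.2 (hy.1 I hy'), SolInv_dom.2 (hy.2 I hy')⟩
    have h3 := SolAt.eventually_const (M.dom I).hπ h1
    have h4 : ∀ᶠ y in map (M.inc I) (𝓝 x₀), w' y * (w y)⁻¹ = w' x * (w x)⁻¹ :=
      eventually_map.2 h3
    rw [hmap] at h4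
    exact h4
  · intro w x b h
    obtain ⟨I, hI⟩ := M.et x
    let x₀ : M.dom I := M.mk' I x hI
    have hmap := SolInv_map (M := M) (I := I) x₀
    have h1 : ∀ᶠ y in 𝓝 x₀, SolAt (M.dom I).π
        (fun y => (M.fr I θ₁ (M.inc I y), M.fr I θ₂ (M.inc I y), M.fr I θ₃ (M.inc I y)))
          (fun y => b * w (M.inc I y)) y := by
      have h2 : ∀ᶠ y in map (M.inc I) (𝓝 x₀), SolE M θ₁ θ₂ θ₃ w y := by
        rw [hmap]; exact h
      filter_upwards [eventually_map.1 h2] with y hy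
      have hy' : Et M.z I (M.inc I y) := y.2
      exact (SolInv_dom.2 (hy I hy')).mul_left b
    obtain ⟨k1, k2, k3⟩ := CHolAt.of_solAt (M.dom I).hπ h1
    exact ⟨(holAt_dom (M := M) (I := I) (F := fun y => (b * w y).c) (x := x₀)).1 k1,
      (holAt_dom (M := M) (I := I) (F := fun y => (b * w y).β) (x := x₀)).1 k2,
      (holAt_dom (M := M) (I := I) (F := fun y => (b * w y).δ) (x := x₀)).1 k3⟩

end Pool.Agent.Lib.MP_55bc5f_an
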