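import Pool.Agent.Lib.MP_55bc5f_an.Full.SpecEt

set_option autoImplicit false

open scoped Manifold ContDiff Topology ComplexConjugate
open Set Filter Metric MeasureTheory

namespace Pool.Agent.Lib.MP_55bc5f_an

/-- A covering of a Hausdorff space is Hausdorff. -/
lemma Sys_t2 {B Z : Type} [TopologicalSpace B] [TopologicalSpace Z] [T2Space B] {p : Z → B}
    (hp : IsCoveringMap p) : T2Space Z := by
  refine ⟨fun x y hxy => ?_⟩
  by_cases h : p x = p y
  · exact hp.isSeparatedMap x y h hxy
  · obtain ⟨u, v, hu, hv, hxu, hyv, huv⟩ := t2_separation h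
    exact ⟨p ⁻¹' u, p ⁻¹' v, hu.preimage hp.continuous, hv.preimage hp.continuous, hxu, hyv,
      huv.preimage p⟩

/-- A covering of a connected space, not empty, is onto. -/
lemma Sys_surj {B Z : Type} [TopologicalSpace B] [TopologicalSpace Z] [ConnectedSpace B] [Nonempty Z]
    {p : Z → B} (hp : IsCoveringMap p) : Function.Surjective p := by
  have hcl : IsClopen (range p) := by
    refine ⟨?_, hp.isOpenMap.isOpen_range⟩
    rw [← isOpen_compl_iff, isOpen_iff_mem_nhds]
    intro b hb
    obtain ⟨hd, O, hbO, hO, hO', H, hH⟩ := hp b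
    filter_upwards [hO.mem_nhds hbO] with c hc
    rintro ⟨z, rfl⟩
    apply hb
    refine ⟨(H.symm (⟨b, hbO⟩, (H ⟨z, hc⟩).2)).1, ?_⟩
    rw [← hH, H.apply_symm_apply]
  have h1 : range p = univ := by
    rcases isClopen_iff.1 hcl with h | h
    · obtain ⟨z⟩ := ‹Nonempty Z›
      have : p z ∈ (∅ : Set B) := h ▸ mem_range_self z
      exact absurd this (notMem_empty _)
    · exact h
  exact range_eq_univ.1 h1

theorem s_Sys (hPV : S_PV) (hCompCov : S_CompCov) : S_Sys := by
  intro B Y G _ _ hT2 hSC hLC hC ac hac hac1 O hO hO' w hw U hUo hUc f hf hinj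
  let Z := core ac hac hac1 O hO hO' w hw
  let pr : Z.TotalSpace → B := Z.proj
  have hcov : IsCoveringMap pr := FiberBundle.isCoveringMap (F := Disc Y) (E := Z.Fiber)
  let σ : B → Z.TotalSpace := fun x => ⟨x, (⟨ac (f x) (w x x)⁻¹⟩ : Disc Y)⟩
  have hσ : ContinuousOn σ U := by
    intro x hx
    apply ContinuousAt.continuousWithinAt
    rw [FiberBundle.continuousAt_totalSpace]
    refine ⟨continuousAt_id, ?_⟩
    have h1 : ∀ᶠ x' in 𝓝 x, ((trivializationAt (Disc Y) Z.Fiber (σ x).proj) (σ x')).2 =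
        (⟨ac (f x) (w x x)⁻¹⟩ : Disc Y) := by
      filter_upwards [hf x hx] with x' hx'
      change (⟨ac (ac (f x') (w x' x')⁻¹) (w x' x' * (w x x')⁻¹)⟩ : Disc Y) = _
      rw [hac, inv_mul_cancel_left, hx']
    exact continuousAt_const.congr (h1.mono fun _ h => h.symm)
  have hprσ : ∀ x, pr (σ x) = x := fun _ => rfl
  obtain ⟨x₀, hx₀⟩ := hUc.nonempty
  obtain ⟨hMo, hMc⟩ := hCompCov B Z.TotalSpace hLC pr hcov (σ x₀)
  let M : Type := connectedComponent (σ x₀)
  let p : M → B := fun y => pr y.1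
  have hMc' : IsCoveringMap p := hMc
  have hσM : ∀ x ∈ U, σ x ∈ connectedComponent (σ x₀) := by
    intro x hx
    exact (hUc.isPreconnected.image σ hσ).subset_connectedComponent (mem_image_of_mem σ hx₀)
      (mem_image_of_mem σ hx)
  haveI : T2Space M := Sys_t2 hMc'
  haveI hMC : ConnectedSpace M := isConnected_iff_connectedSpace.1 isConnected_connectedComponent
  haveI : SecondCountableTopology M := hPV B M hSC hMC p hMc'
  classical
  let s : B → M := fun x => if h : x ∈ U then ⟨σ x, hσM x h⟩ else ⟨σ x₀, hσM x₀ hx₀⟩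
  have hs1 : ∀ x (h : x ∈ U), s x = ⟨σ x, hσM x h⟩ := fun x h => dif_pos h
  have hs2 : ContinuousOn s U := by
    rw [continuousOn_iff_continuous_domRestrict]
    have h1 : U.domRestrict s = fun x : U => (⟨σ x.1, hσM x.1 x.2⟩ : M) := by
      funext x
      exact hs1 x.1 x.2
    rw [h1]
    exact Continuous.subtype_mk (continuousOn_iff_continuous_domRestrict.1 hσ) _
  have hs3 : ∀ x ∈ U, p (s x) = x := by
    intro x hx
    rw [hs1 x hx]
  have hpi : Function.Injective p := hinj M p s hMc' hs2 hs3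
  have hps : Function.Surjective p := Sys_surj hMc'
  let e : M ≃ₜ B := (Equiv.ofBijective p ⟨hpi, hps⟩).toHomeomorphOfContinuousOpen hMc'.continuous
    hMc'.isOpenMap
  have he : ∀ m, e m = p m := fun _ => rfl
  let τ : B → Z.TotalSpace := fun y => (e.symm y).1
  have hτ : Continuous τ := continuous_subtype_val.comp e.symm.continuous
  have hs4 : ∀ y, (τ y).proj = y := by
    intro y
    exact (he (e.symm y)).symm.trans (e.apply_symm_apply y)
  have hτσ : ∀ x ∈ U, τ x = σ x := by
    intro x hx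
    have h1 : e.symm x = ⟨σ x, hσM x hx⟩ := by
      rw [e.symm_apply_eq, he]
    simp only [τ, h1]
  let val : Z.TotalSpace → Y := fun e => ac (show Disc Y from e.2).val (w e.1 e.1)
  refine ⟨fun y => val (τ y), ?_, ?_⟩
  · intro x hx
    simp only [hτσ x hx]
    change ac (ac (f x) (w x x)⁻¹) (w x x) = f x
    rw [hac, inv_mul_cancel, hac1]
  · intro y
    have h1 := (FiberBundle.continuousAt_totalSpace (Disc Y) τ (x₀ := y)).1 hτ.continuousAt
    have h2 : ∀ᶠ y' in 𝓝 y, ((trivializationAt (Disc Y) Z.Fiber (τ y).proj) (τ y')).2 =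
        ((trivializationAt (Disc Y) Z.Fiber (τ y).proj) (τ y)).2 := by
      have h3 : ∀ᶠ v in 𝓝 ((trivializationAt (Disc Y) Z.Fiber (τ y).proj) (τ y)).2,
          v = ((trivializationAt (Disc Y) Z.Fiber (τ y).proj) (τ y)).2 := by
        rw [nhds_discrete]
        simp
      exact Tendsto.eventually h1.2 h3
    have key : ∀ y', (((trivializationAt (Disc Y) Z.Fiber (τ y).proj) (τ y')).2 : Disc Y).val =
        ac (val (τ y')) (w y y')⁻¹ := by
      intro y'
      change ac (show Disc Y from (τ y').2).val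
        (w (τ y').proj (τ y').proj * (w (τ y).proj (τ y').proj)⁻¹) = _
      simp only [val]
      rw [hac, hs4, hs4]
    filter_upwards [h2] with y' hy'
    rw [← key, ← key, hy']

end Pool.Agent.Lib.MP_55bc5f_an
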