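import Pool.Agent.Lib.MP_55bc5f_an.Full.SpecEt

/-!
# The vector fields `F ∂/∂z_{I b}`
-/

set_option autoImplicit false

open scoped Manifold ContDiff Topology ComplexConjugate
open Set Filter Metric MeasureTheory

namespace Pool.Agent.Lib.MP_55bc5f_an

/-- The Jacobian matrix. -/
noncomputable def vfJ {n N : ℕ} (E : LM n N) (I' I : Fin n → Fin N) (x : E) :
    Matrix (Fin n) (Fin n) ℂ := Matrix.of fun a b => E.A I' x (Pi.single b 1) (I a)

theorem vfJ_det {n N : ℕ} (E : LM n N) (I' I : Fin n → Fin N) (x : E) :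
    (vfJ E I' I x).det = E.GJ I' I x := rfl

/-- The Jacobian matrix applied to a vector. -/
theorem vfJ_mulVec {n N : ℕ} (E : LM n N) (I' I : Fin n → Fin N) (x : E) (v : Cn n) :
    Matrix.mulVec (vfJ E I' I x) v = prI I (E.A I' x v) := by
  funext a
  have h1 : v = ∑ c, v c • (Pi.single c 1 : Cn n) := by
    funext d
    simp [Finset.sum_apply, Pi.single_apply]
  conv_rhs => rw [h1]
  rw [prI_apply, map_sum, Finset.sum_apply]
  simp only [Matrix.mulVec, dotProduct, vfJ, Matrix.of_apply, map_smul, Pi.smul_apply, smul_eq_mul]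
  exact Finset.sum_congr rfl fun c _ => mul_comm _ _

theorem vfJ_holAt {n N : ℕ} (E : LM n N) (I' I : Fin n → Fin N) {x : E} (h : Et E.z I' x)
    (a b : Fin n) : HolAt E.z (fun y => vfJ E I' I y a b) x :=
  ((h.holAt_A).comp_clm (ContinuousLinearMap.apply ℂ (Cn N) (Pi.single b 1 : Cn n))).apply (I a)

theorem s_VF (hGlue : S_Glue) : S_VF := by
  intro n N E I hd F hF hQ b
  have hloc : ∀ I' : Fin n → Fin N, ∃ H : E → Cn N, (∀ x ∈ E.E I', HolAt E.z H x) ∧
      (∀ x ∈ E.E I ∩ E.E I', H x = F x • E.A I x (Pi.single b 1)) ∧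
      ∀ x ∈ E.E I', ∃ v : Cn n, H x = E.A I' x v := by
    intro I'
    obtain ⟨Q, hQ1, hQ2⟩ := hQ I'
    refine ⟨fun x => E.A I' x (Q x • Matrix.mulVec (vfJ E I' I x).adjugate (Pi.single b 1)),
      ?_, ?_, fun x _ => ⟨_, rfl⟩⟩
    · intro x hx
      have hx' : Et E.z I' x := hx
      refine (hx'.holAt_A).clm_apply ?_
      refine (hQ1 x hx).smul (HolAt.pi fun a => ?_)
      have h1 : (fun y => Matrix.mulVec (vfJ E I' I y).adjugate (Pi.single b 1) a) =
          fun y => ((vfJ E I' I y).updateRow b (Pi.single a 1)).det := by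
        funext y
        rw [Matrix.mulVec_single_one, Matrix.col_apply, Matrix.adjugate_apply]
      rw [h1]
      refine HolAt.det (p := E.z) fun i j => ?_
      by_cases hi : i = b
      · subst hi
        simp only [Matrix.updateRow_self]
        exact HolAt.const _ _ _
      · simp only [Matrix.updateRow_ne hi]
        exact vfJ_holAt E I' I hx' i j
    · rintro x ⟨hx, hx'⟩
      have hx1 : Et E.z I x := hx
      have hx2 : Et E.z I' x := hx'
      set v : Cn n := prI I' (E.A I x (Pi.single b 1)) with hv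
      have h1 : E.A I' x v = E.A I x (Pi.single b 1) := (A_change hx1 hx2 _).symm
      have h2 : Matrix.mulVec (vfJ E I' I x) v = Pi.single b 1 := by
        rw [vfJ_mulVec, h1, hx1.prI_A]
      have h3 : Matrix.mulVec (vfJ E I' I x).adjugate (Pi.single b 1) = E.GJ I' I x • v := by
        rw [← h2, Matrix.mulVec_mulVec, Matrix.adjugate_mul, vfJ_det, Matrix.smul_mulVec,
          Matrix.one_mulVec]
      show E.A I' x (Q x • Matrix.mulVec (vfJ E I' I x).adjugate (Pi.single b 1)) = _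
      rw [h3, smul_smul, map_smul, h1, hQ2 x ⟨hx, hx'⟩]
  obtain ⟨V, hV1, hV2⟩ := hGlue n N E I hd (Cn N) (fun x => F x • E.A I x (Pi.single b 1))
    (fun I' => by
      obtain ⟨H, h1, h2, -⟩ := hloc I'
      exact ⟨H, h1, h2⟩)
  refine ⟨V, hV1, hV2, fun I' x hx => ?_⟩
  -- tangency by density
  have hx' : Et E.z I' x := hx
  have hc1 : ∀ y ∈ E.E I', ContinuousAt (fun y => E.A I' y (prI I' (V y))) y := by
    intro y hy
    have hy' : Et E.z I' y := hy
    exact ((hy'.holAt_A).clm_apply ((hV1 y).comp_clm (prI I'))).continuousAt E.cont.continuousAt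
  have hc2 : ∀ y, ContinuousAt V y := fun y => (hV1 y).continuousAt E.cont.continuousAt
  have hmem : x ∈ closure (E.E I' ∩ E.E I) := hd.open_subset_closure_inter (E.isOpen_E I') hx
  have heq : ∀ y ∈ E.E I' ∩ E.E I, E.A I' y (prI I' (V y)) = V y := by
    rintro y ⟨hy', hy⟩
    have hy1 : Et E.z I y := hy
    have hy2 : Et E.z I' y := hy'
    rw [hV2 y hy, map_smul, map_smul, ← A_change hy1 hy2]
  have hne : (𝓝[E.E I' ∩ E.E I] x).NeBot := mem_closure_iff_nhdsWithin_neBot.mp hmem
  have t1 : Tendsto (fun y => E.A I' y (prI I' (V y))) (𝓝[E.E I' ∩ E.E I] x)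
      (𝓝 (E.A I' x (prI I' (V x)))) := (hc1 x hx).tendsto.mono_left nhdsWithin_le_nhds
  have t2 : Tendsto V (𝓝[E.E I' ∩ E.E I] x) (𝓝 (V x)) :=
    (hc2 x).tendsto.mono_left nhdsWithin_le_nhds
  refine tendsto_nhds_unique t1 (t2.congr' ?_)
  filter_upwards [self_mem_nhdsWithin] with y hy
  exact (heq y hy).symm

end Pool.Agent.Lib.MP_55bc5f_an
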