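import Pool.Agent.Lib.MP_55bc5f_an.Full.SpecEt

/-!
# The weight
-/

set_option autoImplicit false

open scoped Manifold ContDiff Topology ComplexConjugate
open Set Filter Metric MeasureTheory

namespace Pool.Agent.Lib.MP_55bc5f_an

private lemma wtE_nsq_nonneg {n : ℕ} (w : Cn n) : 0 ≤ nsq w :=
  Finset.sum_nonneg fun _ _ => by positivity

private lemma wtE_norm_sq_le {n : ℕ} (w : Cn n) : ‖w‖ ^ 2 ≤ nsq w := by
  have h1 : ‖w‖ ≤ Real.sqrt (nsq w) := by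
    rw [pi_norm_le_iff_of_nonneg (Real.sqrt_nonneg _)]
    intro j
    apply Real.le_sqrt_of_sq_le
    unfold nsq
    exact Finset.single_le_sum (f := fun j => ‖w j‖ ^ 2) (fun i _ => by positivity)
      (Finset.mem_univ j)
  calc ‖w‖ ^ 2 ≤ (Real.sqrt (nsq w)) ^ 2 := by
        apply pow_le_pow_left₀ (norm_nonneg _) h1
    _ = nsq w := Real.sq_sqrt (wtE_nsq_nonneg w)

private lemma wtE_continuous_nsq {n : ℕ} : Continuous (nsq : Cn n → ℝ) := by
  unfold nsq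
  fun_prop

private lemma wtE_compact {n N : ℕ} (E : LM n N) (hE : Topology.IsClosedEmbedding E.z) (r : ℝ) :
    IsCompact {x : E | nsq (E.z x) ≤ r} := by
  have h1 : IsCompact {v : Cn N | nsq v ≤ r} := by
    apply Metric.isCompact_of_isClosed_isBounded
    · exact isClosed_le wtE_continuous_nsq continuous_const
    · rw [isBounded_iff_forall_norm_le]
      refine ⟨Real.sqrt r, fun v hv => ?_⟩
      exact Real.le_sqrt_of_sq_le ((wtE_norm_sq_le v).trans hv)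
  exact hE.isCompact_preimage h1

/-- The Levi form is locally bounded. -/
private lemma wtE_lev_bound {n : ℕ} (X : Dom n) (u : X → ℝ) (hu : Sm X u) (x₀ : X) :
    ∃ C : ℝ, 0 ≤ C ∧ ∀ᶠ x in 𝓝 x₀, ∀ w, Lev X u x w ≤ C * nsq w := by
  have hc : Continuous (dR X (dR X u)) := hu.dR.dR.continuous
  have h1 : ∀ᶠ x in 𝓝 x₀, ‖dR X (dR X u) x‖ < ‖dR X (dR X u) x₀‖ + 1 :=
    hc.norm.continuousAt.eventually (gt_mem_nhds (by linarith))
  refine ⟨‖dR X (dR X u) x₀‖ + 1, by positivity, ?_⟩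
  filter_upwards [h1] with x hx
  intro w
  have h2 : ∀ v : Cn n, dR X (dR X u) x v v ≤ (‖dR X (dR X u) x₀‖ + 1) * ‖v‖ ^ 2 := by
    intro v
    calc dR X (dR X u) x v v ≤ ‖dR X (dR X u) x v v‖ := Real.le_norm_self _
      _ ≤ ‖dR X (dR X u) x v‖ * ‖v‖ := ContinuousLinearMap.le_opNorm _ _
      _ ≤ (‖dR X (dR X u) x‖ * ‖v‖) * ‖v‖ :=
        mul_le_mul_of_nonneg_right (ContinuousLinearMap.le_opNorm _ _) (norm_nonneg _)
      _ = ‖dR X (dR X u) x‖ * ‖v‖ ^ 2 := by ring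
      _ ≤ (‖dR X (dR X u) x₀‖ + 1) * ‖v‖ ^ 2 :=
        mul_le_mul_of_nonneg_right hx.le (by positivity)
  have h3 := h2 w
  have h4 := h2 (Complex.I • w)
  have h5 : ‖Complex.I • w‖ = ‖w‖ := by rw [norm_smul]; simp
  rw [h5] at h4
  have h6 := wtE_norm_sq_le w
  have h7 : (‖dR X (dR X u) x₀‖ + 1) * ‖w‖ ^ 2 ≤ (‖dR X (dR X u) x₀‖ + 1) * nsq w :=
    mul_le_mul_of_nonneg_left h6 (by positivity)
  have h8 : 0 ≤ (‖dR X (dR X u) x₀‖ + 1) * nsq w :=
    mul_nonneg (by positivity) (wtE_nsq_nonneg w)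
  unfold Lev
  linarith

private lemma wtE_sm_log {n N : ℕ} (hLevZ : S_LevZ) (E : LM n N) (I : Fin n → Fin N) :
    Sm (E.dom I) (fun y => Real.log (E.gs I (E.inc I y))) := by
  obtain ⟨-, -, -, h4, -, -⟩ := hLevZ n N E I
  intro y
  have h1 : Et E.z I (E.inc I y) := y.2
  have h2 : E.gs I (E.inc I y) ≠ 0 := by
    have := h1.one_le_gs
    intro h0
    rw [h0] at this
    linarith
  exact (h4 y).comp (F := Real.log) (Real.contDiffAt_log.2 h2)

/-- Change of coordinates for the Levi form of `log gs`. -/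
private lemma wtE_change (hLevLoc : S_LevLoc) (hLevZ : S_LevZ) (hLevInv : S_LevInv) {n N : ℕ}
    (E : LM n N) (I I' : Fin n → Fin N) (x : E) (h : x ∈ E.E I) (h' : x ∈ E.E I') (w : Cn n) :
    Lev (E.dom I) (fun y => Real.log (E.gs I (E.inc I y))) (E.mk' I x h) w =
      Lev (E.dom I') (fun y => Real.log (E.gs I' (E.inc I' y))) (E.mk' I' x h')
        (prI I' (E.A I x w)) := by
  obtain ⟨c1, c2, c3, -, -, c6⟩ := hLevLoc n (E.dom I) (E.mk' I x h)
  have s' : SmAt (E.dom I') (fun y => Real.log (E.gs I' (E.inc I' y))) (E.mk' I' x h') :=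
    wtE_sm_log hLevZ E I' _
  have s := (hLevInv n N E I' I (fun x => Real.log (E.gs I' x)) x h' h s').1
  have hL := (hLevInv n N E I I' (fun x => Real.log (E.gs I' x)) x h h' s).2 w
  have hG : HolAt (E.dom I).π (fun y => E.GJ I' I (E.inc I y)) (E.mk' I x h) :=
    holAt_dom.2 (Et.holAt_GJ (show Et E.z I' x from h') I)
  have hG0 : E.GJ I' I (E.inc I (E.mk' I x h)) ≠ 0 :=
    GJ_ne (show Et E.z I x from h) (show Et E.z I' x from h')
  obtain ⟨hsG, hLG⟩ := c6 (fun y => E.GJ I' I (E.inc I y)) hG hG0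
  have hev : (fun y => Real.log (E.gs I (E.inc I y))) =ᶠ[𝓝 (E.mk' I x h)]
      (fun y => Real.log (E.gs I' (E.inc I y)) +
        (-1) * Real.log (‖E.GJ I' I (E.inc I y)‖ ^ 2)) := by
    have hcont : Continuous (E.inc I) := continuous_subtype_val
    have hmem : ∀ᶠ y in 𝓝 (E.mk' I x h), E.inc I y ∈ E.E I' :=
      hcont.continuousAt.eventually ((E.isOpen_E I').mem_nhds h')
    filter_upwards [hmem] with y hy
    have hyI : Et E.z I (E.inc I y) := y.2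
    have hyI' : Et E.z I' (E.inc I y) := hy
    have h1 := gs_change hyI hyI'
    have h2 : 0 < E.gs I (E.inc I y) := by
      have := hyI.one_le_gs
      linarith
    have h3 : E.GJ I' I (E.inc I y) ≠ 0 := GJ_ne hyI hyI'
    have h4 : ‖E.GJ I' I (E.inc I y)‖ ^ 2 ≠ 0 := by
      have := norm_pos_iff.2 h3
      positivity
    rw [← h1, Real.log_mul h2.ne' h4]
    ring
  rw [c1 _ _ hev w, c2 _ _ s ?_ w, c3 _ (-1) hsG w, hLG w, hL]
  · ring
  · exact (SmAt.const (X := E.dom I) (-1 : ℝ) (E.mk' I x h)).mul hsG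

/-- Local bound. -/
private lemma wtE_local (hLevLoc : S_LevLoc) (hLevZ : S_LevZ) (hLevInv : S_LevInv) {n N : ℕ}
    (E : LM n N) (x₀ : E) :
    ∃ U ∈ 𝓝 x₀, ∃ C : ℝ, 0 ≤ C ∧ ∀ x ∈ U, ∀ (I : Fin n → Fin N) (h : x ∈ E.E I) (w : Cn n),
      Lev (E.dom I) (fun y => Real.log (E.gs I (E.inc I y))) (E.mk' I x h) w ≤
        C * nsq (E.A I x w) := by
  obtain ⟨I', hI'⟩ := E.et x₀
  have h0 : x₀ ∈ E.E I' := hI'
  obtain ⟨C, hC, hev⟩ := wtE_lev_bound (E.dom I') _ (wtE_sm_log hLevZ E I') (E.mk' I' x₀ h0)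
  have hmap : map (E.inc I') (𝓝 (E.mk' I' x₀ h0)) = 𝓝 x₀ :=
    (E.isOpen_E I').isOpenEmbedding_subtypeVal.map_nhds_eq (E.mk' I' x₀ h0)
  obtain ⟨V, hV, hVb⟩ := Filter.eventually_iff_exists_mem.1 hev
  refine ⟨E.inc I' '' V, ?_, C, hC, ?_⟩
  · rw [← hmap]
    exact image_mem_map hV
  · rintro x ⟨y, hy, rfl⟩ I h w
    have h' : E.inc I' y ∈ E.E I' := y.2
    rw [wtE_change hLevLoc hLevZ hLevInv E I I' (E.inc I' y) h h' w]
    have h1 := hVb y hy (prI I' (E.A I (E.inc I' y) w))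
    have h2 : E.mk' I' (E.inc I' y) h' = y := rfl
    rw [h2]
    refine h1.trans ?_
    apply mul_le_mul_of_nonneg_left _ hC
    obtain ⟨-, -, h3, -, -, -⟩ := hLevZ n N E I'
    have h4 := h3 y (prI I' (E.A I (E.inc I' y) w))
    rw [← A_change (show Et E.z I (E.inc I' y) from h) (show Et E.z I' (E.inc I' y) from h') w]
      at h4
    exact h4

theorem s_WtE (hLevComp : S_LevComp) (hWt : S_Wt) (hLevLoc : S_LevLoc) (hLevZ : S_LevZ)
    (hLevInv : S_LevInv) : S_WtE := by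
  intro n N E hE I
  have hbd : ∀ r : ℕ, ∃ C : ℝ, 0 ≤ C ∧ ∀ x ∈ {x : E | nsq (E.z x) ≤ (r : ℝ)},
      ∀ (I : Fin n → Fin N) (h : x ∈ E.E I) (w : Cn n),
      Lev (E.dom I) (fun y => Real.log (E.gs I (E.inc I y))) (E.mk' I x h) w ≤
        C * nsq (E.A I x w) := by
    intro r
    refine (wtE_compact E hE r).induction_on (p := fun S => ∃ C : ℝ, 0 ≤ C ∧ ∀ x ∈ S,
      ∀ (I : Fin n → Fin N) (h : x ∈ E.E I) (w : Cn n),
      Lev (E.dom I) (fun y => Real.log (E.gs I (E.inc I y))) (E.mk' I x h) w ≤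
        C * nsq (E.A I x w)) ?_ ?_ ?_ ?_
    · exact ⟨0, le_rfl, fun x hx => absurd hx (notMem_empty x)⟩
    · rintro S T hST ⟨C, hC, h⟩
      exact ⟨C, hC, fun x hx => h x (hST hx)⟩
    · rintro S T ⟨C, hC, h⟩ ⟨D, hD, h'⟩
      refine ⟨max C D, le_max_of_le_left hC, ?_⟩
      rintro x (hx | hx) I hI w
      · exact (h x hx I hI w).trans
          (mul_le_mul_of_nonneg_right (le_max_left _ _) (wtE_nsq_nonneg _))
      · exact (h' x hx I hI w).trans
          (mul_le_mul_of_nonneg_right (le_max_right _ _) (wtE_nsq_nonneg _))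
    · intro x _
      obtain ⟨U, hU, C, hC, h⟩ := wtE_local hLevLoc hLevZ hLevInv E x
      exact ⟨U, mem_nhdsWithin_of_mem_nhds hU, C, hC, h⟩
  choose C hC hb using hbd
  obtain ⟨χ, hχ, -, hχ2, hχ3⟩ := hWt (fun k => 2 * C k + 2) (-1)
  obtain ⟨z1, z2, z3, -, -, -⟩ := hLevZ n N E I
  have hlog := wtE_sm_log hLevZ E I
  have hs1 : Sm (E.dom I) (fun y => χ (nsq (E.z (E.inc I y)))) := z1.comp hχ
  have hs2 : Sm (E.dom I) (fun y => (-2) * Real.log (E.gs I (E.inc I y))) := fun y =>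
    (SmAt.const (X := E.dom I) (-2 : ℝ) y).mul (hlog y)
  have hfun : (fun y : E.dom I => χ (nsq (E.z (E.inc I y))) - 2 * Real.log (E.gs I (E.inc I y))) =
      (fun y : E.dom I => χ (nsq (E.z (E.inc I y))) + (-2) * Real.log (E.gs I (E.inc I y))) := by
    funext y
    ring
  refine ⟨χ, hχ, ?_, ?_⟩
  · rw [hfun]
    exact hs1.add hs2
  · intro y w
    rw [hfun]
    obtain ⟨-, c2, c3, c4, -, -⟩ := hLevLoc n (E.dom I) y
    rw [c2 _ _ (hs1 y) (hs2 y) w, c3 _ (-2) (hlog y) w,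
      c4 (fun y => nsq (E.z (E.inc I y))) χ (z1 y) hχ.contDiffAt w, z2 y w]
    have ht0 : 0 ≤ nsq (E.z (E.inc I y)) := wtE_nsq_nonneg _
    have h1 := (hχ3 (nsq (E.z (E.inc I y))) (by linarith)).2
    have h2 := (hχ2 (nsq (E.z (E.inc I y)))).2.2
    have h30 : nsq (E.z (E.inc I y)) ≤ ((⌈nsq (E.z (E.inc I y))⌉₊ : ℕ) : ℝ) := Nat.le_ceil _
    have h3 := hb ⌈nsq (E.z (E.inc I y))⌉₊ (E.inc I y) h30 I y.2 w
    have h3' : Lev (E.dom I) (fun y => Real.log (E.gs I (E.inc I y))) y w ≤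
        C ⌈nsq (E.z (E.inc I y))⌉₊ * nsq (E.A I (E.inc I y) w) := h3
    have h4 := z3 y w
    have h5 : 0 ≤ nsq (E.A I (E.inc I y) w) := wtE_nsq_nonneg _
    have h6 : (2 * C ⌈nsq (E.z (E.inc I y))⌉₊ + 2) * nsq (E.A I (E.inc I y) w) ≤
        deriv χ (nsq (E.z (E.inc I y))) * nsq (E.A I (E.inc I y) w) :=
      mul_le_mul_of_nonneg_right h1 h5
    have h7 : 0 ≤ deriv (deriv χ) (nsq (E.z (E.inc I y))) *
        ((dR (E.dom I) (fun y => nsq (E.z (E.inc I y))) y w) ^ 2 +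
          (dR (E.dom I) (fun y => nsq (E.z (E.inc I y))) y (Complex.I • w)) ^ 2) / 4 := by
      positivity
    nlinarith

end Pool.Agent.Lib.MP_55bc5f_an
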